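import Mathlib

/-!
# MP_d91fe8_nt: finite sets of positive rational numbers almost invariant under translations and
dilations
-/

namespace Pool.Agent.Lib.MP_d91fe8_nt

/-- A sequence of polynomial growth has almost equal neighbours. -/
theorem exists_slow (a : ℕ → ℕ) (r : ℕ) (h0 : 1 ≤ a 0) (h : ∀ n, a n ≤ (n + 1) ^ r) {ε : ℝ} (hε : 0 < ε) :
    ∃ n, (a (n + 1) : ℝ) ≤ (1 + ε) * a n := by
  by_contra hno
  push Not at hno
  have h1 : ∀ n, (1 + ε) ^ n ≤ (a n : ℝ) := by
    intro n
    induction n with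
    | zero => simpa using h0
    | succ n ih =>
      calc (1 + ε) ^ (n + 1) = (1 + ε) * (1 + ε) ^ n := by ring
        _ ≤ (1 + ε) * a n := mul_le_mul_of_nonneg_left ih (by positivity)
        _ ≤ a (n + 1) := (hno n).le
  have h2 := tendsto_pow_const_div_const_pow_of_one_lt r (by linarith : (1 : ℝ) < 1 + ε)
  have h3 : ∀ᶠ n : ℕ in Filter.atTop, (n : ℝ) ^ r / (1 + ε) ^ n < 1 / (1 + ε) :=
    h2.eventually (gt_mem_nhds (by positivity))
  obtain ⟨N, hN⟩ := Filter.eventually_atTop.1 h3
  have h4 := hN (N + 1) (Nat.le_succ N)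
  rw [div_lt_div_iff₀ (by positivity) (by positivity)] at h4
  have h5 := h1 N
  have h6 : (a N : ℝ) ≤ ((N : ℝ) + 1) ^ r := by exact_mod_cast h N
  push_cast at h4
  have h7 : (1 + ε) ^ (N + 1) = (1 + ε) ^ N * (1 + ε) := pow_succ _ _
  rw [h7, one_mul] at h4
  have h8 := lt_of_mul_lt_mul_right h4 (by positivity)
  linarith

open Classical in
/-- Finite sets of positive rational numbers almost invariant under finitely many dilations. -/
theorem exists_mul (Λ : Finset ℚ) (hΛ : ∀ l ∈ Λ, 0 < l) {ε : ℝ} (hε : 0 < ε) :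
    ∃ S : Finset ℚ, S.Nonempty ∧ (∀ s ∈ S, 0 < s) ∧
      ∀ l ∈ Λ, (((S.image fun x => l * x) \ S).card : ℝ) ≤ ε * S.card := by
  let S : ℕ → Finset ℚ := fun n =>
    (Fintype.piFinset fun _ : Λ => Finset.range (n + 1)).image fun e => ∏ l : Λ, (l : ℚ) ^ (e l)
  have hcard : ∀ n, (S n).card ≤ (n + 1) ^ Fintype.card Λ := by
    intro n
    refine Finset.card_image_le.trans (le_of_eq ?_)
    simp
  have hone : ∀ n, (1 : ℚ) ∈ S n := by
    intro n
    refine Finset.mem_image.2 ⟨fun _ => 0, ?_, ?_⟩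
    · rw [Fintype.mem_piFinset]
      intro _
      exact Finset.mem_range.2 (Nat.succ_pos n)
    · exact Finset.prod_eq_one fun l _ => pow_zero _
  have hmono : ∀ n, S n ⊆ S (n + 1) := by
    intro n x hx
    obtain ⟨e, he, rfl⟩ := Finset.mem_image.1 hx
    refine Finset.mem_image.2 ⟨e, ?_, rfl⟩
    rw [Fintype.mem_piFinset] at he ⊢
    intro l
    have := Finset.mem_range.1 (he l)
    exact Finset.mem_range.2 (by omega)
  have hmul : ∀ n, ∀ l ∈ Λ, ∀ x ∈ S n, l * x ∈ S (n + 1) := by
    intro n l hl x hx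
    obtain ⟨e, he, rfl⟩ := Finset.mem_image.1 hx
    refine Finset.mem_image.2 ⟨fun k => e k + (if k = ⟨l, hl⟩ then 1 else 0), ?_, ?_⟩
    · rw [Fintype.mem_piFinset] at he ⊢
      intro k
      have := Finset.mem_range.1 (he k)
      refine Finset.mem_range.2 ?_
      split_ifs <;> omega
    · have h1 : (∏ k : Λ, (k : ℚ) ^ (e k + (if k = ⟨l, hl⟩ then 1 else 0))) =
          (∏ k : Λ, (k : ℚ) ^ (e k)) * ∏ k : Λ, (if k = ⟨l, hl⟩ then (k : ℚ) else 1) := by
        rw [← Finset.prod_mul_distrib]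
        refine Finset.prod_congr rfl fun k _ => ?_
        split_ifs
        · rw [pow_succ]
        · rw [add_zero, mul_one]
      rw [h1, Finset.prod_ite_eq' Finset.univ (⟨l, hl⟩ : Λ) (fun k => (k : ℚ)), if_pos (Finset.mem_univ _), mul_comm]
  obtain ⟨n, hn⟩ := exists_slow (fun n => (S n).card) (Fintype.card Λ)
    (Finset.card_pos.2 ⟨1, hone 0⟩) hcard hε
  refine ⟨S n, ⟨1, hone n⟩, ?_, fun l hl => ?_⟩
  · intro s hs
    obtain ⟨e, -, rfl⟩ := Finset.mem_image.1 hs
    exact Finset.prod_pos fun l _ => pow_pos (hΛ _ l.2) _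
  · have h1 : ((S n).image fun x => l * x) \ S n ⊆ S (n + 1) \ S n := by
      intro x hx
      rw [Finset.mem_sdiff] at hx ⊢
      obtain ⟨y, hy, rfl⟩ := Finset.mem_image.1 hx.1
      exact ⟨hmul n l hl y hy, hx.2⟩
    have h2 := Finset.card_le_card h1
    rw [Finset.card_sdiff_of_subset (hmono n)] at h2
    have h3 : (((S n).image fun x => l * x) \ S n).card + (S n).card ≤ (S (n + 1)).card := by
      have := Finset.card_le_card (hmono n)
      omega
    have h4 : ((((S n).image fun x => l * x) \ S n).card : ℝ) + (S n).card ≤ (S (n + 1)).card := by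
      exact_mod_cast h3
    have h5 : ((S (n + 1)).card : ℝ) ≤ (1 + ε) * (S n).card := hn
    linarith

/-- At most `|r|` of the numbers `0, ..., R - 1` leave the interval under the translation by `r`. -/
theorem card_leave (R : ℕ) (r : ℤ) :
    ((Finset.range R).filter fun j : ℕ => ¬ (0 ≤ (j : ℤ) + r ∧ (j : ℤ) + r < R)).card ≤ r.natAbs := by
  rcases le_or_gt 0 r with h | h
  · have h1 : ((Finset.range R).filter fun j : ℕ => ¬ (0 ≤ (j : ℤ) + r ∧ (j : ℤ) + r < R)) ⊆
        Finset.Ico (R - r.natAbs) R := by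
      intro j hj
      rw [Finset.mem_filter, Finset.mem_range] at hj
      rw [Finset.mem_Ico]
      omega
    refine (Finset.card_le_card h1).trans ?_
    rw [Nat.card_Ico]
    omega
  · have h1 : ((Finset.range R).filter fun j : ℕ => ¬ (0 ≤ (j : ℤ) + r ∧ (j : ℤ) + r < R)) ⊆
        Finset.range r.natAbs := by
      intro j hj
      rw [Finset.mem_filter, Finset.mem_range] at hj
      rw [Finset.mem_range]
      omega
    refine (Finset.card_le_card h1).trans ?_
    rw [Finset.card_range]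

open Classical in
/-- Finite sets of positive rational numbers almost invariant under finitely many translations and
dilations. -/
theorem exists_folner (K Λ : Finset ℚ) (hΛ : ∀ l ∈ Λ, 0 < l) {ε : ℝ} (hε : 0 < ε) :
    ∃ F : Finset ℚ, F.Nonempty ∧ (∀ x ∈ F, 0 < x) ∧
      (∀ c ∈ K, (((F.image fun x => x + c) \ F).card : ℝ) ≤ ε * F.card) ∧
      ∀ l ∈ Λ, (((F.image fun x => l * x) \ F).card : ℝ) ≤ ε * F.card := by
  obtain ⟨S, hSne, hSpos, hS⟩ := exists_mul Λ hΛ hε
  -- the common denominator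
  let D : ℕ := ∏ p ∈ K ×ˢ S, (p.1 / p.2).den
  have hD : 0 < D := Finset.prod_pos fun p _ => (p.1 / p.2).den_pos
  have hD0 : (0 : ℚ) < D := by exact_mod_cast hD
  have hr : ∀ c ∈ K, ∀ s ∈ S, ∃ r : ℤ, (D : ℚ) * (c / s) = r := by
    intro c hc s hs
    obtain ⟨t, ht⟩ := Finset.dvd_prod_of_mem (fun p : ℚ × ℚ => (p.1 / p.2).den)
      (Finset.mk_mem_product hc hs)
    refine ⟨(c / s).num * t, ?_⟩
    have h1 : (D : ℚ) = ((c / s).den : ℚ) * t := by exact_mod_cast ht
    have h2 : (c / s) * ((c / s).den : ℚ) = (c / s).num := Rat.mul_den_eq_num _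
    rw [h1]
    push_cast
    rw [← h2]
    ring
  choose! r hr using hr
  obtain ⟨R, hR⟩ := exists_nat_gt ((∑ p ∈ K ×ˢ S, ((r p.1 p.2).natAbs : ℝ)) / ε)
  have hR0 : (0 : ℝ) < R := lt_of_le_of_lt (by positivity) hR
  have hRr : ∀ c ∈ K, ∀ s ∈ S, ((r c s).natAbs : ℝ) ≤ ε * R := by
    intro c hc s hs
    rw [div_lt_iff₀ hε] at hR
    have h1 : ((r c s).natAbs : ℝ) ≤ ∑ p ∈ K ×ˢ S, ((r p.1 p.2).natAbs : ℝ) :=
      Finset.single_le_sum (f := fun p : ℚ × ℚ => ((r p.1 p.2).natAbs : ℝ)) (fun p _ => by positivity)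
        (Finset.mk_mem_product hc hs)
    linarith
  have hRpos : 0 < R := by exact_mod_cast hR0
  -- a generic positive rational number
  let bad : Finset ℚ := ((S ×ˢ S) ×ˢ (Finset.range R ×ˢ Finset.range R)).image
    fun p => (p.1.2 * p.2.2 - p.1.1 * p.2.1) / (D * (p.1.1 - p.1.2))
  obtain ⟨X, hX, hXbad⟩ := (Set.Ioi_infinite (0 : ℚ)).exists_notMem_finset bad
  have hX : 0 < X := hX
  let φ : ℚ × ℕ → ℚ := fun p => p.1 * (X + p.2 / D)
  have hinj : Set.InjOn φ (S ×ˢ Finset.range R : Finset (ℚ × ℕ)) := by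
    rintro ⟨s, j⟩ hp ⟨s', j'⟩ hp' he
    rw [Finset.mem_coe, Finset.mem_product] at hp hp'
    have he : s * (X + j / D) = s' * (X + j' / D) := he
    have hs0 : s ≠ 0 := (hSpos s hp.1).ne'
    by_cases hss : s = s'
    · subst hss
      have h1 := mul_left_cancel₀ hs0 he
      have h2 : (j : ℚ) / D = j' / D := by linarith
      rw [div_left_inj' hD0.ne'] at h2
      have h3 : j = j' := by exact_mod_cast h2
      rw [h3]
    · exfalso
      apply hXbad
      refine Finset.mem_image.2 ⟨((s, s'), (j, j')), ?_, ?_⟩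
      · rw [Finset.mem_product, Finset.mem_product, Finset.mem_product]
        exact ⟨⟨hp.1, hp'.1⟩, hp.2, hp'.2⟩
      · show (s' * j' - s * j) / (D * (s - s')) = X
        have h1 : (D : ℚ) * (s - s') ≠ 0 := mul_ne_zero hD0.ne' (sub_ne_zero.2 hss)
        rw [div_eq_iff h1]
        have h2 : s * X + s * (j / D) = s' * X + s' * (j' / D) := by linarith
        have h3 : (s - s') * X = (s' * j' - s * j) / D := by
          field_simp
          field_simp at h2
          linarith
        rw [eq_div_iff hD0.ne'] at h3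
        linarith
  have hFcard : ((S ×ˢ Finset.range R).image φ).card = S.card * R := by
    rw [Finset.card_image_of_injOn hinj, Finset.card_product, Finset.card_range]
  have hFcard' : (((S ×ˢ Finset.range R).image φ).card : ℝ) = S.card * R := by
    rw [hFcard]
    push_cast
    ring
  refine ⟨(S ×ˢ Finset.range R).image φ, ?_, ?_, ?_, ?_⟩
  · exact (hSne.product (Finset.nonempty_range_iff.2 hRpos.ne')).image φ
  · intro x hx
    obtain ⟨p, hp, rfl⟩ := Finset.mem_image.1 hx
    rw [Finset.mem_product] at hp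
    have h1 := hSpos _ hp.1
    show 0 < p.1 * (X + p.2 / D)
    positivity
  · intro c hc
    have h1 : (((S ×ˢ Finset.range R).image φ).image fun x => x + c) \ (S ×ˢ Finset.range R).image φ ⊆
        (S.sigma fun s => (Finset.range R).filter fun j : ℕ => ¬ (0 ≤ (j : ℤ) + r c s ∧ (j : ℤ) + r c s < R)).image
          fun p => p.1 * (X + p.2 / D) + c := by
      intro x hx
      rw [Finset.mem_sdiff] at hx
      obtain ⟨y, hy, rfl⟩ := Finset.mem_image.1 hx.1
      obtain ⟨⟨s, j⟩, hp, rfl⟩ := Finset.mem_image.1 hy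
      rw [Finset.mem_product] at hp
      refine Finset.mem_image.2 ⟨⟨s, j⟩, ?_, rfl⟩
      rw [Finset.mem_sigma, Finset.mem_filter]
      refine ⟨hp.1, hp.2, fun hj => hx.2 ?_⟩
      refine Finset.mem_image.2 ⟨(s, ((j : ℤ) + r c s).toNat), ?_, ?_⟩
      · rw [Finset.mem_product, Finset.mem_range]
        refine ⟨hp.1, ?_⟩
        show ((j : ℤ) + r c s).toNat < R
        have h6 : 0 ≤ (j : ℤ) + r c s := hj.1
        have h7 : (j : ℤ) + r c s < R := hj.2
        omega
      · show s * (X + (((j : ℤ) + r c s).toNat : ℕ) / D) = s * (X + j / D) + c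
        have h2 : ((((j : ℤ) + r c s).toNat : ℕ) : ℚ) = j + r c s := by
          have h3 : ((((j : ℤ) + r c s).toNat : ℕ) : ℤ) = j + r c s := Int.toNat_of_nonneg hj.1
          exact_mod_cast h3
        have h4 := hr c hc s hp.1
        have hs0 : s ≠ 0 := (hSpos s hp.1).ne'
        rw [h2, ← h4]
        field_simp
        ring
    have h2 := (Finset.card_le_card h1).trans Finset.card_image_le
    rw [Finset.card_sigma] at h2
    have h3 : ((∑ s ∈ S, ((Finset.range R).filter fun j : ℕ => ¬ (0 ≤ (j : ℤ) + r c s ∧ (j : ℤ) + r c s < R)).card : ℕ) : ℝ) ≤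
        ∑ _s ∈ S, ε * R := by
      push_cast
      refine Finset.sum_le_sum fun s hs => ?_
      have h4 : (((Finset.range R).filter fun j : ℕ => ¬ (0 ≤ (j : ℤ) + r c s ∧ (j : ℤ) + r c s < R)).card : ℝ) ≤
          ((r c s).natAbs : ℝ) := by exact_mod_cast card_leave R (r c s)
      exact h4.trans (hRr c hc s hs)
    rw [Finset.sum_const, nsmul_eq_mul] at h3
    have h5 : (((((S ×ˢ Finset.range R).image φ).image fun x => x + c) \ (S ×ˢ Finset.range R).image φ).card : ℝ) ≤
        ((∑ s ∈ S, ((Finset.range R).filter fun j : ℕ => ¬ (0 ≤ (j : ℤ) + r c s ∧ (j : ℤ) + r c s < R)).card : ℕ) : ℝ) := by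
      exact_mod_cast h2
    rw [hFcard']
    refine h5.trans (h3.trans (le_of_eq ?_))
    ring
  · intro l hl
    have hl0 : l ≠ 0 := (hΛ l hl).ne'
    have h1 : (((S ×ˢ Finset.range R).image φ).image fun x => l * x) \ (S ×ˢ Finset.range R).image φ ⊆
        ((S.filter fun s => l * s ∉ S) ×ˢ Finset.range R).image fun p => l * φ p := by
      intro x hx
      rw [Finset.mem_sdiff] at hx
      obtain ⟨y, hy, rfl⟩ := Finset.mem_image.1 hx.1
      obtain ⟨⟨s, j⟩, hp, rfl⟩ := Finset.mem_image.1 hy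
      rw [Finset.mem_product] at hp
      refine Finset.mem_image.2 ⟨(s, j), ?_, rfl⟩
      rw [Finset.mem_product, Finset.mem_filter]
      refine ⟨⟨hp.1, fun hs => hx.2 ?_⟩, hp.2⟩
      refine Finset.mem_image.2 ⟨(l * s, j), ?_, ?_⟩
      · rw [Finset.mem_product]
        exact ⟨hs, hp.2⟩
      · show l * s * (X + j / D) = l * (s * (X + j / D))
        ring
    have h2 := (Finset.card_le_card h1).trans Finset.card_image_le
    rw [Finset.card_product, Finset.card_range] at h2
    have h3 : (S.filter fun s => l * s ∉ S).card ≤ ((S.image fun x => l * x) \ S).card := by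
      rw [← Finset.card_image_of_injective (S.filter fun s => l * s ∉ S) (mul_right_injective₀ hl0)]
      refine Finset.card_le_card fun x hx => ?_
      obtain ⟨s, hs, rfl⟩ := Finset.mem_image.1 hx
      rw [Finset.mem_filter] at hs
      exact Finset.mem_sdiff.2 ⟨Finset.mem_image_of_mem _ hs.1, hs.2⟩
    have h4 : ((S.filter fun s => l * s ∉ S).card : ℝ) ≤ ε * S.card := (by exact_mod_cast h3 : ((S.filter fun s => l * s ∉ S).card : ℝ) ≤ (((S.image fun x => l * x) \ S).card : ℝ)).trans (hS l hl)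
    rw [hFcard']
    have h5 : (((((S ×ˢ Finset.range R).image φ).image fun x => l * x) \ (S ×ˢ Finset.range R).image φ).card : ℝ) ≤
        (S.filter fun s => l * s ∉ S).card * R := by exact_mod_cast h2
    calc (((((S ×ˢ Finset.range R).image φ).image fun x => l * x) \ (S ×ˢ Finset.range R).image φ).card : ℝ)
        ≤ (S.filter fun s => l * s ∉ S).card * R := h5
      _ ≤ (ε * S.card) * R := mul_le_mul_of_nonneg_right h4 hR0.le
      _ = ε * (S.card * R) := by ring

end Pool.Agent.Lib.MP_d91fe8_nt
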