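import Mathlib

/-!
# MP_d91fe8_nt: averages of isometries

Almost invariant vectors by averaging (the vector of almost minimal norm in the convex hull of an
orbit), and the theorem for the operators of translation and dilation.
-/

namespace Pool.Agent.Lib.MP_d91fe8_nt

/-- The average of a finite family. -/
noncomputable def avg {V : Type*} [AddCommGroup V] [Module ℝ V] {ι : Type*} [Fintype ι] (f : ι → V) : V :=
  (Fintype.card ι : ℝ)⁻¹ • ∑ i, f i

section Module

variable {V W : Type*} [AddCommGroup V] [Module ℝ V] [AddCommGroup W] [Module ℝ W]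

theorem avg_const {ι : Type*} [Fintype ι] [Nonempty ι] (x : V) : avg (fun _ : ι => x) = x := by
  unfold avg
  rw [Finset.sum_const, Finset.card_univ, ← Nat.cast_smul_eq_nsmul ℝ, smul_smul,
    inv_mul_cancel₀ (by exact_mod_cast Fintype.card_ne_zero), one_smul]

theorem avg_sub {ι : Type*} [Fintype ι] (f g : ι → V) : avg (fun i => f i - g i) = avg f - avg g := by
  unfold avg
  rw [Finset.sum_sub_distrib, smul_sub]

theorem avg_add {ι : Type*} [Fintype ι] (f g : ι → V) : avg (fun i => f i + g i) = avg f + avg g := by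
  unfold avg
  rw [Finset.sum_add_distrib, smul_add]

theorem map_avg {ι : Type*} [Fintype ι] (L : V →ₗ[ℝ] W) (f : ι → V) : L (avg f) = avg (fun i => L (f i)) := by
  unfold avg
  rw [map_smul, map_sum]

theorem avg_prod {ι κ : Type*} [Fintype ι] [Fintype κ] (f : ι → κ → V) :
    avg (fun p : ι × κ => f p.1 p.2) = avg (fun i => avg (f i)) := by
  unfold avg
  rw [Fintype.card_prod, Nat.cast_mul, mul_inv, Fintype.sum_prod_type, ← Finset.smul_sum, smul_smul]

theorem avg_comm {ι κ : Type*} [Fintype ι] [Fintype κ] (f : ι → κ → V) :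
    avg (fun i => avg (f i)) = avg (fun k => avg (fun i => f i k)) := by
  unfold avg
  rw [← Finset.smul_sum, ← Finset.smul_sum, Finset.sum_comm, smul_comm]

end Module

section Real

theorem avg_le {ι : Type*} [Fintype ι] [Nonempty ι] {f : ι → ℝ} {C : ℝ} (h : ∀ i, f i ≤ C) : avg f ≤ C := by
  have h1 : avg f ≤ avg (fun _ : ι => C) := by
    unfold avg
    rw [smul_eq_mul, smul_eq_mul]
    exact mul_le_mul_of_nonneg_left (Finset.sum_le_sum fun i _ => h i) (by positivity)
  rwa [avg_const] at h1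

theorem avg_mono {ι : Type*} [Fintype ι] {f g : ι → ℝ} (h : ∀ i, f i ≤ g i) : avg f ≤ avg g := by
  unfold avg
  rw [smul_eq_mul, smul_eq_mul]
  exact mul_le_mul_of_nonneg_left (Finset.sum_le_sum fun i _ => h i) (by positivity)

theorem exists_le_avg {ι : Type*} [Fintype ι] [Nonempty ι] (f : ι → ℝ) : ∃ i, f i ≤ avg f := by
  by_contra hno
  push Not at hno
  have h1 : ∑ i, avg f < ∑ i, f i := Finset.sum_lt_sum_of_nonempty Finset.univ_nonempty fun i _ => hno i
  rw [Finset.sum_const, Finset.card_univ, nsmul_eq_mul] at h1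
  have h2 : (Fintype.card ι : ℝ) * avg f = ∑ i, f i := by
    unfold avg
    rw [smul_eq_mul, ← mul_assoc, mul_inv_cancel₀ (by exact_mod_cast Fintype.card_ne_zero), one_mul]
  linarith

theorem exists_ge_avg {ι : Type*} [Fintype ι] [Nonempty ι] (f : ι → ℝ) : ∃ i, avg f ≤ f i := by
  obtain ⟨i, hi⟩ := exists_le_avg (fun i => - f i)
  have h1 : avg (fun i => - f i) = - avg f := by
    unfold avg
    rw [Finset.sum_neg_distrib, smul_neg]
  rw [h1] at hi
  exact ⟨i, by linarith⟩

end Real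

variable {E : Type*} [SeminormedAddCommGroup E] [InnerProductSpace ℝ E]

theorem norm_avg_le {ι : Type*} [Fintype ι] [Nonempty ι] {f : ι → E} {C : ℝ} (h : ∀ i, ‖f i‖ ≤ C) : ‖avg f‖ ≤ C := by
  have h1 : ‖avg f‖ ≤ avg (fun i => ‖f i‖) := by
    unfold avg
    rw [norm_smul, smul_eq_mul, norm_inv, RCLike.norm_natCast]
    exact mul_le_mul_of_nonneg_left (norm_sum_le _ _) (by positivity)
  exact h1.trans (avg_le h)

theorem inner_avg_right {ι : Type*} [Fintype ι] (x : E) (f : ι → E) :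
    inner ℝ x (avg f) = avg (fun i => inner ℝ x (f i)) := by
  unfold avg
  rw [inner_smul_right, inner_sum, smul_eq_mul]

theorem inner_avg_left {ι : Type*} [Fintype ι] (x : E) (f : ι → E) :
    inner ℝ (avg f) x = avg (fun i => inner ℝ (f i) x) := by
  rw [real_inner_comm, inner_avg_right]
  congr 1
  funext i
  rw [real_inner_comm]

/-- An almost invariant average. -/
theorem near {G : Type*} [Nonempty G] (U : G → (E →ₗᵢ[ℝ] E))
    (hmul : ∀ g h, ∃ k, ∀ f, U g (U h f) = U k f) (v : E) {η : ℝ} (hη : 0 < η) :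
    ∃ (ι : Type) (_ : Fintype ι) (_ : Nonempty ι) (g : ι → G), ∀ h : G,
      ‖U h (avg fun i => U (g i) v) - avg fun i => U (g i) v‖ ≤ η := by
  let S : Set ℝ := {r | ∃ (ι : Type) (_ : Fintype ι) (_ : Nonempty ι) (g : ι → G), r = ‖avg fun i => U (g i) v‖}
  have hne : S.Nonempty := ⟨_, Unit, inferInstance, inferInstance, fun _ => Classical.arbitrary G, rfl⟩
  have hbd : BddBelow S := ⟨0, by
    rintro r ⟨ι, _, _, g, rfl⟩
    exact norm_nonneg _⟩
  have hd0 : 0 ≤ sInf S := le_csInf hne (by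
    rintro r ⟨ι, _, _, g, rfl⟩
    exact norm_nonneg _)
  set d := sInf S with hd
  have hε : 0 < min 1 (η ^ 2 / (4 * (2 * d + 1))) := lt_min one_pos (by positivity)
  obtain ⟨r, ⟨ι, hι, hι', g, rfl⟩, hr⟩ := exists_lt_of_csInf_lt hne (lt_add_of_pos_right d hε)
  refine ⟨ι, hι, hι', g, fun h => ?_⟩
  set a : E := avg fun i => U (g i) v with ha
  have hr1 : ‖a‖ < d + 1 := hr.trans_le (add_le_add_right (min_le_left _ _) d)
  have hr2 : ‖a‖ < d + η ^ 2 / (4 * (2 * d + 1)) := hr.trans_le (add_le_add_right (min_le_right _ _) d)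
  have hmid : d ≤ ‖(2 : ℝ)⁻¹ • (a + U h a)‖ := by
    choose k hk using hmul h
    refine csInf_le hbd ⟨ι ⊕ ι, inferInstance, inferInstance, Sum.elim g (fun i => k (g i)), ?_⟩
    congr 1
    rw [ha, ← LinearIsometry.coe_toLinearMap, map_avg]
    unfold avg
    rw [Fintype.sum_sum_type, Fintype.card_sum, Nat.cast_add, ← smul_add, smul_smul, ← mul_inv]
    congr 1
    · congr 1
      ring
    · congr 1
      refine Finset.sum_congr rfl fun i _ => ?_
      exact hk (g i) v
  have hmid' : 2 * d ≤ ‖a + U h a‖ := by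
    rw [norm_smul, norm_inv, Real.norm_ofNat] at hmid
    linarith
  have hpar := parallelogram_law_with_norm ℝ a (U h a)
  rw [LinearIsometry.norm_map] at hpar
  have h3 : ‖U h a - a‖ = ‖a - U h a‖ := norm_sub_rev _ _
  rw [h3]
  have h4 : ‖a - U h a‖ ^ 2 ≤ η ^ 2 := by
    have h5 : (2 * d) ^ 2 ≤ ‖a + U h a‖ ^ 2 := by
      apply pow_le_pow_left₀ (by positivity) hmid'
    have h6 : 4 * (‖a‖ - d) * (‖a‖ + d) ≤ η ^ 2 := by
      have h7 : ‖a‖ - d ≤ η ^ 2 / (4 * (2 * d + 1)) := by linarith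
      have h8 : ‖a‖ + d ≤ 2 * d + 1 := by linarith
      calc 4 * (‖a‖ - d) * (‖a‖ + d) ≤ 4 * (η ^ 2 / (4 * (2 * d + 1))) * (‖a‖ + d) := by
            apply mul_le_mul_of_nonneg_right _ (by positivity)
            linarith
        _ ≤ 4 * (η ^ 2 / (4 * (2 * d + 1))) * (2 * d + 1) := by
            apply mul_le_mul_of_nonneg_left h8 (by positivity)
        _ = η ^ 2 := by
            field_simp
    nlinarith
  exact le_of_sq_le_sq h4 hη.le

/-- A finite family of translations `γ h ω` that kills `v'` for finitely many `γ ≠ 0`. -/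
theorem exists_family (T : ℚ → (E →ₗᵢ[ℝ] E)) (hT : ∀ a b f, T (a + b) f = T a (T b f)) (v' : E) {η : ℝ}
    {κ : Type} [Fintype κ] [Nonempty κ] (c : κ → ℚ) (hc : ‖avg fun k => T (c k) v'‖ ≤ η) (H : ℚ)
    (Γ : Finset ℚ) : (∀ γ ∈ Γ, γ ≠ 0) →
    ∃ (Ω : Type) (_ : Fintype Ω) (_ : Nonempty Ω) (h : Ω → ℚ), (∀ ω, H ≤ h ω) ∧
      ∀ γ ∈ Γ, ‖avg fun ω => T (γ * h ω) v'‖ ≤ η := by
  classical
  induction Γ using Finset.induction_on with
  | empty => exact fun _ => ⟨Unit, inferInstance, inferInstance, fun _ => H, fun _ => le_rfl, fun γ hγ => absurd hγ (Finset.notMem_empty γ)⟩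
  | insert γ Γ hγ ih =>
    intro hne
    obtain ⟨Ω, _, _, h, hH, hh⟩ := ih fun γ' hγ' => hne γ' (Finset.mem_insert_of_mem hγ')
    have hγ0 : γ ≠ 0 := hne γ (Finset.mem_insert_self γ Γ)
    obtain ⟨A, hA⟩ := Finite.exists_le fun k => -(c k / γ)
    refine ⟨Ω × κ, inferInstance, inferInstance, fun p => h p.1 + c p.2 / γ + A, fun p => ?_, fun γ' hγ' => ?_⟩
    · have h1 := hH p.1
      have h2 := hA p.2
      linarith
    · rcases Finset.mem_insert.1 hγ' with rfl | hγ'
      · rw [avg_prod (fun ω k => T (γ' * (h ω + c k / γ' + A)) v')]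
        refine norm_avg_le fun ω => ?_
        have h1 : ∀ k, T (γ' * (h ω + c k / γ' + A)) v' = T (γ' * (h ω + A)) (T (c k) v') := by
          intro k
          rw [← hT]
          congr 2
          field_simp
          ring
        have h2 : avg (fun k => T (γ' * (h ω + c k / γ' + A)) v') = T (γ' * (h ω + A)) (avg fun k => T (c k) v') := by
          rw [← LinearIsometry.coe_toLinearMap, map_avg]
          congr 1
          funext k
          exact h1 k
        rw [h2, LinearIsometry.norm_map]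
        exact hc
      · rw [avg_prod (fun ω k => T (γ' * (h ω + c k / γ + A)) v'), avg_comm]
        refine norm_avg_le fun k => ?_
        have h1 : ∀ ω, T (γ' * (h ω + c k / γ + A)) v' = T (γ' * (c k / γ + A)) (T (γ' * h ω) v') := by
          intro ω
          rw [← hT]
          congr 2
          ring
        have h2 : avg (fun ω => T (γ' * (h ω + c k / γ + A)) v') = T (γ' * (c k / γ + A)) (avg fun ω => T (γ' * h ω) v') := by
          rw [← LinearIsometry.coe_toLinearMap, map_avg]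
          congr 1
          funext ω
          exact h1 ω
        rw [h2, LinearIsometry.norm_map]
        exact hh γ' hγ'

/-- The square of the norm of an average. -/
theorem norm_avg_sq {ι : Type*} [Fintype ι] (f : ι → E) :
    ‖avg f‖ ^ 2 = avg (fun i => avg (fun j => inner ℝ (f i) (f j))) := by
  rw [← real_inner_self_eq_norm_sq, inner_avg_left]
  congr 1
  funext i
  rw [inner_avg_right]

/-- The average over `κ × Fin L` of the indicator of `b k * 2 ^ l = x`. -/
theorem avg_indicator_le {κ : Type} [Fintype κ] [Nonempty κ] (b : κ → ℚ) (hb : ∀ k, 0 < b k) (L : ℕ) [NeZero L]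
    (x : ℚ) : avg (fun p : κ × Fin L => if b p.1 * 2 ^ (p.2 : ℕ) = x then (1 : ℝ) else 0) ≤ 1 / L := by
  classical
  rw [avg_prod (fun k (l : Fin L) => if b k * 2 ^ (l : ℕ) = x then (1 : ℝ) else 0)]
  refine avg_le fun k => ?_
  unfold avg
  rw [Finset.sum_boole, smul_eq_mul, Fintype.card_fin, one_div]
  have h1 : (Finset.univ.filter fun l : Fin L => b k * 2 ^ (l : ℕ) = x).card ≤ 1 := by
    rw [Finset.card_le_one]
    intro l hl l' hl'
    rw [Finset.mem_filter] at hl hl'
    have h2 : b k * 2 ^ (l : ℕ) = b k * 2 ^ (l' : ℕ) := hl.2.trans hl'.2.symm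
    have h3 : (2 : ℚ) ^ (l : ℕ) = 2 ^ (l' : ℕ) := mul_left_cancel₀ (hb k).ne' h2
    exact Fin.ext (pow_right_injective₀ (by norm_num) (by norm_num) h3)
  calc (L : ℝ)⁻¹ * ((Finset.univ.filter fun l : Fin L => b k * 2 ^ (l : ℕ) = x).card : ℝ) ≤ (L : ℝ)⁻¹ * 1 := by
        apply mul_le_mul_of_nonneg_left _ (by positivity)
        exact_mod_cast h1
    _ = (L : ℝ)⁻¹ := mul_one _

/-- The positive rational numbers. -/
abbrev P : Type := {u : ℚ // 0 < u}

/-- The theorem on translations `T` and dilations `M`: if `v` has positive mean, then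
`⟨v, M (u ^ 2) T (2 u) v⟩ > 0` for some large `u`. -/
theorem main_ineq (T : ℚ → (E →ₗᵢ[ℝ] E)) (M : P → (E →ₗᵢ[ℝ] E))
    (hT : ∀ a b f, T (a + b) f = T a (T b f)) (hM : ∀ a b f, M (a * b) f = M a (M b f))
    (hM0 : ∀ f, M 1 f = f)
    (hTM : ∀ c (u : P) f, T c (M u f) = M u (T ((u : ℚ) * c) f))
    (one v : E) (hT1 : ∀ c, T c one = one) (hM1 : ∀ u, M u one = one) (hone : ‖one‖ ≤ 1) (hv : ‖v‖ ≤ 1)
    {δ : ℝ} (hδ : 0 < δ) (hvδ : δ ≤ inner ℝ v one) (H : ℚ) :
    ∃ u : P, H ≤ (u : ℚ) ∧ 0 < inner ℝ v (M (u * u) (T (2 * (u : ℚ)) v)) := by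
  classical
  have hδ1 : δ ≤ 1 := by
    calc δ ≤ inner ℝ v one := hvδ
      _ ≤ ‖v‖ * ‖one‖ := real_inner_le_norm v one
      _ ≤ 1 * 1 := mul_le_mul hv hone (norm_nonneg _) zero_le_one
      _ = 1 := one_mul 1
  have hη : 0 < δ ^ 4 / 100 := by positivity
  set η := δ ^ 4 / 100 with hηdef
  -- the translation invariant vector
  obtain ⟨κ, _, _, c, hw⟩ := near T (fun g h => ⟨g + h, fun f => (hT g h f).symm⟩) v hη
  set w : E := avg fun k => T (c k) v with hwdef
  have hw1 : ‖w‖ ≤ 1 := norm_avg_le fun k => by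
    rw [LinearIsometry.norm_map]
    exact hv
  -- the dilation invariant vector
  obtain ⟨ι, _, _, b, hz⟩ := near (fun u : P => M (u * u)) (fun g h => ⟨g * h, fun f => by
    show M (g * g) (M (h * h) f) = M (g * h * (g * h)) f
    rw [← hM, mul_mul_mul_comm]⟩) w hη
  set z : E := avg fun i => M (b i * b i) w with hzdef
  -- the lower bound for the inner product of `v` and `z`
  have hTz : ∀ c', ‖T c' z - z‖ ≤ η := by
    intro c'
    have h1 : T c' z - z = avg fun i => M (b i * b i) (T (((b i * b i : P) : ℚ) * c') w - w) := by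
      rw [hzdef, ← LinearIsometry.coe_toLinearMap, map_avg, ← avg_sub]
      congr 1
      funext i
      rw [LinearIsometry.coe_toLinearMap, hTM, map_sub]
    rw [h1]
    refine norm_avg_le fun i => ?_
    rw [LinearIsometry.norm_map]
    exact hw _
  have hvz1 : inner ℝ w z ≤ inner ℝ v z + η := by
    rw [hwdef, inner_avg_left]
    refine avg_le fun k => ?_
    have h1 : inner ℝ (T (c k) v) z = inner ℝ v z + inner ℝ (T (c k) v) (z - T (c k) z) := by
      rw [inner_sub_right, LinearIsometry.inner_map_map]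
      ring
    have h2 : inner ℝ (T (c k) v) (z - T (c k) z) ≤ 1 * η := by
      refine (real_inner_le_norm _ _).trans (mul_le_mul ?_ ?_ (norm_nonneg _) zero_le_one)
      · rw [LinearIsometry.norm_map]
        exact hv
      · rw [norm_sub_rev]
        exact hTz _
    rw [h1]
    linarith
  have hvz2 : inner ℝ z z ≤ inner ℝ w z + η := by
    have h0 : inner ℝ z z = inner ℝ (avg fun i => M (b i * b i) w) z := rfl
    rw [h0, inner_avg_left]
    refine avg_le fun i => ?_
    have h1 : inner ℝ (M (b i * b i) w) z = inner ℝ w z + inner ℝ (M (b i * b i) w) (z - M (b i * b i) z) := by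
      rw [inner_sub_right, LinearIsometry.inner_map_map]
      ring
    have h2 : inner ℝ (M (b i * b i) w) (z - M (b i * b i) z) ≤ 1 * η := by
      refine (real_inner_le_norm _ _).trans (mul_le_mul ?_ ?_ (norm_nonneg _) zero_le_one)
      · rw [LinearIsometry.norm_map]
        exact hw1
      · rw [norm_sub_rev]
        exact hz _
    rw [h1]
    linarith
  have hz1 : inner ℝ z one = inner ℝ v one := by
    have h1 : inner ℝ w one = inner ℝ v one := by
      rw [hwdef, inner_avg_left]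
      have h2 : (fun k => inner ℝ (T (c k) v) one) = fun _ => inner ℝ v one := by
        funext k
        conv_lhs => rw [← hT1 (c k)]
        rw [LinearIsometry.inner_map_map]
      rw [h2, avg_const]
    rw [hzdef, inner_avg_left]
    have h2 : (fun i => inner ℝ (M (b i * b i) w) one) = fun _ => inner ℝ v one := by
      funext i
      conv_lhs => rw [← hM1 (b i * b i)]
      rw [LinearIsometry.inner_map_map, h1]
    rw [h2, avg_const]
  have hz2 : δ ≤ ‖z‖ := by
    calc δ ≤ inner ℝ z one := by rw [hz1]; exact hvδ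
      _ ≤ ‖z‖ * ‖one‖ := real_inner_le_norm z one
      _ ≤ ‖z‖ * 1 := mul_le_mul_of_nonneg_left hone (norm_nonneg _)
      _ = ‖z‖ := mul_one _
  have hvz : δ ^ 2 - 2 * η ≤ inner ℝ v z := by
    have h1 : δ ^ 2 ≤ ‖z‖ ^ 2 := pow_le_pow_left₀ hδ.le hz2 2
    rw [← real_inner_self_eq_norm_sq] at h1
    linarith
  -- the family of the dilations
  obtain ⟨L, hL⟩ := exists_nat_gt (400 / δ ^ 4)
  have hL0 : (0 : ℝ) < L := lt_trans (by positivity) hL
  have hLne : L ≠ 0 := by
    rintro rfl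
    simp at hL0
  have : NeZero L := ⟨hLne⟩
  let two : P := ⟨2, by norm_num⟩
  let bb : ι × Fin L → P := fun p => b p.1 * two ^ (p.2 : ℕ)
  have hbb : ∀ p, ((bb p : P) : ℚ) = (b p.1 : ℚ) * 2 ^ (p.2 : ℕ) := fun p => rfl
  -- the vector `v' = v - w`
  set v' : E := v - w with hv'def
  have hv'2 : ‖v'‖ ≤ 2 := (norm_sub_le _ _).trans (by linarith)
  have hc : ‖avg fun k => T (c k) v'‖ ≤ η := by
    have h1 : (avg fun k => T (c k) v') = - avg fun k => (T (c k) w - w) := by
      rw [avg_sub, avg_const, neg_sub]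
      have h2 : (fun k => T (c k) v') = fun k => T (c k) v - T (c k) w := by
        funext k
        rw [hv'def, map_sub]
      rw [h2, avg_sub]
    rw [h1, norm_neg]
    exact norm_avg_le fun k => hw _
  let γ : (ι × Fin L) × (ι × Fin L) → ℚ := fun p => 2 * (bb p.2 : ℚ) * (1 - (bb p.2 : ℚ) / (bb p.1 : ℚ))
  obtain ⟨A, hA⟩ := Finite.exists_le fun j : ι × Fin L => H / (bb j : ℚ)
  obtain ⟨Ω, _, _, h, hH, hh⟩ := exists_family T hT v' c hc (max 1 A)
    ((Finset.univ.image γ).filter fun x => x ≠ 0) (fun x hx => (Finset.mem_filter.1 hx).2)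
  have hpos : ∀ ω, 0 < h ω := fun ω => lt_of_lt_of_le one_pos ((le_max_left 1 A).trans (hH ω))
  let hp : Ω → P := fun ω => ⟨h ω, hpos ω⟩
  let uu : Ω → (ι × Fin L) → P := fun ω j => bb j * hp ω
  have huu : ∀ ω j, ((uu ω j : P) : ℚ) = (bb j : ℚ) * h ω := fun ω j => rfl
  let F : Ω → (ι × Fin L) → E := fun ω j => M (uu ω j * uu ω j) (T (2 * (uu ω j : ℚ)) v')
  have hF2 : ∀ ω j, ‖F ω j‖ ≤ 2 := by
    intro ω j
    show ‖M (uu ω j * uu ω j) (T (2 * (uu ω j : ℚ)) v')‖ ≤ 2
    rw [LinearIsometry.norm_map, LinearIsometry.norm_map]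
    exact hv'2
  have hcross : ∀ i j, avg (fun ω => inner ℝ (F ω i) (F ω j)) ≤
      4 * (if (b j.1 : ℚ) * 2 ^ (j.2 : ℕ) = (bb i : ℚ) then (1 : ℝ) else 0) + 2 * η := by
    intro i j
    split_ifs with hij
    · refine avg_le fun ω => ?_
      calc inner ℝ (F ω i) (F ω j) ≤ ‖F ω i‖ * ‖F ω j‖ := real_inner_le_norm _ _
        _ ≤ 2 * 2 := mul_le_mul (hF2 ω i) (hF2 ω j) (norm_nonneg _) (by norm_num)
        _ ≤ 4 * 1 + 2 * η := by linarith
    · -- the different dilations
      let β : P := bb j * (bb i)⁻¹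
      have hβ : (β : ℚ) = (bb j : ℚ) / (bb i : ℚ) := by
        show (bb j : ℚ) * ((bb i : ℚ))⁻¹ = _
        rw [div_eq_mul_inv]
      have hi0 : (bb i : ℚ) ≠ 0 := (bb i).2.ne'
      have hj0 : (bb j : ℚ) ≠ 0 := (bb j).2.ne'
      have hγ : γ (i, j) ≠ 0 := by
        show 2 * (bb j : ℚ) * (1 - (bb j : ℚ) / (bb i : ℚ)) ≠ 0
        refine mul_ne_zero (mul_ne_zero two_ne_zero hj0) ?_
        intro h0
        have h1 : (bb j : ℚ) / (bb i : ℚ) = 1 := by linarith
        rw [div_eq_one_iff_eq hi0] at h1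
        exact hij h1
      have h1 : ∀ ω, inner ℝ (F ω i) (F ω j) = inner ℝ (M (β⁻¹ * β⁻¹) v') (T (γ (i, j) * h ω) v') := by
        intro ω
        have e1 : uu ω j * uu ω j = (uu ω i * uu ω i) * (β * β) := by
          apply Subtype.ext
          show ((bb j : ℚ) * h ω) * ((bb j : ℚ) * h ω) =
            (((bb i : ℚ) * h ω) * ((bb i : ℚ) * h ω)) * ((β : ℚ) * (β : ℚ))
          rw [hβ]
          field_simp
        have e2 : 2 * (uu ω j : ℚ) = ((β * β : P) : ℚ) * (2 * (uu ω i : ℚ)) + γ (i, j) * h ω := by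
          show 2 * ((bb j : ℚ) * h ω) = ((β : ℚ) * (β : ℚ)) * (2 * ((bb i : ℚ) * h ω)) +
            2 * (bb j : ℚ) * (1 - (bb j : ℚ) / (bb i : ℚ)) * h ω
          rw [hβ]
          field_simp
          ring
        have e3 : β * β * (β⁻¹ * β⁻¹) = 1 := by group
        show inner ℝ (M (uu ω i * uu ω i) (T (2 * (uu ω i : ℚ)) v')) (M (uu ω j * uu ω j) (T (2 * (uu ω j : ℚ)) v')) = _
        rw [e1, hM (uu ω i * uu ω i) (β * β), LinearIsometry.inner_map_map, e2, hT, ← hTM, LinearIsometry.inner_map_map]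
        rw [← LinearIsometry.inner_map_map (M (β * β)) (M (β⁻¹ * β⁻¹) v'), ← hM, e3, hM0]
      have h2 : avg (fun ω => inner ℝ (F ω i) (F ω j)) =
          inner ℝ (M (β⁻¹ * β⁻¹) v') (avg fun ω => T (γ (i, j) * h ω) v') := by
        rw [inner_avg_right]
        congr 1
        funext ω
        exact h1 ω
      rw [h2]
      calc inner ℝ (M (β⁻¹ * β⁻¹) v') (avg fun ω => T (γ (i, j) * h ω) v')
          ≤ ‖M (β⁻¹ * β⁻¹) v'‖ * ‖avg fun ω => T (γ (i, j) * h ω) v'‖ := real_inner_le_norm _ _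
        _ ≤ 2 * η := by
            refine mul_le_mul ?_ ?_ (norm_nonneg _) (by norm_num)
            · rw [LinearIsometry.norm_map]
              exact hv'2
            · exact hh _ (Finset.mem_filter.2 ⟨Finset.mem_image_of_mem γ (Finset.mem_univ _), hγ⟩)
        _ ≤ 4 * 0 + 2 * η := by linarith
  have hVavg : avg (fun ω => ‖avg (F ω)‖ ^ 2) ≤ 4 * (1 / L) + 2 * η := by
    have h1 : avg (fun ω => ‖avg (F ω)‖ ^ 2) = avg (fun i => avg (fun j => avg (fun ω => inner ℝ (F ω i) (F ω j)))) := by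
      have h2 : (fun ω => ‖avg (F ω)‖ ^ 2) = fun ω => avg (fun i => avg (fun j => inner ℝ (F ω i) (F ω j))) := by
        funext ω
        exact norm_avg_sq (F ω)
      rw [h2, avg_comm]
      congr 1
      funext i
      rw [avg_comm]
    rw [h1]
    refine avg_le fun i => ?_
    refine (avg_mono (hcross i)).trans ?_
    have h3 : avg (fun j : ι × Fin L => 4 * (if (b j.1 : ℚ) * 2 ^ (j.2 : ℕ) = (bb i : ℚ) then (1 : ℝ) else 0) + 2 * η) =
        4 * avg (fun j : ι × Fin L => if (b j.1 : ℚ) * 2 ^ (j.2 : ℕ) = (bb i : ℚ) then (1 : ℝ) else 0) + 2 * η := by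
      rw [avg_add (fun j : ι × Fin L => 4 * (if (b j.1 : ℚ) * 2 ^ (j.2 : ℕ) = (bb i : ℚ) then (1 : ℝ) else 0))
        (fun _ => 2 * η), avg_const]
      congr 1
      unfold avg
      rw [← Finset.mul_sum, smul_eq_mul, smul_eq_mul]
      ring
    rw [h3]
    have h4 := avg_indicator_le (fun k => (b k : ℚ)) (fun k => (b k).2) L (bb i : ℚ)
    linarith
  obtain ⟨ω, hω⟩ := exists_le_avg (fun ω => ‖avg (F ω)‖ ^ 2)
  have hV : ‖avg (F ω)‖ ≤ δ ^ 2 / 5 := by
    have h1 : ‖avg (F ω)‖ ^ 2 ≤ (δ ^ 2 / 5) ^ 2 := by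
      have h2 : 4 * (1 / (L : ℝ)) ≤ δ ^ 4 / 100 := by
        rw [div_lt_iff₀ (by positivity)] at hL
        rw [mul_one_div, div_le_div_iff₀ hL0 (by norm_num)]
        linarith
      calc ‖avg (F ω)‖ ^ 2 ≤ 4 * (1 / L) + 2 * η := hω.trans hVavg
        _ ≤ δ ^ 4 / 100 + 2 * (δ ^ 4 / 100) := by rw [hηdef]; linarith
        _ ≤ (δ ^ 2 / 5) ^ 2 := by
            have : 0 ≤ δ ^ 4 := by positivity
            nlinarith
    exact le_of_sq_le_sq h1 (by positivity)
  -- the part of `w`
  set Z : E := avg fun j => M (uu ω j * uu ω j) (T (2 * (uu ω j : ℚ)) w) with hZdef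
  have hZz : ‖Z - z‖ ≤ 2 * η := by
    have h1 : ‖Z - avg fun j => M (uu ω j * uu ω j) w‖ ≤ η := by
      rw [hZdef, ← avg_sub]
      refine norm_avg_le fun j => ?_
      rw [← map_sub, LinearIsometry.norm_map]
      exact hw _
    have h2 : ‖(avg fun j => M (uu ω j * uu ω j) w) - z‖ ≤ η := by
      have h3 : (avg fun j => M (uu ω j * uu ω j) w) =
          avg fun l : Fin L => M ((two ^ (l : ℕ) * hp ω) * (two ^ (l : ℕ) * hp ω)) z := by
        have h4 : (fun j : ι × Fin L => M (uu ω j * uu ω j) w) =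
            fun j => M ((two ^ (j.2 : ℕ) * hp ω) * (two ^ (j.2 : ℕ) * hp ω)) (M (b j.1 * b j.1) w) := by
          funext j
          rw [← hM]
          congr 2
          show (b j.1 * two ^ (j.2 : ℕ)) * hp ω * ((b j.1 * two ^ (j.2 : ℕ)) * hp ω) = _
          rw [mul_comm (two ^ (j.2 : ℕ) * hp ω * (two ^ (j.2 : ℕ) * hp ω)), mul_assoc (b j.1),
            mul_mul_mul_comm]
        rw [h4, avg_prod (fun (i : ι) (l : Fin L) => M ((two ^ (l : ℕ) * hp ω) * (two ^ (l : ℕ) * hp ω)) (M (b i * b i) w)),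
          avg_comm]
        congr 1
        funext l
        rw [hzdef, ← LinearIsometry.coe_toLinearMap, map_avg]
      have h5 : (avg fun l : Fin L => M ((two ^ (l : ℕ) * hp ω) * (two ^ (l : ℕ) * hp ω)) z) - z =
          avg fun l : Fin L => (M ((two ^ (l : ℕ) * hp ω) * (two ^ (l : ℕ) * hp ω)) z - z) := by
        rw [avg_sub, avg_const]
      rw [h3, h5]
      exact norm_avg_le fun l => hz _
    calc ‖Z - z‖ = ‖(Z - avg fun j => M (uu ω j * uu ω j) w) + ((avg fun j => M (uu ω j * uu ω j) w) - z)‖ := by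
          rw [sub_add_sub_cancel]
      _ ≤ ‖Z - avg fun j => M (uu ω j * uu ω j) w‖ + ‖(avg fun j => M (uu ω j * uu ω j) w) - z‖ := norm_add_le _ _
      _ ≤ 2 * η := by linarith
  have hsum : avg (fun j => inner ℝ v (M (uu ω j * uu ω j) (T (2 * (uu ω j : ℚ)) v))) =
      inner ℝ v (avg (F ω)) + inner ℝ v Z := by
    rw [← inner_add_right, ← inner_avg_right, hZdef, ← avg_add]
    congr 2
    funext j
    show _ = M (uu ω j * uu ω j) (T (2 * (uu ω j : ℚ)) v') + M (uu ω j * uu ω j) (T (2 * (uu ω j : ℚ)) w)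
    rw [← map_add, ← map_add, hv'def, sub_add_cancel]
  have hfin : 0 < avg (fun j => inner ℝ v (M (uu ω j * uu ω j) (T (2 * (uu ω j : ℚ)) v))) := by
    rw [hsum]
    have h1 : -(δ ^ 2 / 5) ≤ inner ℝ v (avg (F ω)) := by
      have h2 := abs_real_inner_le_norm v (avg (F ω))
      have h3 : ‖v‖ * ‖avg (F ω)‖ ≤ 1 * (δ ^ 2 / 5) := mul_le_mul hv hV (norm_nonneg _) zero_le_one
      have h4 := neg_abs_le (inner ℝ v (avg (F ω)))
      linarith
    have h2 : inner ℝ v z - 2 * η ≤ inner ℝ v Z := by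
      have h3 : inner ℝ v Z = inner ℝ v z + inner ℝ v (Z - z) := by
        rw [inner_sub_right]
        ring
      have h4 := abs_real_inner_le_norm v (Z - z)
      have h5 : ‖v‖ * ‖Z - z‖ ≤ 1 * (2 * η) := mul_le_mul hv hZz (norm_nonneg _) zero_le_one
      have h6 := neg_abs_le (inner ℝ v (Z - z))
      linarith
    have h3 : δ ^ 4 ≤ δ ^ 2 := pow_le_pow_of_le_one hδ.le hδ1 (by norm_num)
    have h4 : 0 < δ ^ 2 := by positivity
    rw [hηdef] at *
    linarith
  obtain ⟨j, hj⟩ := exists_ge_avg (fun j => inner ℝ v (M (uu ω j * uu ω j) (T (2 * (uu ω j : ℚ)) v)))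
  refine ⟨uu ω j, ?_, lt_of_lt_of_le hfin hj⟩
  show H ≤ (bb j : ℚ) * h ω
  have h1 : H / (bb j : ℚ) ≤ h ω := (hA j).trans ((le_max_right 1 A).trans (hH ω))
  rw [div_le_iff₀ (bb j).2] at h1
  linarith

end Pool.Agent.Lib.MP_d91fe8_nt
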