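import Pool.Agent.Lib.MP_d91fe8_nt.Hil
import Pool.Agent.Lib.MP_d91fe8_nt.Fol

/-!
# MP_d91fe8_nt: the limit mean and the density theorem for rational numbers
-/

namespace Pool.Agent.Lib.MP_d91fe8_nt

open Filter Topology

/-- Bounded functions. -/
def Bdd (J : Type) : Submodule ℝ (J → ℚ → ℝ) where
  carrier := {f | ∃ B : ℝ, ∀ j x, |f j x| ≤ B}
  add_mem' := by
    rintro f g ⟨B, hB⟩ ⟨C, hC⟩
    exact ⟨B + C, fun j x => (abs_add_le _ _).trans (add_le_add (hB j x) (hC j x))⟩
  zero_mem' := ⟨0, fun j x => by simp⟩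
  smul_mem' := by
    rintro c f ⟨B, hB⟩
    refine ⟨|c| * B, fun j x => ?_⟩
    show |c * f j x| ≤ |c| * B
    rw [abs_mul]
    exact mul_le_mul_of_nonneg_left (hB j x) (abs_nonneg c)

variable {J : Type}

/-- The mean over `F j`. -/
noncomputable def am (F : J → Finset ℚ) (f : J → ℚ → ℝ) (j : J) : ℝ := ((F j).card : ℝ)⁻¹ * ∑ x ∈ F j, f j x

theorem am_add (F : J → Finset ℚ) (f g : J → ℚ → ℝ) (j : J) : am F (f + g) j = am F f j + am F g j := by
  unfold am
  rw [← mul_add, ← Finset.sum_add_distrib]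
  rfl

theorem am_smul (F : J → Finset ℚ) (c : ℝ) (f : J → ℚ → ℝ) (j : J) : am F (c • f) j = c * am F f j := by
  show ((F j).card : ℝ)⁻¹ * ∑ x ∈ F j, c * f j x = c * (((F j).card : ℝ)⁻¹ * ∑ x ∈ F j, f j x)
  rw [← Finset.mul_sum]
  ring

theorem abs_am_le (F : J → Finset ℚ) {f : J → ℚ → ℝ} {B : ℝ} (hB : ∀ j x, |f j x| ≤ B) (j : J) : |am F f j| ≤ |B| := by
  unfold am
  rw [abs_mul, abs_inv, Nat.abs_cast]
  have h1 : |∑ x ∈ F j, f j x| ≤ (F j).card * |B| := by
    refine (Finset.abs_sum_le_sum_abs _ _).trans ?_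
    refine (Finset.sum_le_sum fun x _ => (hB j x).trans (le_abs_self B)).trans ?_
    rw [Finset.sum_const, nsmul_eq_mul]
  rcases Nat.eq_zero_or_pos (F j).card with h | h
  · rw [h, Nat.cast_zero, inv_zero, zero_mul]
    exact abs_nonneg B
  · have h0 : (0 : ℝ) < (F j).card := by exact_mod_cast h
    calc ((F j).card : ℝ)⁻¹ * |∑ x ∈ F j, f j x| ≤ ((F j).card : ℝ)⁻¹ * ((F j).card * |B|) :=
          mul_le_mul_of_nonneg_left h1 (by positivity)
      _ = |B| := by
          field_simp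

theorem exists_lim (F : J → Finset ℚ) (U : Ultrafilter J) (f : Bdd J) : ∃ l : ℝ, Tendsto (am F f.1) U (𝓝 l) := by
  obtain ⟨B, hB⟩ := f.2
  have h1 : ∀ j, am F f.1 j ∈ Set.Icc (-|B|) |B| := fun j => abs_le.1 (abs_am_le F hB j)
  obtain ⟨l, -, hl⟩ := (isCompact_Icc (a := -|B|) (b := |B|)).ultrafilter_le_nhds (U.map (am F f.1)) (by
    rw [le_principal_iff]
    exact Filter.mem_map.2 (Filter.univ_mem' h1))
  exact ⟨l, hl⟩

/-- The limit of the means along an ultrafilter. -/
noncomputable def mean (F : J → Finset ℚ) (U : Ultrafilter J) (f : Bdd J) : ℝ := Classical.choose (exists_lim F U f)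

theorem tendsto_mean (F : J → Finset ℚ) (U : Ultrafilter J) (f : Bdd J) : Tendsto (am F f.1) U (𝓝 (mean F U f)) :=
  Classical.choose_spec (exists_lim F U f)

theorem mean_eq (F : J → Finset ℚ) (U : Ultrafilter J) (f : Bdd J) {l : ℝ} (h : Tendsto (am F f.1) U (𝓝 l)) :
    mean F U f = l := tendsto_nhds_unique (tendsto_mean F U f) h

theorem mean_add (F : J → Finset ℚ) (U : Ultrafilter J) (f g : Bdd J) : mean F U (f + g) = mean F U f + mean F U g :=
  mean_eq F U _ (((tendsto_mean F U f).add (tendsto_mean F U g)).congr fun j => (am_add F f.1 g.1 j).symm)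

theorem mean_smul (F : J → Finset ℚ) (U : Ultrafilter J) (c : ℝ) (f : Bdd J) : mean F U (c • f) = c * mean F U f :=
  mean_eq F U _ (((tendsto_mean F U f).const_mul c).congr fun j => (am_smul F c f.1 j).symm)

theorem mean_nonneg (F : J → Finset ℚ) (U : Ultrafilter J) (f : Bdd J) (h : ∀ j x, 0 ≤ f.1 j x) : 0 ≤ mean F U f := by
  refine ge_of_tendsto' (tendsto_mean F U f) fun j => ?_
  unfold am
  exact mul_nonneg (by positivity) (Finset.sum_nonneg fun x _ => h j x)

theorem le_mean (F : J → Finset ℚ) (U : Ultrafilter J) (f : Bdd J) {a : ℝ} (h : ∀ j, a ≤ am F f.1 j) : a ≤ mean F U f :=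
  ge_of_tendsto' (tendsto_mean F U f) h

theorem mean_le (F : J → Finset ℚ) (U : Ultrafilter J) (f : Bdd J) {a : ℝ} (h : ∀ j, am F f.1 j ≤ a) : mean F U f ≤ a :=
  le_of_tendsto' (tendsto_mean F U f) h

/-- The product. -/
def mulB (f g : Bdd J) : Bdd J := ⟨fun j x => f.1 j x * g.1 j x, by
  obtain ⟨B, hB⟩ := f.2
  obtain ⟨C, hC⟩ := g.2
  refine ⟨|B| * |C|, fun j x => ?_⟩
  rw [abs_mul]
  exact mul_le_mul ((hB j x).trans (le_abs_self B)) ((hC j x).trans (le_abs_self C)) (abs_nonneg _) (abs_nonneg _)⟩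

/-- The semi-inner product. -/
@[reducible]
noncomputable def core (F : J → Finset ℚ) (U : Ultrafilter J) : PreInnerProductSpace.Core ℝ (Bdd J) where
  inner f g := mean F U (mulB f g)
  conj_inner_symm f g := by
    show (starRingEnd ℝ) (mean F U (mulB g f)) = mean F U (mulB f g)
    rw [conj_trivial]
    congr 1
    apply Subtype.ext
    funext j x
    exact mul_comm _ _
  re_inner_nonneg f := mean_nonneg F U _ fun j x => mul_self_nonneg _
  add_left f g h := by
    show mean F U (mulB (f + g) h) = mean F U (mulB f h) + mean F U (mulB g h)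
    rw [← mean_add]
    congr 1
    apply Subtype.ext
    funext j x
    exact add_mul _ _ _
  smul_left f g r := by
    show mean F U (mulB (r • f) g) = (starRingEnd ℝ) r * mean F U (mulB f g)
    rw [conj_trivial, ← mean_smul]
    congr 1
    apply Subtype.ext
    funext j x
    exact mul_assoc _ _ _

/-- The composition with a map. -/
def comp (φ : ℚ → ℚ) : Bdd J →ₗ[ℝ] Bdd J where
  toFun f := ⟨fun j x => f.1 j (φ x), by
    obtain ⟨B, hB⟩ := f.2
    exact ⟨B, fun j x => hB j _⟩⟩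
  map_add' f g := rfl
  map_smul' c f := rfl

open Classical in
theorem sum_diff_le (F : Finset ℚ) {φ : ℚ → ℚ} (hφ : Function.Injective φ) {f : ℚ → ℝ} {B : ℝ} (hB : ∀ x, |f x| ≤ B) :
    |∑ x ∈ F, f (φ x) - ∑ x ∈ F, f x| ≤ 2 * B * ((F.image φ) \ F).card := by
  have h1 : ∑ x ∈ F, f (φ x) = ∑ y ∈ F.image φ, f y := (Finset.sum_image fun x _ y _ h => hφ h).symm
  have h2 : (F \ F.image φ).card = ((F.image φ) \ F).card :=
    (Finset.card_sdiff_comm (Finset.card_image_of_injective F hφ)).symm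
  have h3 : ∀ G : Finset ℚ, |∑ x ∈ G, f x| ≤ G.card * B := by
    intro G
    refine (Finset.abs_sum_le_sum_abs _ _).trans ?_
    refine (Finset.sum_le_sum fun x _ => hB x).trans ?_
    rw [Finset.sum_const, nsmul_eq_mul]
  rw [h1, ← Finset.sum_sdiff_sub_sum_sdiff]
  have h4 := h3 (F.image φ \ F)
  have h5 := h3 (F \ F.image φ)
  rw [h2] at h5
  calc |∑ x ∈ F.image φ \ F, f x - ∑ x ∈ F \ F.image φ, f x| ≤ |∑ x ∈ F.image φ \ F, f x| + |∑ x ∈ F \ F.image φ, f x| :=
        abs_sub _ _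
    _ ≤ ((F.image φ \ F).card : ℝ) * B + ((F.image φ \ F).card : ℝ) * B := add_le_add h4 h5
    _ = 2 * B * ((F.image φ) \ F).card := by ring

open Classical in
theorem mean_comp (F : J → Finset ℚ) (hF : ∀ j, (F j).Nonempty) (U : Ultrafilter J) {φ : ℚ → ℚ}
    (hφ : Function.Injective φ)
    (h : ∀ ε : ℝ, 0 < ε → ∀ᶠ j in (U : Filter J), ((((F j).image φ) \ F j).card : ℝ) ≤ ε * (F j).card) (f : Bdd J) :
    mean F U (comp φ f) = mean F U f := by
  obtain ⟨B, hB⟩ := f.2
  obtain ⟨j₀⟩ : Nonempty J := Filter.nonempty_of_neBot (U : Filter J)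
  have hB0 : 0 ≤ B := (abs_nonneg _).trans (hB j₀ 0)
  have h1 : Tendsto (fun j => am F (comp φ f).1 j - am F f.1 j) U (𝓝 0) := by
    rw [Metric.tendsto_nhds]
    intro e he
    filter_upwards [h (e / (2 * B + 1) / 2) (by positivity)] with j hj
    rw [Real.dist_eq, sub_zero]
    have h2 : am F (comp φ f).1 j - am F f.1 j = ((F j).card : ℝ)⁻¹ * (∑ x ∈ F j, f.1 j (φ x) - ∑ x ∈ F j, f.1 j x) := by
      unfold am
      rw [mul_sub]
      rfl
    have h3 := sum_diff_le (F j) hφ (hB j)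
    have h0 : (0 : ℝ) < (F j).card := by exact_mod_cast Finset.card_pos.2 (hF j)
    rw [h2, abs_mul, abs_inv, Nat.abs_cast]
    calc ((F j).card : ℝ)⁻¹ * |∑ x ∈ F j, f.1 j (φ x) - ∑ x ∈ F j, f.1 j x|
        ≤ ((F j).card : ℝ)⁻¹ * (2 * B * (e / (2 * B + 1) / 2 * (F j).card)) := by
          apply mul_le_mul_of_nonneg_left _ (by positivity)
          exact h3.trans (mul_le_mul_of_nonneg_left hj (by positivity))
      _ = 2 * B * (e / (2 * B + 1) / 2) := by
          field_simp
      _ ≤ (2 * B + 1) * (e / (2 * B + 1) / 2) := by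
          apply mul_le_mul_of_nonneg_right _ (by positivity)
          linarith
      _ = e / 2 := by
          field_simp
      _ < e := by linarith
  have h4 := (tendsto_mean F U (comp φ f)).sub (tendsto_mean F U f)
  have h5 := tendsto_nhds_unique h1 h4
  linarith

/-- The density theorem: for every `δ > 0` there is a finite set `V` of positive rational numbers such
that every subset with at least `δ |V|` elements has distinct elements `a`, `b` with `a b + 1` a square. -/
theorem density {δ : ℝ} (hδ : 0 < δ) : ∃ V : Finset ℚ, V.Nonempty ∧ (∀ x ∈ V, 0 < x) ∧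
    ∀ A ⊆ V, (∀ a ∈ A, ∀ b ∈ A, a ≠ b → ¬ IsSquare (a * b + 1)) → (A.card : ℝ) < δ * V.card := by
  classical
  by_contra hno
  push Not at hno
  -- the index set and the sets
  let J : Type := Finset ℚ × Finset ℚ × ℕ
  have hF : ∀ j : J, ∃ F : Finset ℚ, F.Nonempty ∧ (∀ x ∈ F, 0 < x) ∧
      (∀ c ∈ j.1, (((F.image fun x => x + c) \ F).card : ℝ) ≤ (1 / ((j.2.2 : ℝ) + 1)) * F.card) ∧
      ∀ l ∈ j.2.1.filter (fun l => 0 < l), (((F.image fun x => l * x) \ F).card : ℝ) ≤ (1 / ((j.2.2 : ℝ) + 1)) * F.card :=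
    fun j => exists_folner j.1 (j.2.1.filter fun l => 0 < l) (fun l hl => (Finset.mem_filter.1 hl).2) (by positivity)
  choose F hFne hFpos hFT hFM using hF
  have hA : ∀ j : J, ∃ A ⊆ F j, (∀ a ∈ A, ∀ b ∈ A, a ≠ b → ¬ IsSquare (a * b + 1)) ∧ δ * (F j).card ≤ A.card :=
    fun j => hno (F j) (hFne j) (hFpos j)
  choose A hAF hAind hAcard using hA
  let U : Ultrafilter J := Ultrafilter.of atTop
  have hU : (U : Filter J) ≤ atTop := Ultrafilter.of_le atTop
  have hεJ : ∀ ε : ℝ, 0 < ε → ∀ᶠ j in (U : Filter J), 1 / ((j.2.2 : ℝ) + 1) ≤ ε := by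
    intro ε hε
    obtain ⟨n, hn⟩ := exists_nat_gt (1 / ε)
    refine hU ((eventually_ge_atTop ((∅, ∅, n) : J)).mono fun j hj => ?_)
    have h1 : n ≤ j.2.2 := hj.2.2
    have h2 : (n : ℝ) ≤ j.2.2 := by exact_mod_cast h1
    rw [div_le_iff₀ (by positivity)]
    rw [div_lt_iff₀ hε] at hn
    nlinarith
  let c : PreInnerProductSpace.Core ℝ (Bdd J) := core F U
  let : SeminormedAddCommGroup (Bdd J) := InnerProductSpace.Core.toSeminormedAddCommGroup (𝕜 := ℝ)
  let : InnerProductSpace ℝ (Bdd J) := InnerProductSpace.ofCore c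
  have hinner : ∀ f g : Bdd J, inner ℝ f g = mean F U (mulB f g) := fun f g => rfl
  have hT0 : ∀ (c : ℚ) (f : Bdd J), mean F U (comp (fun x => x + c) f) = mean F U f := by
    intro c f
    refine mean_comp F hFne U (add_left_injective c) (fun ε hε => ?_) f
    filter_upwards [hεJ ε hε, hU (eventually_ge_atTop (({c}, ∅, 0) : J))] with j hj hj'
    have h1 : c ∈ j.1 := hj'.1 (Finset.mem_singleton_self c)
    exact (hFT j c h1).trans (mul_le_mul_of_nonneg_right hj (by positivity))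
  have hM0 : ∀ (u : P) (f : Bdd J), mean F U (comp (fun x => (u : ℚ) * x) f) = mean F U f := by
    intro u f
    refine mean_comp F hFne U (mul_right_injective₀ u.2.ne') (fun ε hε => ?_) f
    filter_upwards [hεJ ε hε, hU (eventually_ge_atTop ((∅, {(u : ℚ)}, 0) : J))] with j hj hj'
    have h1 : (u : ℚ) ∈ j.2.1 := hj'.2.1 (Finset.mem_singleton_self _)
    exact (hFM j u (Finset.mem_filter.2 ⟨h1, u.2⟩)).trans (mul_le_mul_of_nonneg_right hj (by positivity))
  let T : ℚ → (Bdd J →ₗᵢ[ℝ] Bdd J) := fun c => (comp fun x => x + c).isometryOfInner fun f g => by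
    rw [hinner, hinner, ← hT0 c (mulB f g)]
    rfl
  let M : P → (Bdd J →ₗᵢ[ℝ] Bdd J) := fun u => (comp fun x => (u : ℚ) * x).isometryOfInner fun f g => by
    rw [hinner, hinner, ← hM0 u (mulB f g)]
    rfl
  let one : Bdd J := ⟨fun _ _ => 1, 1, fun j x => by simp⟩
  let v : Bdd J := ⟨fun j x => if x ∈ A j then 1 else 0, 1, fun j x => by
    show |if x ∈ A j then (1 : ℝ) else 0| ≤ 1
    split_ifs <;> simp⟩
  have hTv : ∀ c (f : Bdd J), (T c f).1 = fun j x => f.1 j (x + c) := fun c f => rfl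
  have hMv : ∀ u (f : Bdd J), (M u f).1 = fun j x => f.1 j ((u : ℚ) * x) := fun u f => rfl
  have hone1 : ∀ j, am F one.1 j = 1 := by
    intro j
    show ((F j).card : ℝ)⁻¹ * ∑ x ∈ F j, (1 : ℝ) = 1
    have h0 : ((F j).card : ℝ) ≠ 0 := by exact_mod_cast (Finset.card_pos.2 (hFne j)).ne'
    rw [Finset.sum_const, nsmul_eq_mul, mul_one, inv_mul_cancel₀ h0]
  have hsum : ∀ j, am F v.1 j = (A j).card / (F j).card := by
    intro j
    show ((F j).card : ℝ)⁻¹ * ∑ x ∈ F j, (if x ∈ A j then (1 : ℝ) else 0) = _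
    rw [Finset.sum_boole, Finset.filter_mem_eq_inter, Finset.inter_eq_right.2 (hAF j), div_eq_inv_mul]
  have hcardF : ∀ j, (0 : ℝ) < (F j).card := fun j => by exact_mod_cast Finset.card_pos.2 (hFne j)
  have hnorm : ∀ f : Bdd J, mean F U (mulB f f) ≤ 1 → ‖f‖ ≤ 1 := by
    intro f hf
    have h1 : ‖f‖ ^ 2 ≤ 1 ^ 2 := by
      rw [← real_inner_self_eq_norm_sq, hinner, one_pow]
      exact hf
    exact le_of_sq_le_sq h1 zero_le_one
  obtain ⟨u, hu, hpos⟩ := main_ineq T M
    (fun a b f => by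
      apply Subtype.ext
      funext j x
      show f.1 j (x + (a + b)) = f.1 j (x + a + b)
      rw [add_assoc])
    (fun a b f => by
      apply Subtype.ext
      funext j x
      show f.1 j ((a : ℚ) * (b : ℚ) * x) = f.1 j ((b : ℚ) * ((a : ℚ) * x))
      have h1 : (a : ℚ) * (b : ℚ) * x = (b : ℚ) * ((a : ℚ) * x) := by ring
      rw [h1])
    (fun f => by
      apply Subtype.ext
      funext j x
      show f.1 j (1 * x) = f.1 j x
      rw [one_mul])
    (fun c u f => by
      apply Subtype.ext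
      funext j x
      show f.1 j ((u : ℚ) * (x + c)) = f.1 j ((u : ℚ) * x + (u : ℚ) * c)
      rw [mul_add])
    one v (fun c => rfl) (fun u => rfl)
    (hnorm one (mean_le F U _ fun j => by
      have h1 : (mulB one one).1 = one.1 := by
        funext j x
        exact mul_one _
      rw [h1, hone1]))
    (hnorm v (mean_le F U _ fun j => by
      have h1 : (mulB v v).1 = v.1 := by
        funext j x
        show (if x ∈ A j then (1 : ℝ) else 0) * (if x ∈ A j then (1 : ℝ) else 0) = if x ∈ A j then (1 : ℝ) else 0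
        split_ifs <;> simp
      rw [h1, hsum, div_le_one (hcardF j)]
      exact_mod_cast Finset.card_le_card (hAF j)))
    hδ (by
      rw [hinner]
      refine le_mean F U _ fun j => ?_
      have h1 : (mulB v one).1 = v.1 := by
        funext j x
        exact mul_one _
      rw [h1, hsum, le_div_iff₀ (hcardF j)]
      exact hAcard j) 2
  rw [hinner] at hpos
  have hzero : mean F U (mulB v (M (u * u) (T (2 * (u : ℚ)) v))) ≤ 0 := by
    refine mean_le F U _ fun j => le_of_eq ?_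
    show ((F j).card : ℝ)⁻¹ * ∑ x ∈ F j, (if x ∈ A j then (1 : ℝ) else 0) *
      (if ((u : ℚ) * (u : ℚ)) * x + 2 * (u : ℚ) ∈ A j then (1 : ℝ) else 0) = 0
    rw [Finset.sum_eq_zero, mul_zero]
    intro x hx
    have hx0 := hFpos j x hx
    by_cases h1 : x ∈ A j
    · by_cases h2 : ((u : ℚ) * (u : ℚ)) * x + 2 * (u : ℚ) ∈ A j
      · exfalso
        refine hAind j x h1 _ h2 ?_ ⟨(u : ℚ) * x + 1, by ring⟩
        intro he
        have h3 : x ≤ ((u : ℚ) * (u : ℚ)) * x := by
          have h4 : (1 : ℚ) ≤ (u : ℚ) * (u : ℚ) := by nlinarith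
          nlinarith
        have h5 := u.2
        linarith
      · rw [if_neg h2, mul_zero]
    · rw [if_neg h1, zero_mul]
  linarith

end Pool.Agent.Lib.MP_d91fe8_nt
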