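import Mathlib

/-!
# MP_d91fe8_nt: piecewise syndetic sets of rational numbers

Thick and piecewise syndetic subsets of the additive group of the rational numbers: partition
regularity, dilations, and van der Waerden's theorem (from the Hales–Jewett theorem).
-/

namespace Pool.Agent.Lib.MP_d91fe8_nt

/-- A set of rational numbers is thick if it contains a translate of every finite set. -/
def Thick (A : Set ℚ) : Prop := ∀ S : Finset ℚ, ∃ t : ℚ, ∀ s ∈ S, s + t ∈ A

/-- A set of rational numbers is piecewise syndetic if finitely many of its translates cover a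
thick set. -/
def PS (A : Set ℚ) : Prop := ∃ F : Finset ℚ, Thick {x | ∃ f ∈ F, x + f ∈ A}

theorem Thick.mono {A B : Set ℚ} (h : Thick A) (hAB : A ⊆ B) : Thick B := by
  intro S
  obtain ⟨t, ht⟩ := h S
  exact ⟨t, fun s hs => hAB (ht s hs)⟩

theorem PS.mono {A B : Set ℚ} (h : PS A) (hAB : A ⊆ B) : PS B := by
  obtain ⟨F, hF⟩ := h
  refine ⟨F, hF.mono ?_⟩
  rintro x ⟨f, hf, hx⟩
  exact ⟨f, hf, hAB hx⟩

theorem PS.nonempty {A : Set ℚ} (h : PS A) : A.Nonempty := by
  obtain ⟨F, hF⟩ := h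
  obtain ⟨t, ht⟩ := hF {0}
  obtain ⟨f, -, hx⟩ := ht 0 (Finset.mem_singleton_self 0)
  exact ⟨_, hx⟩

theorem Thick.ps {A : Set ℚ} (h : Thick A) : PS A := by
  refine ⟨{0}, h.mono fun x hx => ⟨0, Finset.mem_singleton_self 0, ?_⟩⟩
  rwa [add_zero]

open Classical in
theorem PS.of_translates {A : Set ℚ} {F : Finset ℚ} (h : PS {x | ∃ f ∈ F, x + f ∈ A}) : PS A := by
  obtain ⟨G, hG⟩ := h
  refine ⟨Finset.image₂ (fun a b => a + b) G F, hG.mono ?_⟩
  rintro x ⟨g, hg, f, hf, hx⟩
  refine ⟨g + f, Finset.mem_image₂_of_mem hg hf, ?_⟩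
  rwa [← add_assoc]

open Classical in
theorem Thick.split {A B : Set ℚ} (h : Thick (A ∪ B)) : PS A ∨ Thick B := by
  by_cases hB : Thick B
  · exact Or.inr hB
  · left
    unfold Thick at hB
    push Not at hB
    obtain ⟨S, hS⟩ := hB
    refine ⟨S, ?_⟩
    intro S'
    obtain ⟨t, ht⟩ := h (Finset.image₂ (fun a b => a + b) S' S)
    refine ⟨t, fun s' hs' => ?_⟩
    obtain ⟨s, hs, hn⟩ := hS (s' + t)
    have h1 := ht (s' + s) (Finset.mem_image₂_of_mem hs' hs)
    have h2 : s' + s + t = s + (s' + t) := by ring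
    rw [h2] at h1
    rcases h1 with h1 | h1
    · refine ⟨s, hs, ?_⟩
      rw [add_comm]
      exact h1
    · exact absurd h1 hn

theorem PS.union {A B : Set ℚ} (h : PS (A ∪ B)) : PS A ∨ PS B := by
  obtain ⟨F, hF⟩ := h
  have h1 : Thick ({x | ∃ f ∈ F, x + f ∈ A} ∪ {x | ∃ f ∈ F, x + f ∈ B}) := by
    refine hF.mono ?_
    rintro x ⟨f, hf, hx | hx⟩
    · exact Or.inl ⟨f, hf, hx⟩
    · exact Or.inr ⟨f, hf, hx⟩
  rcases h1.split with h2 | h2
  · exact Or.inl (PS.of_translates h2)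
  · exact Or.inr ⟨F, h2⟩

/-- Partition regularity. -/
theorem PS.exists {ι : Type*} (s : Finset ι) (C : ι → Set ℚ) : ∀ A : Set ℚ, PS A →
    (∀ x ∈ A, ∃ i ∈ s, x ∈ C i) → ∃ i ∈ s, PS {x | x ∈ A ∧ x ∈ C i} := by
  classical
  induction s using Finset.induction_on with
  | empty =>
    intro A hA h
    obtain ⟨x, hx⟩ := hA.nonempty
    obtain ⟨i, hi, -⟩ := h x hx
    exact absurd hi (Finset.notMem_empty i)
  | insert a s ha ih =>
    intro A hA h
    have h1 : PS ({x | x ∈ A ∧ x ∈ C a} ∪ {x | x ∈ A ∧ ∃ i ∈ s, x ∈ C i}) := by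
      refine hA.mono fun x hx => ?_
      obtain ⟨i, hi, hxi⟩ := h x hx
      rcases Finset.mem_insert.1 hi with rfl | hi
      · exact Or.inl ⟨hx, hxi⟩
      · exact Or.inr ⟨hx, i, hi, hxi⟩
    rcases h1.union with h2 | h2
    · exact ⟨a, Finset.mem_insert_self a s, h2⟩
    · obtain ⟨i, hi, h3⟩ := ih _ h2 (fun x hx => hx.2)
      exact ⟨i, Finset.mem_insert_of_mem hi, h3.mono fun x hx => ⟨hx.1.1, hx.2⟩⟩

open Classical in
theorem PS.dilate {A : Set ℚ} (h : PS A) {q : ℚ} (hq : q ≠ 0) : PS {x | q * x ∈ A} := by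
  obtain ⟨F, hF⟩ := h
  refine ⟨F.image (fun f => f / q), ?_⟩
  intro S
  obtain ⟨t, ht⟩ := hF (S.image (fun s => q * s))
  refine ⟨t / q, fun s hs => ?_⟩
  obtain ⟨f, hf, hx⟩ := ht (q * s) (Finset.mem_image_of_mem _ hs)
  refine ⟨f / q, Finset.mem_image_of_mem _ hf, ?_⟩
  have h2 : q * (s + t / q + f / q) = q * s + t + f := by
    field_simp
  show q * (s + t / q + f / q) ∈ A
  rw [h2]
  exact hx

/-- The sum of the coordinates of the points of a combinatorial line. -/
theorem line_sum {G : Finset ℚ} {ι : Type*} [Fintype ι] (l : Combinatorics.Line G ι) (x y : G) :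
    ∑ i, ((l x i : G) : ℚ) = (Finset.card {i | l.idxFun i = none} : ℕ) * ((x : ℚ) - y) + ∑ i, ((l y i : G) : ℚ) := by
  classical
  have h1 : ∀ i, ((l x i : G) : ℚ) = (if l.idxFun i = none then ((x : ℚ) - y) else 0) + ((l y i : G) : ℚ) := by
    intro i
    split_ifs with h
    · rw [l.apply_none _ _ h, l.apply_none _ _ h]
      ring
    · obtain ⟨a, ha⟩ := Option.ne_none_iff_exists'.1 h
      rw [l.apply_some ha, l.apply_some ha]
      ring
  rw [Finset.sum_congr rfl fun i _ => h1 i, Finset.sum_add_distrib]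
  congr 1
  rw [← Finset.sum_filter, Finset.sum_const, nsmul_eq_mul]

open Classical in
/-- Van der Waerden's theorem for piecewise syndetic sets. -/
theorem PS.vdw {B : Set ℚ} (h : PS B) (G : Finset ℚ) :
    ∃ d : ℕ, 0 < d ∧ PS {x | x ∈ B ∧ ∀ g ∈ G, x + d * g ∈ B} := by
  obtain ⟨F, hF⟩ := h
  obtain ⟨ι, _, hι⟩ := Combinatorics.Line.exists_mono_in_high_dimension (↥(insert 0 G : Finset ℚ)) (↥F)
  -- the finite set of the translations
  let H : Finset ℚ := Finset.image₂ (fun a b => a + b)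
    ((Finset.univ : Finset (ι → ↥(insert 0 G : Finset ℚ))).image (fun v => ∑ i, (v i : ℚ))) F
  have key : PS {x | ∃ d ∈ Finset.Icc 1 (Fintype.card ι), x ∈ B ∧ ∀ g ∈ G, x + (d : ℕ) * g ∈ B} := by
    refine ⟨H, ?_⟩
    intro S
    obtain ⟨t, ht⟩ := hF (Finset.image₂ (fun a b => a + b) S
      ((Finset.univ : Finset (ι → ↥(insert 0 G : Finset ℚ))).image (fun v => ∑ i, (v i : ℚ))))
    refine ⟨t, fun s hs => ?_⟩
    have h1 : ∀ v : ι → ↥(insert 0 G : Finset ℚ), ∃ f : ↥F, s + ∑ i, (v i : ℚ) + t + f ∈ B := by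
      intro v
      obtain ⟨f, hf, hx⟩ := ht (s + ∑ i, (v i : ℚ))
        (Finset.mem_image₂_of_mem hs (Finset.mem_image_of_mem _ (Finset.mem_univ v)))
      exact ⟨⟨f, hf⟩, hx⟩
    choose C hC using h1
    obtain ⟨l, c, hl⟩ := hι C
    let z : ↥(insert 0 G : Finset ℚ) := ⟨0, Finset.mem_insert_self 0 G⟩
    refine ⟨∑ i, (l z i : ℚ) + c, Finset.mem_image₂_of_mem (Finset.mem_image_of_mem _ (Finset.mem_univ _)) c.2, ?_⟩
    have h2 : ∀ x : ↥(insert 0 G : Finset ℚ),
        s + t + (∑ i, (l z i : ℚ) + c) + (Finset.card {i | l.idxFun i = none} : ℕ) * (x : ℚ) ∈ B := by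
      intro x
      have h3 := hC (l x)
      rw [hl x, line_sum l x z] at h3
      have h4 : s + ((Finset.card {i | l.idxFun i = none} : ℕ) * ((x : ℚ) - (z : ℚ)) + ∑ i, (l z i : ℚ)) + t + (c : ℚ) =
          s + t + (∑ i, (l z i : ℚ) + c) + (Finset.card {i | l.idxFun i = none} : ℕ) * (x : ℚ) := by
        have h5 : (z : ℚ) = 0 := rfl
        rw [h5]
        ring
      rw [← h4]
      exact h3
    refine ⟨Finset.card {i | l.idxFun i = none}, ?_, ?_, ?_⟩
    · rw [Finset.mem_Icc]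
      constructor
      · obtain ⟨i, hi⟩ := l.proper
        exact Finset.card_pos.2 ⟨i, Finset.mem_filter.2 ⟨Finset.mem_univ i, hi⟩⟩
      · exact Finset.card_le_univ _
    · have h6 := h2 z
      have h5 : (z : ℚ) = 0 := rfl
      rw [h5, mul_zero, add_zero] at h6
      exact h6
    · intro g hg
      exact h2 ⟨g, Finset.mem_insert_of_mem hg⟩
  obtain ⟨d, hd, hd'⟩ := PS.exists (Finset.Icc 1 (Fintype.card ι))
    (fun d => {x : ℚ | x ∈ B ∧ ∀ g ∈ G, x + (d : ℕ) * g ∈ B}) _ key (fun x hx => hx)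
  refine ⟨d, (Finset.mem_Icc.1 hd).1, hd'.mono fun x hx => hx.2⟩

/-- The positive rational numbers are thick. -/
theorem thick_pos : Thick {x : ℚ | 0 < x} := by
  classical
  intro S
  obtain ⟨M, hM⟩ := (S.image (fun s => 1 - s)).exists_le
  refine ⟨M, fun s hs => ?_⟩
  have h1 := hM (1 - s) (Finset.mem_image_of_mem _ hs)
  show 0 < s + M
  linarith

/-- Colour focusing: in every finite colouring of the positive rational numbers there are `b` and a
positive integer `m` such that `b` and `m ^ 2 * b + 2 * m` have the same colour. -/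
theorem exists_pair (k : ℕ) (c : ℚ → Fin k) :
    ∃ b : ℚ, 0 < b ∧ ∃ m : ℕ, 0 < m ∧ c b = c ((m : ℚ) ^ 2 * b + 2 * m) := by
  classical
  by_contra hno
  push Not at hno
  have claim : ∀ n : ℕ, ∃ I : Finset (Fin k), I.card = n ∧ ∃ B : Set ℚ, PS B ∧ (∀ x ∈ B, 0 < x) ∧
      ∃ P : Fin k → ℕ, ∀ i ∈ I, 0 < P i ∧ ∀ y ∈ B, c ((P i : ℚ) ^ 2 * y) = i := by
    intro n
    induction n with
    | zero => exact ⟨∅, rfl, {x | 0 < x}, thick_pos.ps, fun x hx => hx, fun _ => 1, fun i hi => absurd hi (Finset.notMem_empty i)⟩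
    | succ n ih =>
      obtain ⟨I, hI, B, hB, hpos, P, hP⟩ := ih
      obtain ⟨d, hd, hE⟩ := hB.vdw (I.image (fun i => 2 / (P i : ℚ)))
      have hd0 : (0 : ℚ) < (d : ℚ) ^ 2 := by positivity
      have hE' := hE.dilate hd0.ne'
      obtain ⟨i', -, hB'⟩ := PS.exists Finset.univ (fun i => {x : ℚ | c x = i}) _ hE'
        (fun x _ => ⟨c x, Finset.mem_univ _, rfl⟩)
      have hi' : i' ∉ I := by
        intro hi
        obtain ⟨b, ⟨⟨hb1, hb2⟩, hb3⟩⟩ := hB'.nonempty
        have hb3 : c b = i' := hb3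
        have hb : 0 < b := by
          have := hpos _ hb1
          exact (mul_pos_iff_of_pos_left hd0).1 this
        obtain ⟨hPi, hPy⟩ := hP i' hi
        have h1 := hPy _ (hb2 (2 / (P i' : ℚ)) (Finset.mem_image_of_mem _ hi))
        have hP0 : (P i' : ℚ) ≠ 0 := by positivity
        have h2 : (P i' : ℚ) ^ 2 * ((d : ℚ) ^ 2 * b + d * (2 / (P i' : ℚ))) =
            ((P i' * d : ℕ) : ℚ) ^ 2 * b + 2 * ((P i' * d : ℕ) : ℚ) := by
          push_cast
          field_simp
        rw [h2] at h1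
        exact hno b hb (P i' * d) (Nat.mul_pos hPi hd) (by rw [h1, hb3])
      refine ⟨insert i' I, by rw [Finset.card_insert_of_notMem hi', hI], _, hB', ?_, fun i => if i = i' then 1 else P i * d, ?_⟩
      · rintro x ⟨⟨hx1, -⟩, -⟩
        have := hpos _ hx1
        exact (mul_pos_iff_of_pos_left hd0).1 this
      · intro i hi
        by_cases hii : i = i'
        · subst hii
          simp only [if_true]
          refine ⟨one_pos, ?_⟩
          rintro y ⟨-, hy⟩
          have hy : c y = i := hy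
          rw [Nat.cast_one, one_pow, one_mul, hy]
        · have hi2 : i ∈ I := Finset.mem_of_mem_insert_of_ne hi hii
          simp only [if_neg hii]
          refine ⟨Nat.mul_pos (hP i hi2).1 hd, ?_⟩
          rintro y ⟨⟨hy, -⟩, -⟩
          have h3 := (hP i hi2).2 _ hy
          have h4 : ((P i * d : ℕ) : ℚ) ^ 2 * y = (P i : ℚ) ^ 2 * ((d : ℚ) ^ 2 * y) := by
            push_cast
            ring
          rw [h4]
          exact h3
  obtain ⟨I, hI, -⟩ := claim (k + 1)
  have := Finset.card_le_univ I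
  rw [hI, Fintype.card_fin] at this
  omega

end Pool.Agent.Lib.MP_d91fe8_nt
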