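import Pool.Agent.Lib.MP_d91fe8_nt.Windows

/-!
# MP_d91fe8_nt: short edges

Colourings of the short edges of Diophantine graphs; an edge `a < b` is short if `√b - √a + 1 ≤ K`
for some natural number `K` with `2 ^ (2 ^ (20 K ^ 10)) ≤ a`. Written by helpers 76, 57, 85, 39, 12.
-/

namespace Pool.Agent.Lib.MP_d91fe8_nt.Short

open Pool.Agent.Lib.MP_d91fe8_nt.Windows

/-- `k` colours suffice -/
def Good (k : ℕ) (S : Finset ℕ) : Prop :=
  ∃ f : ℕ → Fin k, ∀ a ∈ S, ∀ b ∈ S, a ≠ b → IsSquare (a * b + 1) → f a ≠ f b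

theorem turnG_step (L s c v w y y' : ℕ) (hs : 1 ≤ s) (hsL : s ≤ L) (hvw : v < w)
    (h1 : s * v + c = y ^ 2) (h2 : s * w + c = y' ^ 2)
    (h : √(w : ℝ) - √(v : ℝ) ≤ L) : (y : ℤ) < y' ∧ (y' : ℤ) - y ≤ L * L := by
  have hlt : y < y' := by
    have h3 : y ^ 2 < y' ^ 2 := by
      rw [← h1, ← h2]
      have : s * v < s * w := Nat.mul_lt_mul_of_pos_left hvw (by omega)
      omega
    exact lt_of_pow_lt_pow_left₀ 2 (Nat.zero_le _) h3
  refine ⟨by exact_mod_cast hlt, ?_⟩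
  have hs' : (1 : ℝ) ≤ s := by exact_mod_cast hs
  have hsL' : (s : ℝ) ≤ L := by exact_mod_cast hsL
  have hv0 : (0 : ℝ) ≤ v := Nat.cast_nonneg v
  have hc0 : (0 : ℝ) ≤ c := Nat.cast_nonneg c
  have hw0 : (0 : ℝ) < w := by exact_mod_cast (lt_of_le_of_lt (Nat.zero_le v) hvw)
  have e1 : (s : ℝ) * v + c = (y : ℝ) ^ 2 := by exact_mod_cast h1
  have e2 : (s : ℝ) * w + c = (y' : ℝ) ^ 2 := by exact_mod_cast h2
  have sv : √(v : ℝ) ^ 2 = v := Real.sq_sqrt hv0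
  have sw : √(w : ℝ) ^ 2 = w := Real.sq_sqrt hw0.le
  have hy : √(v : ℝ) ≤ y := by
    apply Real.sqrt_le_iff.mpr
    refine ⟨Nat.cast_nonneg y, ?_⟩
    nlinarith
  have hy' : √(w : ℝ) ≤ y' := by
    apply Real.sqrt_le_iff.mpr
    refine ⟨Nat.cast_nonneg y', ?_⟩
    nlinarith
  have swp : 0 < √(w : ℝ) := Real.sqrt_pos.mpr hw0
  have svp : 0 ≤ √(v : ℝ) := Real.sqrt_nonneg _
  have hd : (0 : ℝ) ≤ (y' : ℝ) - y := by
    have : (y : ℝ) ≤ y' := by exact_mod_cast hlt.le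
    linarith
  set a := √(v : ℝ) with ha
  set b := √(w : ℝ) with hb
  have hL0 : (0 : ℝ) ≤ L := Nat.cast_nonneg L
  have key : ((y' : ℝ) - y) * (a + b) ≤ (L * L) * (a + b) := by
    have k1 : ((y' : ℝ) - y) * (a + b) ≤ ((y' : ℝ) - y) * (y + y') :=
      mul_le_mul_of_nonneg_left (by linarith) hd
    have k2 : ((y' : ℝ) - y) * (y + y') = s * ((b - a) * (a + b)) := by
      have : ((y' : ℝ) - y) * (y + y') = (y' : ℝ) ^ 2 - (y : ℝ) ^ 2 := by ring
      rw [this, ← e1, ← e2, ← sv, ← sw]; ring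
    have k3 : (b - a) * (a + b) ≤ L * (a + b) := mul_le_mul_of_nonneg_right h (by linarith)
    have k4 : (s : ℝ) * ((b - a) * (a + b)) ≤ L * (L * (a + b)) := by
      have : (s : ℝ) * ((b - a) * (a + b)) ≤ s * (L * (a + b)) :=
        mul_le_mul_of_nonneg_left k3 (by linarith)
      have h5 : (s : ℝ) * (L * (a + b)) ≤ L * (L * (a + b)) :=
        mul_le_mul_of_nonneg_right hsL' (mul_nonneg hL0 (by linarith))
      linarith
    rw [k2] at k1
    calc _ ≤ _ := k1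
      _ ≤ _ := k4
      _ = _ := by ring
  have hab : 0 < a + b := by linarith
  have fin : ((y' : ℝ) - y) ≤ L * L := le_of_mul_le_mul_right key hab
  exact_mod_cast fin

theorem turnG_int (L s t c v w y z i j : ℤ) (s1 : 1 ≤ s) (t1 : 1 ≤ t) (sL : s ≤ L) (tL : t ≤ L)
    (c0 : 0 ≤ c) (cL : c ≤ 2 * L + 1) (hst : t - s * c ≠ 0) (v0 : 0 ≤ v)
    (vL : L ^ 5 * (2 * L ^ 2 + L) + 1 ≤ v) (y0 : 0 ≤ y) (z0 : 0 ≤ z) (i1 : 1 ≤ i)
    (j1 : 1 ≤ j) (hile : i ≤ L * L) (g1 : s * v + 1 = y ^ 2) (g2 : t * v + c = z ^ 2)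
    (g3 : s * w + 1 = (y + i) ^ 2) (g4 : t * w + c = (z + j) ^ 2) : False := by
  have e1 : 2 * (t * i * y - s * j * z) = s * j ^ 2 - t * i ^ 2 := by
    linear_combination t * g1 - t * g3 - s * g2 + s * g4
  have e2 : t * y ^ 2 - s * z ^ 2 = t - s * c := by
    linear_combination s * g2 - t * g1
  have e3 : (s * j ^ 2 - t * i ^ 2) * (t * i * y + s * j * z + 2 * s * z ^ 2)
      = (2 * (t * i ^ 2)) * (t - s * c) := by
    linear_combination (-(t * i * y + s * j * z)) * e1 + 2 * t * i ^ 2 * e2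
  have i0 : (0 : ℤ) ≤ i := by linarith
  have j0 : (0 : ℤ) ≤ j := by linarith
  have s0 : (0 : ℤ) ≤ s := by linarith
  have t0 : (0 : ℤ) ≤ t := by linarith
  have L0 : (0 : ℤ) ≤ L := by linarith
  have hne : t * i ^ 2 ≠ 0 := by
    have : 0 < t * i ^ 2 := by positivity
    exact ne_of_gt this
  have zsq : v ≤ z ^ 2 := by
    rw [← g2]
    have : v ≤ t * v := le_mul_of_one_le_left v0 t1
    linarith
  have a1 : 0 ≤ t * i * y := mul_nonneg (mul_nonneg t0 i0) y0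
  have a2 : 0 ≤ s * j * z := mul_nonneg (mul_nonneg s0 j0) z0
  have a3 : z ^ 2 ≤ s * z ^ 2 := le_mul_of_one_le_left (sq_nonneg z) s1
  have isq : i ^ 2 ≤ L ^ 4 := by
    have h1 : i ^ 2 ≤ (L * L) ^ 2 := pow_le_pow_left₀ i0 hile 2
    have h2 : (L * L) ^ 2 = L ^ 4 := by ring
    rw [h2] at h1
    exact h1
  have q1 : t * i ^ 2 ≤ L * L ^ 4 := mul_le_mul tL isq (sq_nonneg i) L0
  have sc0 : 0 ≤ s * c := mul_nonneg s0 c0
  have sc1 : s * c ≤ L * (2 * L + 1) := mul_le_mul sL cL c0 L0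
  have dL : |t - s * c| ≤ 2 * L ^ 2 + L := by
    have LL : 0 ≤ L ^ 2 := sq_nonneg L
    have hr : L * (2 * L + 1) = 2 * L ^ 2 + L := by ring
    rw [hr] at sc1
    rw [abs_le]
    constructor
    · linarith
    · linarith
  generalize hc : s * j ^ 2 - t * i ^ 2 = cc at e3
  generalize hT : t * i * y + s * j * z + 2 * s * z ^ 2 = T at e3
  generalize hB : t * i ^ 2 = B at e3 hne q1
  generalize hd : t - s * c = d at e3 hst dL
  have hTbig : 2 * v ≤ T := by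
    rw [← hT]
    have : 2 * s * z ^ 2 = 2 * (s * z ^ 2) := by ring
    rw [this]
    linarith
  have hT0 : 0 ≤ T := by linarith
  have hB0 : 0 ≤ B := by rw [← hB]; exact mul_nonneg t0 (sq_nonneg i)
  have cc0 : cc ≠ 0 := by
    intro h0
    rw [h0, zero_mul] at e3
    rcases mul_eq_zero.mp e3.symm with h5 | h5
    · exact hne (by linarith)
    · exact hst h5
  have c1 : 1 ≤ |cc| := Int.one_le_abs cc0
  have babs : |cc| * T = (2 * B) * |d| := by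
    have h5 := congrArg abs e3
    rw [abs_mul, abs_mul, abs_of_nonneg hT0, abs_of_nonneg (by linarith : (0:ℤ) ≤ 2 * B)] at h5
    exact h5
  have l1 : T ≤ |cc| * T := le_mul_of_one_le_left hT0 c1
  have LL0 : (0 : ℤ) ≤ L * L ^ 4 := by positivity
  have r1 : (2 * B) * |d| ≤ (2 * (L * L ^ 4)) * (2 * L ^ 2 + L) :=
    mul_le_mul (by linarith) dL (abs_nonneg _) (by linarith)
  have r2 : (2 * (L * L ^ 4)) * (2 * L ^ 2 + L) = 2 * (L ^ 5 * (2 * L ^ 2 + L)) := by ring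
  rw [r2] at r1
  linarith

theorem turnG_aux (L : ℕ) (s t c v w y z y' z' : ℕ) (hs : 1 ≤ s) (ht : 1 ≤ t) (hsL : s ≤ L)
    (htL : t ≤ L) (hc : c ≤ 2 * L + 1) (hst : t ≠ s * c) (hv : L ^ 5 * (2 * L ^ 2 + L) + 1 ≤ v)
    (hvw : v < w) (h1 : s * v + 1 = y ^ 2)
    (h2 : t * v + c = z ^ 2) (h3 : s * w + 1 = y' ^ 2) (h4 : t * w + c = z' ^ 2)
    (h : √(w : ℝ) - √(v : ℝ) ≤ L) : False := by
  obtain ⟨hi0, hi1⟩ := turnG_step L s 1 v w y y' hs hsL hvw h1 h3 h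
  obtain ⟨hj0, hj1⟩ := turnG_step L t c v w z z' ht htL hvw h2 h4 h
  have g1 : (s : ℤ) * v + 1 = (y : ℤ) ^ 2 := by exact_mod_cast h1
  have g2 : (t : ℤ) * v + c = (z : ℤ) ^ 2 := by exact_mod_cast h2
  have g3 : (s : ℤ) * w + 1 = ((y : ℤ) + ((y' : ℤ) - y)) ^ 2 := by
    have e : ((y : ℤ) + ((y' : ℤ) - y)) = y' := by ring
    rw [e]; exact_mod_cast h3
  have g4 : (t : ℤ) * w + c = ((z : ℤ) + ((z' : ℤ) - z)) ^ 2 := by
    have e : ((z : ℤ) + ((z' : ℤ) - z)) = z' := by ring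
    rw [e]; exact_mod_cast h4
  have hst' : (t : ℤ) - s * c ≠ 0 := by
    intro h0
    apply hst
    have h5 : (t : ℤ) = s * c := by linarith
    exact_mod_cast h5
  exact turnG_int L s t c v w y z (y' - y) (z' - z) (by exact_mod_cast hs) (by exact_mod_cast ht)
    (by exact_mod_cast hsL) (by exact_mod_cast htL) (Int.natCast_nonneg c) (by exact_mod_cast hc)
    hst' (Int.natCast_nonneg v)
    (by exact_mod_cast hv) (Int.natCast_nonneg y) (Int.natCast_nonneg z) (by omega) (by omega)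
    hi1 g1 g2 g3 g4

theorem turnG (L N : ℕ) (hN : L ^ 5 * (2 * L ^ 2 + L) + 1 ≤ N) :
    ∀ s t c v w y z y' z' : ℕ, 1 ≤ s → 1 ≤ t → s ≤ L → t ≤ L →
    c ≤ 2 * L + 1 → t ≠ s * c → N ≤ v → N ≤ w → s * v + 1 = y ^ 2 → t * v + c = z ^ 2 →
    s * w + 1 = y' ^ 2 → t * w + c = z' ^ 2 → |√(v : ℝ) - √(w : ℝ)| ≤ L → v = w := by
  intro s t c v w y z y' z' hs ht hsL htL hc hst hv hw h1 h2 h3 h4 h
  rw [abs_le] at h
  rcases lt_trichotomy v w with hlt | heq | hgt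
  · exact (turnG_aux L s t c v w y z y' z' hs ht hsL htL hc hst (hN.trans hv) hlt h1 h2 h3 h4
      (by linarith [h.1])).elim
  · exact heq
  · exact (turnG_aux L s t c w v y' z' y z hs ht hsL htL hc hst (hN.trans hw) hgt h3 h4 h1 h2
      (by linarith [h.2])).elim

/-- an empty interval of length `K` -/
theorem chain_gap (K C : ℕ) (S : Finset ℕ) (m : ℕ) (hm : m ∈ S) (hmin : ∀ a ∈ S, m ≤ a)
    (hcount : ∀ T ⊆ S, (∀ a ∈ T, ∀ b ∈ T, √(b : ℝ) - √(a : ℝ) ≤ ((C * K : ℕ) : ℝ)) →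
      T.card ≤ C) :
    ∃ i : ℕ, i < C ∧ ∀ a ∈ S, (i : ℝ) * K < √(a : ℝ) - √(m : ℝ) →
      ((i : ℝ) + 1) * K < √(a : ℝ) - √(m : ℝ) := by
  classical
  by_contra hcon
  push Not at hcon
  have hex : ∀ i : ℕ, ∃ a : ℕ, i < C → a ∈ S ∧ (i : ℝ) * K < √(a : ℝ) - √(m : ℝ) ∧
      √(a : ℝ) - √(m : ℝ) ≤ ((i : ℝ) + 1) * K := by
    intro i
    by_cases hi : i < C
    · obtain ⟨a, h1, h2, h3⟩ := hcon i hi
      exact ⟨a, fun _ => ⟨h1, h2, h3⟩⟩
    · exact ⟨0, fun h => absurd h hi⟩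
  choose g hg using hex
  have K0 : (0 : ℝ) ≤ K := Nat.cast_nonneg K
  have hmono : ∀ i j : ℕ, i < j → j < C → g i ≠ g j := by
    intro i j hij hj he
    have h1 := (hg i (hij.trans hj)).2.2
    have h2 := (hg j hj).2.1
    rw [he] at h1
    have h3 : ((i : ℝ) + 1) ≤ j := by exact_mod_cast hij
    have h4 : ((i : ℝ) + 1) * K ≤ j * K := mul_le_mul_of_nonneg_right h3 K0
    linarith
  have hinj : Set.InjOn g (Finset.range C : Set ℕ) := by
    intro i hi j hj he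
    rw [Finset.coe_range, Set.mem_Iio] at hi hj
    rcases lt_trichotomy i j with h | h | h
    · exact absurd he (hmono i j h hj)
    · exact h
    · exact absurd he.symm (hmono j i h hi)
  have hcard : ((Finset.range C).image g).card = C := by
    rw [Finset.card_image_of_injOn hinj, Finset.card_range]
  have hmn : m ∉ (Finset.range C).image g := by
    intro h
    obtain ⟨i, hi, he⟩ := Finset.mem_image.1 h
    rw [Finset.mem_range] at hi
    have h2 := (hg i hi).2.1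
    rw [he, sub_self] at h2
    have : (0 : ℝ) ≤ (i : ℝ) * K := mul_nonneg (Nat.cast_nonneg i) K0
    linarith
  have hsub : insert m ((Finset.range C).image g) ⊆ S := by
    intro a ha
    rcases Finset.mem_insert.1 ha with h | h
    · rw [h]; exact hm
    · obtain ⟨i, hi, he⟩ := Finset.mem_image.1 h
      rw [← he]
      exact (hg i (Finset.mem_range.1 hi)).1
  have hle : ∀ b ∈ insert m ((Finset.range C).image g),
      √(b : ℝ) - √(m : ℝ) ≤ ((C * K : ℕ) : ℝ) := by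
    intro b hb
    push_cast
    rcases Finset.mem_insert.1 hb with h | h
    · rw [h, sub_self]
      exact mul_nonneg (Nat.cast_nonneg C) K0
    · obtain ⟨i, hi, he⟩ := Finset.mem_image.1 h
      rw [Finset.mem_range] at hi
      have h1 := (hg i hi).2.2
      rw [he] at h1
      have h3 : ((i : ℝ) + 1) ≤ C := by exact_mod_cast hi
      have h4 : ((i : ℝ) + 1) * K ≤ C * K := mul_le_mul_of_nonneg_right h3 K0
      linarith
  have hfin := hcount _ hsub (fun a ha b hb => by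
    have h1 : √(m : ℝ) ≤ √(a : ℝ) := Real.sqrt_le_sqrt (by exact_mod_cast hmin a (hsub ha))
    have h2 := hle b hb
    linarith)
  rw [Finset.card_insert_of_notMem hmn, hcard] at hfin
  omega

def Marked (L v : ℕ) : Prop := ∃ s, 1 ≤ s ∧ s ≤ L ∧ IsSquare (s * v + 1)

def Two (L v : ℕ) : Prop :=
  ∃ s t, 1 ≤ s ∧ s < t ∧ t ≤ L ∧ IsSquare (s * v + 1) ∧ IsSquare (t * v + 1)

def Bad (L v : ℕ) : Prop :=
  Two L v ∨ (Marked L v ∧ Marked L (v + 2)) ∨ (Marked L v ∧ Marked L (v - 2))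

theorem card_le_sq_aux (L : ℕ) (T : Finset ℕ) (R : ℕ → ℕ → ℕ → Prop)
    (h1 : ∀ v ∈ T, ∃ s t, 1 ≤ s ∧ s ≤ L ∧ 1 ≤ t ∧ t ≤ L ∧ R v s t)
    (h2 : ∀ v ∈ T, ∀ w ∈ T, ∀ s t, 1 ≤ s → s ≤ L → 1 ≤ t → t ≤ L →
      R v s t → R w s t → v = w) : T.card ≤ L ^ 2 := by
  classical
  choose! S U h using h1
  have hc : T.card ≤ ((Finset.Icc 1 L) ×ˢ (Finset.Icc 1 L)).card := by
    apply Finset.card_le_card_of_injOn (fun v => (S v, U v))
    · intro v hv
      have hv' : v ∈ T := hv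
      obtain ⟨a, b, c, d, -⟩ := h v hv'
      simp only [Finset.coe_product, Set.mem_prod, Finset.mem_coe, Finset.mem_Icc]
      exact ⟨⟨a, b⟩, ⟨c, d⟩⟩
    · intro v hv w hw hvw
      have hv' : v ∈ T := hv
      have hw' : w ∈ T := hw
      simp only [Prod.mk.injEq] at hvw
      obtain ⟨a, b, c, d, e⟩ := h v hv'
      obtain ⟨a', b', c', d', e'⟩ := h w hw'
      rw [← hvw.1, ← hvw.2] at e'
      exact h2 v hv' w hw' (S v) (U v) a b c d e e'
  rw [Finset.card_product, Nat.card_Icc] at hc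
  simpa [pow_two] using hc

theorem sqrt_shift_aux (v w : ℕ) (hv : 5 ≤ v) (hw : 5 ≤ w) (D : ℝ)
    (h : |√(v : ℝ) - √(w : ℝ)| ≤ D) :
    |√((v - 2 : ℕ) : ℝ) - √((w - 2 : ℕ) : ℝ)| ≤ 2 * D := by
  have hv' : (5 : ℝ) ≤ v := by exact_mod_cast hv
  have hw' : (5 : ℝ) ≤ w := by exact_mod_cast hw
  have e1 : ((v - 2 : ℕ) : ℝ) = (v : ℝ) - 2 := by
    rw [Nat.cast_sub (by omega)]; norm_num
  have e2 : ((w - 2 : ℕ) : ℝ) = (w : ℝ) - 2 := by
    rw [Nat.cast_sub (by omega)]; norm_num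
  rw [e1, e2]
  have key : ∀ x : ℝ, 5 ≤ x → √x ≤ 2 * √(x - 2) := by
    intro x hx
    rw [show (2 : ℝ) * √(x - 2) = √(4 * (x - 2)) by
      rw [Real.sqrt_mul (by norm_num : (0:ℝ) ≤ 4)]
      rw [show (4 : ℝ) = 2 ^ 2 by norm_num, Real.sqrt_sq (by norm_num)]]
    exact Real.sqrt_le_sqrt (by linarith)
  have k1 := key v hv'
  have k2 := key w hw'
  have p1 : 0 < √((v : ℝ) - 2) := Real.sqrt_pos.2 (by linarith)
  have p2 : 0 < √((w : ℝ) - 2) := Real.sqrt_pos.2 (by linarith)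
  have q1 : √(v : ℝ) ^ 2 = v := Real.sq_sqrt (by linarith)
  have q2 : √(w : ℝ) ^ 2 = w := Real.sq_sqrt (by linarith)
  have q3 : √((v : ℝ) - 2) ^ 2 = v - 2 := Real.sq_sqrt (by linarith)
  have q4 : √((w : ℝ) - 2) ^ 2 = w - 2 := Real.sq_sqrt (by linarith)
  set a := √(v : ℝ)
  set b := √(w : ℝ)
  set c := √((v : ℝ) - 2)
  set d := √((w : ℝ) - 2)
  have hid : (c - d) * (c + d) = (a - b) * (a + b) := by nlinarith
  have habs : |c - d| * (c + d) = |a - b| * (a + b) := by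
    have ha : 0 ≤ a := Real.sqrt_nonneg _
    have hb : 0 ≤ b := Real.sqrt_nonneg _
    have := congrArg abs hid
    rwa [abs_mul, abs_mul, abs_of_nonneg (by linarith : 0 ≤ c + d),
      abs_of_nonneg (by linarith : 0 ≤ a + b)] at this
  have hle : |c - d| * (c + d) ≤ (2 * D) * (c + d) := by
    rw [habs]
    have hD : 0 ≤ D := (abs_nonneg _).trans h
    have ha : 0 ≤ a := Real.sqrt_nonneg _
    have hb : 0 ≤ b := Real.sqrt_nonneg _
    calc |a - b| * (a + b) ≤ D * (a + b) :=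
          mul_le_mul_of_nonneg_right h (by linarith)
      _ ≤ D * (2 * c + 2 * d) := mul_le_mul_of_nonneg_left (by linarith) hD
      _ = (2 * D) * (c + d) := by ring
  exact le_of_mul_le_mul_right hle (by linarith)

theorem count (L P N : ℕ) (hLP : L ≤ P) (hN : 1 ≤ N)
    (hturn : ∀ s t c v w y z y' z' : ℕ, 1 ≤ s → 1 ≤ t → s ≤ P → t ≤ P → c ≤ 2 * P + 1 →
      t ≠ s * c → N ≤ v → N ≤ w → s * v + 1 = y ^ 2 → t * v + c = z ^ 2 →
      s * w + 1 = y' ^ 2 → t * w + c = z' ^ 2 → |√(v : ℝ) - √(w : ℝ)| ≤ P → v = w)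
    (T : Finset ℕ) (hT : ∀ v ∈ T, N + 4 ≤ v ∧ Bad L v) (D : ℕ) (hD : 2 * D ≤ P)
    (hwin : ∀ a ∈ T, ∀ b ∈ T, √(b : ℝ) - √(a : ℝ) ≤ D) : T.card ≤ 3 * L ^ 2 := by
  classical
  have hDP : (2 : ℝ) * (D : ℝ) ≤ (P : ℝ) := by exact_mod_cast hD
  have hD0 : (0 : ℝ) ≤ (D : ℝ) := Nat.cast_nonneg D
  have habs : ∀ a ∈ T, ∀ b ∈ T, |√(a : ℝ) - √(b : ℝ)| ≤ (D : ℝ) := by
    intro a ha b hb
    rw [abs_le]
    have h1 := hwin a ha b hb
    have h2 := hwin b hb a ha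
    constructor <;> linarith
  -- first type
  have c1 : (T.filter (fun v => Two L v)).card ≤ L ^ 2 := by
    apply card_le_sq_aux L _ (fun v s t => s < t ∧ IsSquare (s * v + 1) ∧ IsSquare (t * v + 1))
    · intro v hv
      obtain ⟨s, t, h1, h2, h3, h4, h5⟩ := (Finset.mem_filter.1 hv).2
      exact ⟨s, t, h1, by omega, by omega, h3, h2, h4, h5⟩
    · rintro v hv w hw s t hs hsL ht htL ⟨hst, ⟨y, hy⟩, ⟨z, hz⟩⟩ ⟨-, ⟨y', hy'⟩, ⟨z', hz'⟩⟩
      have hvT := (Finset.mem_filter.1 hv).1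
      have hwT := (Finset.mem_filter.1 hw).1
      exact hturn s t 1 v w y z y' z' hs ht (by omega) (by omega) (by omega) (by omega)
        (by have := (hT v hvT).1; omega) (by have := (hT w hwT).1; omega)
        (by rw [hy, pow_two]) (by rw [hz, pow_two]) (by rw [hy', pow_two]) (by rw [hz', pow_two])
        (by have := habs v hvT w hwT; linarith)
  have c2 : (T.filter (fun v => Marked L v ∧ Marked L (v + 2))).card ≤ L ^ 2 := by
    apply card_le_sq_aux L _ (fun v s t => IsSquare (s * v + 1) ∧ IsSquare (t * (v + 2) + 1))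
    · intro v hv
      obtain ⟨⟨s, h1, h2, h3⟩, ⟨t, h4, h5, h6⟩⟩ := (Finset.mem_filter.1 hv).2
      exact ⟨s, t, h1, h2, h4, h5, h3, h6⟩
    · rintro v hv w hw s t hs hsL ht htL ⟨⟨y, hy⟩, ⟨z, hz⟩⟩ ⟨⟨y', hy'⟩, ⟨z', hz'⟩⟩
      have hvT := (Finset.mem_filter.1 hv).1
      have hwT := (Finset.mem_filter.1 hw).1
      exact hturn s t (2 * t + 1) v w y z y' z' hs ht (by omega) (by omega) (by omega)
        (by
          intro h
          have : 1 * (2 * t + 1) ≤ s * (2 * t + 1) := Nat.mul_le_mul_right _ hs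
          omega)
        (by have := (hT v hvT).1; omega) (by have := (hT w hwT).1; omega)
        (by rw [hy, pow_two]) (by rw [pow_two, ← hz]; ring)
        (by rw [hy', pow_two]) (by rw [pow_two, ← hz']; ring)
        (by have := habs v hvT w hwT; linarith)
  have c3 : (T.filter (fun v => Marked L v ∧ Marked L (v - 2))).card ≤ L ^ 2 := by
    apply card_le_sq_aux L _ (fun v s t => IsSquare (s * (v - 2) + 1) ∧ IsSquare (t * v + 1))
    · intro v hv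
      obtain ⟨⟨s, h1, h2, h3⟩, ⟨t, h4, h5, h6⟩⟩ := (Finset.mem_filter.1 hv).2
      exact ⟨t, s, h4, h5, h1, h2, h6, h3⟩
    · rintro v hv w hw s t hs hsL ht htL ⟨⟨y, hy⟩, ⟨z, hz⟩⟩ ⟨⟨y', hy'⟩, ⟨z', hz'⟩⟩
      have hvT := (Finset.mem_filter.1 hv).1
      have hwT := (Finset.mem_filter.1 hw).1
      have hv4 := (hT v hvT).1
      have hw4 := (hT w hwT).1
      have hkey : v - 2 = w - 2 := by
        apply hturn s t (2 * t + 1) (v - 2) (w - 2) y z y' z' hs ht (by omega) (by omega)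
          (by omega)
          (by
            intro h
            have : 1 * (2 * t + 1) ≤ s * (2 * t + 1) := Nat.mul_le_mul_right _ hs
            omega)
          (by omega) (by omega)
          (by rw [hy, pow_two])
          (by
            rw [pow_two, ← hz]
            obtain ⟨u, rfl⟩ : ∃ u, v = u + 2 := ⟨v - 2, by omega⟩
            rw [Nat.add_sub_cancel]; ring)
          (by rw [hy', pow_two])
          (by
            rw [pow_two, ← hz']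
            obtain ⟨u, rfl⟩ : ∃ u, w = u + 2 := ⟨w - 2, by omega⟩
            rw [Nat.add_sub_cancel]; ring)
        exact (sqrt_shift_aux v w (by omega) (by omega) D (habs v hvT w hwT)).trans hDP
      omega
  have hcover : T ⊆ (T.filter (fun v => Two L v)) ∪
      ((T.filter (fun v => Marked L v ∧ Marked L (v + 2))) ∪
        (T.filter (fun v => Marked L v ∧ Marked L (v - 2)))) := by
    intro v hv
    simp only [Finset.mem_union, Finset.mem_filter]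
    rcases (hT v hv).2 with h | h | h
    · exact Or.inl ⟨hv, h⟩
    · exact Or.inr (Or.inl ⟨hv, h⟩)
    · exact Or.inr (Or.inr ⟨hv, h⟩)
  have h1 := Finset.card_le_card hcover
  have h2 := h1.trans (Finset.card_union_le _ _)
  have h3 := Finset.card_union_le (T.filter (fun v => Marked L v ∧ Marked L (v + 2)))
        (T.filter (fun v => Marked L v ∧ Marked L (v - 2)))
  omega

/-- vertices with fewer than `k` neighbours do not matter -/
theorem ext (k : ℕ) (S X : Finset ℕ) (hS : Good k S)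
    (hX : ∀ x ∈ X, ∀ N : Finset ℕ,
      (∀ y ∈ N, y ∈ S ∪ X ∧ y ≠ x ∧ IsSquare (x * y + 1)) → N.card < k) :
    Good k (S ∪ X) := by
  classical
  induction X using Finset.induction_on with
  | empty => simpa using hS
  | insert x X hxX ih =>
    have hsub : ∀ y, y ∈ S ∪ X → y ∈ S ∪ insert x X := by
      intro y hy
      rcases Finset.mem_union.1 hy with h | h
      · exact Finset.mem_union_left _ h
      · exact Finset.mem_union_right _ (Finset.mem_insert_of_mem h)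
    obtain ⟨f, hf⟩ := ih (fun y hy N hN =>
      hX y (Finset.mem_insert_of_mem hy) N
        (fun z hz => ⟨hsub z (hN z hz).1, (hN z hz).2⟩))
    have hcard : ((S ∪ X).filter (fun y => y ≠ x ∧ IsSquare (x * y + 1))).card < k := by
      apply hX x (Finset.mem_insert_self _ _)
      intro y hy
      rw [Finset.mem_filter] at hy
      exact ⟨hsub y hy.1, hy.2⟩
    have hc : ∃ c : Fin k,
        c ∉ ((S ∪ X).filter (fun y => y ≠ x ∧ IsSquare (x * y + 1))).image f := by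
      by_contra hcon
      push Not at hcon
      have h3 : (Finset.univ : Finset (Fin k)) ⊆
          ((S ∪ X).filter (fun y => y ≠ x ∧ IsSquare (x * y + 1))).image f :=
        fun c _ => hcon c
      have h4 := Finset.card_le_card h3
      have h5 := h4.trans Finset.card_image_le
      rw [Finset.card_univ, Fintype.card_fin] at h5
      omega
    obtain ⟨c, hc⟩ := hc
    have key : ∀ y ∈ S ∪ insert x X, y ≠ x → IsSquare (x * y + 1) → f y ≠ c := by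
      intro y hy hyx hsq hyc
      apply hc
      rw [Finset.mem_image]
      refine ⟨y, ?_, hyc⟩
      rw [Finset.mem_filter]
      refine ⟨?_, hyx, hsq⟩
      rcases Finset.mem_union.1 hy with h | h
      · exact Finset.mem_union_left _ h
      · rcases Finset.mem_insert.1 h with h | h
        · exact absurd h hyx
        · exact Finset.mem_union_right _ h
    have hmem : ∀ y ∈ S ∪ insert x X, y ≠ x → y ∈ S ∪ X := by
      intro y hy hyx
      rcases Finset.mem_union.1 hy with h | h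
      · exact Finset.mem_union_left _ h
      · rcases Finset.mem_insert.1 h with h | h
        · exact absurd h hyx
        · exact Finset.mem_union_right _ h
    refine ⟨Function.update f x c, ?_⟩
    intro a ha b hb hab hsq
    by_cases hax : a = x
    · subst hax
      have hbx : b ≠ a := fun h => hab h.symm
      rw [Function.update_self, Function.update_of_ne hbx]
      exact (key b hb hbx hsq).symm
    · by_cases hbx : b = x
      · subst hbx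
        rw [Function.update_self, Function.update_of_ne hax]
        apply key a ha hax
        rwa [mul_comm]
      · rw [Function.update_of_ne hax, Function.update_of_ne hbx]
        exact hf a (hmem a ha hax) b (hmem b hb hbx) hab hsq

theorem good_of_colorable {k : ℕ} (hk : 0 < k) {S : Finset ℕ}
    (h : (Pool.Agent.Lib.MP_d91fe8_nt.Windows.dGraph S).Colorable k) : Good k S := by
  classical
  obtain ⟨C⟩ := h
  refine ⟨fun a => if h : a ∈ S then C ⟨a, h⟩ else ⟨0, hk⟩, fun a ha b hb hab hsq => ?_⟩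
  simp only [ha, hb, dif_pos]
  exact C.valid (v := ⟨a, ha⟩) (w := ⟨b, hb⟩)
    ⟨fun h => hab (congrArg (fun x : S => (x : ℕ)) h), hsq⟩

theorem Good.colorable {k : ℕ} {S : Finset ℕ} (h : Good k S) : (dGraph S).Colorable k := by
  obtain ⟨f, hf⟩ := h
  exact ⟨SimpleGraph.Coloring.mk (fun a : S => f a) fun {a b} hab he =>
    hf a a.2 b b.2 (fun h => hab.1 (Subtype.ext h)) hab.2 he⟩

/-- the label of an edge -/
theorem label_all {a b : ℕ} (ha0 : 0 < a) (hab : a < b) (h : IsSquare (a * b + 1)) :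
    ∃ s y z : ℕ, s * a + 1 = y ^ 2 ∧ s * b + 1 = z ^ 2 ∧
      b = a + s + 2 * y ∧ b + s = a + 2 * z ∧ √(s : ℝ) ≤ √(b : ℝ) - √(a : ℝ) := by
  obtain ⟨x, hx⟩ := h
  have hxa : a < x := by
    by_contra hcon
    push Not at hcon
    have : x * x ≤ a * a := Nat.mul_le_mul hcon hcon
    nlinarith
  have hxb : x ≤ b := by
    by_contra hcon
    push Not at hcon
    have : (b + 1) * (b + 1) ≤ x * x := Nat.mul_le_mul hcon hcon
    nlinarith
  obtain ⟨d, rfl⟩ := Nat.exists_eq_add_of_lt hab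
  have hd : d ≠ 0 := by
    rintro rfl
    have h1 : a * a < x * x := by nlinarith
    have h2 : x * x < (a + 1) * (a + 1) := by nlinarith
    have h3 : a < x := by nlinarith
    have h4 : x < a + 1 := by nlinarith
    omega
  have h2x : 2 * x ≤ a + (a + d + 1) := by
    by_contra hcon
    push Not at hcon
    have h1 : (a + (a + d + 1) + 1) * (a + (a + d + 1) + 1) ≤ (2 * x) * (2 * x) :=
      Nat.mul_le_mul hcon hcon
    have h2 : (2 * x) * (2 * x) = 4 * (a * (a + d + 1) + 1) := by rw [hx]; ring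
    rw [h2] at h1
    have h3 : 1 ≤ d := Nat.one_le_iff_ne_zero.2 hd
    nlinarith
  set b := a + d + 1 with hbdef
  obtain ⟨s, hs⟩ : ∃ s, a + b = 2 * x + s := ⟨a + b - 2 * x, by omega⟩
  obtain ⟨y, hy⟩ : ∃ y, x = a + y := ⟨x - a, by omega⟩
  obtain ⟨z, hz⟩ : ∃ z, b = x + z := ⟨b - x, by omega⟩
  have hy2 : s * a + 1 = y ^ 2 := by
    have e1 : (s : ℤ) = a + b - 2 * x := by
      have : ((a + b : ℕ) : ℤ) = ((2 * x + s : ℕ) : ℤ) := by rw [hs]
      push_cast at this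
      linarith
    have e2 : (y : ℤ) = x - a := by
      have : (x : ℤ) = a + y := by exact_mod_cast hy
      linarith
    have e3 : (a : ℤ) * b + 1 = x * x := by exact_mod_cast hx
    have : ((s * a + 1 : ℕ) : ℤ) = ((y ^ 2 : ℕ) : ℤ) := by
      push_cast
      rw [e1, e2]
      linear_combination e3
    exact_mod_cast this
  have hz2 : s * b + 1 = z ^ 2 := by
    have e1 : (s : ℤ) = a + b - 2 * x := by
      have : ((a + b : ℕ) : ℤ) = ((2 * x + s : ℕ) : ℤ) := by rw [hs]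
      push_cast at this
      linarith
    have e2 : (z : ℤ) = b - x := by
      have : (b : ℤ) = x + z := by exact_mod_cast hz
      linarith
    have e3 : (a : ℤ) * b + 1 = x * x := by exact_mod_cast hx
    have : ((s * b + 1 : ℕ) : ℤ) = ((z ^ 2 : ℕ) : ℤ) := by
      push_cast
      rw [e1, e2]
      linear_combination e3
    exact_mod_cast this
  refine ⟨s, y, z, hy2, hz2, by omega, by omega, ?_⟩
  have ra : (0 : ℝ) < a := by exact_mod_cast ha0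
  have rb : (a : ℝ) < b := by exact_mod_cast hab
  have rb0 : (0 : ℝ) < b := ra.trans rb
  have sa := Real.sq_sqrt ra.le
  have sb := Real.sq_sqrt rb0.le
  have hlt : √(a : ℝ) < √(b : ℝ) := Real.sqrt_lt_sqrt ra.le rb
  have hp2 : (√(a : ℝ) * √(b : ℝ)) ^ 2 = a * b := by rw [mul_pow, sa, sb]
  have hx2 : (x : ℝ) ^ 2 = a * b + 1 := by
    have : ((a * b + 1 : ℕ) : ℝ) = ((x * x : ℕ) : ℝ) := by rw [hx]
    push_cast at this
    rw [this]
    ring
  have hpx : √(a : ℝ) * √(b : ℝ) ≤ x := by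
    refine abs_le_of_sq_le_sq' ?_ (Nat.cast_nonneg _) |>.2
    rw [hp2, hx2]
    linarith
  have hs' : (s : ℝ) = a + b - 2 * x := by
    have : ((a + b : ℕ) : ℝ) = ((2 * x + s : ℕ) : ℝ) := by rw [hs]
    push_cast at this
    linarith
  refine Real.sqrt_le_iff.2 ⟨by linarith, ?_⟩
  rw [sub_sq, sa, sb, hs']
  linarith

/-- the neighbours of a number, when all edges are short -/
theorem neighbour {K L v y : ℕ} (hKL : K ^ 2 ≤ L) (hv : 0 < v) (hy : 0 < y) (hne : y ≠ v)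
    (hsq : IsSquare (v * y + 1)) (h1 : √(v : ℝ) - √(y : ℝ) ≤ K) (h2 : √(y : ℝ) - √(v : ℝ) ≤ K) :
    ∃ s q : ℕ, s ≤ L ∧ s * v + 1 = q ^ 2 ∧ (y = v + s + 2 * q ∨ v + s = y + 2 * q) := by
  have hsL : ∀ s : ℕ, √(s : ℝ) ≤ K → s ≤ L := by
    intro s hs
    have hs0 : (0 : ℝ) ≤ s := Nat.cast_nonneg _
    have h3 : √(s : ℝ) ^ 2 ≤ (K : ℝ) ^ 2 := pow_le_pow_left₀ (Real.sqrt_nonneg _) hs 2
    rw [Real.sq_sqrt hs0] at h3
    have h4 : s ≤ K ^ 2 := by exact_mod_cast h3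
    omega
  rcases lt_or_gt_of_ne hne with h | h
  · obtain ⟨s, p, q, e1, e2, e3, e4, e5⟩ := label_all hy h (by rw [mul_comm]; exact hsq)
    exact ⟨s, q, hsL s (e5.trans h1), e2, Or.inr e4⟩
  · obtain ⟨s, p, q, e1, e2, e3, e4, e5⟩ := label_all hv h hsq
    exact ⟨s, p, hsL s (e5.trans h2), e1, Or.inl e3⟩

/-- unmarked numbers have at most two neighbours -/
theorem deg_unmarked {K L v : ℕ} (hKL : K ^ 2 ≤ L) (hv : 0 < v) (hm : ¬ Marked L v)
    (N : Finset ℕ) (hN : ∀ y ∈ N, 0 < y ∧ y ≠ v ∧ IsSquare (v * y + 1) ∧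
      √(v : ℝ) - √(y : ℝ) ≤ K ∧ √(y : ℝ) - √(v : ℝ) ≤ K) : N.card ≤ 2 := by
  have hsub : N ⊆ {v + 2, v - 2} := by
    intro y hy
    obtain ⟨g1, g2, g3, g4, g5⟩ := hN y hy
    obtain ⟨s, q, h1, h2, h3⟩ := neighbour hKL hv g1 g2 g3 g4 g5
    have hs : s = 0 := by
      by_contra hs
      exact hm ⟨s, by omega, h1, ⟨q, by rw [h2, sq]⟩⟩
    subst hs
    have hq : q = 1 := by
      have : q ^ 2 = 1 := by omega
      nlinarith
    subst hq
    rw [Finset.mem_insert, Finset.mem_singleton]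
    omega
  exact (Finset.card_le_card hsub).trans Finset.card_le_two

/-- marked numbers that are not bad have at most two marked neighbours -/
theorem deg_marked {K L v : ℕ} (hKL : K ^ 2 ≤ L) (hv : 0 < v) (hm : Marked L v)
    (hb : ¬ Bad L v)
    (N : Finset ℕ) (hN : ∀ y ∈ N, 0 < y ∧ y ≠ v ∧ IsSquare (v * y + 1) ∧
      √(v : ℝ) - √(y : ℝ) ≤ K ∧ √(y : ℝ) - √(v : ℝ) ≤ K)
    (hNm : ∀ y ∈ N, y = v + 2 ∨ y = v - 2 → Marked L y) :
    N.card ≤ 2 := by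
  obtain ⟨s₀, m1, m2, r, m3⟩ := hm
  have hsub : N ⊆ {v + s₀ + 2 * r, v + s₀ - 2 * r} := by
    intro y hy
    obtain ⟨g1, g2, g3, g4, g5⟩ := hN y hy
    obtain ⟨s, q, h1, h2, h3⟩ := neighbour hKL hv g1 g2 g3 g4 g5
    have hm' : Marked L v := ⟨s₀, m1, m2, r, m3⟩
    have hs0 : s ≠ 0 := by
      rintro rfl
      have hq : q = 1 := by
        have : q ^ 2 = 1 := by omega
        nlinarith
      subst hq
      apply hb
      rcases h3 with h3 | h3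
      · have : y = v + 2 := by omega
        exact Or.inr (Or.inl ⟨hm', this ▸ hNm y hy (Or.inl this)⟩)
      · have : y = v - 2 := by omega
        exact Or.inr (Or.inr ⟨hm', this ▸ hNm y hy (Or.inr this)⟩)
    have hss : s = s₀ := by
      by_contra hne
      apply hb
      refine Or.inl ?_
      rcases lt_or_gt_of_ne hne with h | h
      · exact ⟨s, s₀, by omega, h, m2, ⟨q, by rw [h2, sq]⟩, ⟨r, m3⟩⟩
      · exact ⟨s₀, s, m1, h, h1, ⟨r, m3⟩, ⟨q, by rw [h2, sq]⟩⟩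
    subst hss
    have hqr : q = r := by
      have h5 : q ^ 2 = r ^ 2 := by rw [← h2, m3, sq]
      exact Nat.pow_left_injective (n := 2) (by norm_num) h5
    subst hqr
    rw [Finset.mem_insert, Finset.mem_singleton]
    omega
  exact (Finset.card_le_card hsub).trans Finset.card_le_two

theorem lin_le_two_pow (L : ℕ) (hL : 9 ≤ L) : 4 * L + 5 ≤ 2 ^ L := by
  induction L, hL using Nat.le_induction with
  | base => norm_num
  | succ n hn ih =>
    rw [pow_succ]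
    omega

theorem num (K L P B : ℕ) (hK : 1 ≤ K) (hL : L = 9 * K ^ 10) (hP : P = K ^ 2 + 6 * K ^ 5)
    (hB : B = 2 * (((L + 1) ^ 2 + 1) * (L + 2)) + 1) :
    L ^ 6 + B * (B * (L + 1)) ^ (2 ^ (L + 1)) + (P ^ 5 * (2 * P ^ 2 + P) + 1) + 20 ≤
      2 ^ (2 ^ (20 * K ^ 10)) := by
  have hq : 1 ≤ K ^ 10 := Nat.one_le_pow _ _ hK
  have hL9 : 9 ≤ L := by omega
  have hlin := lin_le_two_pow L hL9
  have hPL : P ≤ L := by
    have h1 : K ^ 2 ≤ K ^ 10 := Nat.pow_le_pow_right hK (by norm_num)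
    have h2 : K ^ 5 ≤ K ^ 10 := Nat.pow_le_pow_right hK (by norm_num)
    omega
  have hT : L ≤ 2 ^ L := by omega
  have hPT : P ≤ 2 ^ L := hPL.trans hT
  have hL1 : L + 1 ≤ 2 ^ L := by omega
  -- B ≤ 2 ^ (3 L + 5)
  have hB1 : B ≤ 32 * L ^ 3 := by
    rw [hB]
    have h1 : (L + 1) ^ 2 + 1 ≤ 3 * L ^ 2 := by nlinarith
    have h2 : L + 2 ≤ 2 * L := by omega
    have h3 : ((L + 1) ^ 2 + 1) * (L + 2) ≤ 3 * L ^ 2 * (2 * L) := Nat.mul_le_mul h1 h2
    have h4 : 1 ≤ L ^ 3 := Nat.one_le_pow _ _ (by omega)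
    calc 2 * (((L + 1) ^ 2 + 1) * (L + 2)) + 1 ≤ 2 * (3 * L ^ 2 * (2 * L)) + L ^ 3 := by omega
      _ = 13 * L ^ 3 := by ring
      _ ≤ 32 * L ^ 3 := by omega
  have hB2 : B ≤ 2 ^ (3 * L + 5) := by
    calc B ≤ 32 * L ^ 3 := hB1
      _ ≤ 32 * (2 ^ L) ^ 3 := Nat.mul_le_mul_left _ (Nat.pow_le_pow_left hT 3)
      _ = 2 ^ (3 * L + 5) := by rw [pow_add, ← pow_mul, mul_comm L 3]; ring
  have hBL : B * (L + 1) ≤ 2 ^ (4 * L + 5) := by
    calc B * (L + 1) ≤ 2 ^ (3 * L + 5) * 2 ^ L := Nat.mul_le_mul hB2 hL1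
      _ = 2 ^ (4 * L + 5) := by rw [← pow_add]; congr 1; ring
  set F : ℕ := (4 * L + 5) * 2 ^ (L + 1) + (3 * L + 5) with hF
  have hF7 : 7 * L + 5 ≤ F := by
    have h1 : 2 ≤ 2 ^ (L + 1) := by
      calc 2 = 2 ^ 1 := by norm_num
        _ ≤ 2 ^ (L + 1) := Nat.pow_le_pow_right (by norm_num) (by omega)
    have h2 : (4 * L + 5) * 2 ≤ (4 * L + 5) * 2 ^ (L + 1) := Nat.mul_le_mul_left _ h1
    omega
  have hbig : B * (B * (L + 1)) ^ (2 ^ (L + 1)) ≤ 2 ^ F := by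
    calc B * (B * (L + 1)) ^ (2 ^ (L + 1))
        ≤ 2 ^ (3 * L + 5) * (2 ^ (4 * L + 5)) ^ (2 ^ (L + 1)) :=
          Nat.mul_le_mul hB2 (Nat.pow_le_pow_left hBL _)
      _ = 2 ^ F := by rw [← pow_mul, ← pow_add, hF, add_comm]
  have h6 : L ^ 6 ≤ 2 ^ F := by
    calc L ^ 6 ≤ (2 ^ L) ^ 6 := Nat.pow_le_pow_left hT 6
      _ = 2 ^ (L * 6) := by rw [← pow_mul]
      _ ≤ 2 ^ F := Nat.pow_le_pow_right (by norm_num) (by omega)
  have hP7 : P ^ 5 * (2 * P ^ 2 + P) + 1 ≤ 2 ^ F := by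
    have h1 : 1 ≤ P := by
      have : 1 ≤ K ^ 2 := Nat.one_le_pow _ _ hK
      omega
    have h2 : P ≤ P ^ 2 := by nlinarith
    have h3 : 1 ≤ P ^ 7 := Nat.one_le_pow _ _ h1
    calc P ^ 5 * (2 * P ^ 2 + P) + 1 ≤ P ^ 5 * (3 * P ^ 2) + P ^ 7 :=
          Nat.add_le_add (Nat.mul_le_mul_left _ (by omega)) h3
      _ = 4 * P ^ 7 := by ring
      _ ≤ 4 * (2 ^ L) ^ 7 := Nat.mul_le_mul_left _ (Nat.pow_le_pow_left hPT 7)
      _ = 2 ^ (7 * L + 2) := by rw [pow_add, ← pow_mul, mul_comm L 7]; ring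
      _ ≤ 2 ^ F := Nat.pow_le_pow_right (by norm_num) (by omega)
  have h20 : 20 ≤ 2 ^ F := by
    calc 20 ≤ 2 ^ 5 := by norm_num
      _ ≤ 2 ^ F := Nat.pow_le_pow_right (by norm_num) (by omega)
  have hFE : F + 2 ≤ 2 ^ (20 * K ^ 10) := by
    have h1 : (4 * L + 5) * 2 ^ (L + 1) ≤ 2 ^ L * 2 ^ (L + 1) := Nat.mul_le_mul_right _ hlin
    have h2 : 2 ^ L * 2 ^ (L + 1) = 2 ^ (2 * L + 1) := by rw [← pow_add]; congr 1; ring
    have h3 : 2 ^ L ≤ 2 ^ (2 * L + 1) := Nat.pow_le_pow_right (by norm_num) (by omega)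
    have h4 : 2 ^ (2 * L + 2) = 2 ^ (2 * L + 1) + 2 ^ (2 * L + 1) := by
      rw [pow_succ 2 (2 * L + 1)]; ring
    have h5 : 2 ^ (2 * L + 2) ≤ 2 ^ (20 * K ^ 10) :=
      Nat.pow_le_pow_right (by norm_num) (by omega)
    omega
  calc L ^ 6 + B * (B * (L + 1)) ^ (2 ^ (L + 1)) + (P ^ 5 * (2 * P ^ 2 + P) + 1) + 20
      ≤ 2 ^ F + 2 ^ F + 2 ^ F + 2 ^ F := by
        exact Nat.add_le_add (Nat.add_le_add (Nat.add_le_add h6 hbig) hP7) h20
    _ = 2 ^ (F + 2) := by rw [pow_add]; ring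
    _ ≤ 2 ^ (2 ^ (20 * K ^ 10)) := Nat.pow_le_pow_right (by norm_num) hFE

theorem gfun_abs (T : ℕ → ℕ) (hT : StrictMono T) (h0 : 2 ≤ T 0) (hk : ∀ K, K ≤ T K)
    (hsq : ∀ K, T (K + 1) ^ 2 ≤ T (K + 2)) (h9 : ∀ k, 9 * k ^ 10 ≤ T k) :
    ∃ g : ℕ → ℕ, Monotone g ∧ (∀ a K : ℕ, T K ≤ a → K ≤ g a) ∧
      (∀ a, 1 ≤ g a → T (g a) ≤ a) ∧ (∀ a, g (a + 4) ≤ g a + 1) ∧
      (∀ m a : ℕ, 1 ≤ g m → √(a : ℝ) - √(m : ℝ) ≤ ((3 * (g m) ^ 5 : ℕ) : ℝ) →
        g (a + 4) ≤ g m + 1) := by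
  classical
  have p2 : ∀ a K : ℕ, T K ≤ a → K ≤ Nat.findGreatest (fun K => T K ≤ a) a := by
    intro a K h
    exact Nat.le_findGreatest ((hk K).trans h) h
  have p3 : ∀ a : ℕ, 1 ≤ Nat.findGreatest (fun K => T K ≤ a) a →
      T (Nat.findGreatest (fun K => T K ≤ a) a) ≤ a := by
    intro a h
    exact Nat.findGreatest_of_ne_zero (P := fun K => T K ≤ a) (n := a) rfl (by omega)
  generalize hg : (fun a => Nat.findGreatest (fun K => T K ≤ a) a) = g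
  have q2 : ∀ a K : ℕ, T K ≤ a → K ≤ g a := by
    intro a K h
    rw [← hg]
    exact p2 a K h
  have q3 : ∀ a : ℕ, 1 ≤ g a → T (g a) ≤ a := by
    intro a h
    rw [← hg] at h ⊢
    exact p3 a h
  have qlt : ∀ a, a < T (g a + 1) := by
    intro a
    by_contra h
    have := q2 a (g a + 1) (not_lt.1 h)
    omega
  have hT1 : 3 ≤ T 1 := by
    have := hT (show 0 < 1 by omega)
    omega
  have hmono : Monotone g := by
    intro a b hab
    rcases Nat.eq_zero_or_pos (g a) with h | h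
    · omega
    · exact q2 b (g a) ((q3 a h).trans hab)
  refine ⟨g, hmono, q2, q3, ?_, ?_⟩
  · intro a
    by_contra hcon
    have h1 : g a + 2 ≤ g (a + 4) := by omega
    have h2 : T (g a + 2) ≤ a + 4 := (hT.monotone h1).trans (q3 (a + 4) (by omega))
    have h3 := hsq (g a)
    have h4 := qlt a
    have h5 : T 1 ≤ T (g a + 1) := hT.monotone (by omega)
    generalize T (g a + 1) = x at *
    nlinarith
  · intro m a hm hma
    have hkm := q3 m hm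
    have h9m := h9 (g m)
    have hm9 : 9 * (g m) ^ 10 ≤ m := h9m.trans hkm
    have hr : ((3 * (g m) ^ 5 : ℕ) : ℝ) ≤ √(m : ℝ) := by
      apply Real.le_sqrt_of_sq_le
      have e : ((3 * (g m) ^ 5 : ℕ) : ℝ) ^ 2 = ((9 * (g m) ^ 10 : ℕ) : ℝ) := by
        push_cast
        ring
      rw [e]
      exact_mod_cast hm9
    have hsa : √(a : ℝ) ≤ 2 * √(m : ℝ) := by linarith
    have ha4 : (a : ℝ) ≤ 4 * m := by
      have h1 : √(a : ℝ) ^ 2 ≤ (2 * √(m : ℝ)) ^ 2 :=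
        pow_le_pow_left₀ (Real.sqrt_nonneg _) hsa 2
      rw [mul_pow, Real.sq_sqrt (Nat.cast_nonneg a), Real.sq_sqrt (Nat.cast_nonneg m)] at h1
      linarith
    have ha4' : a ≤ 4 * m := by exact_mod_cast ha4
    by_contra hcon
    have h1 : g m + 2 ≤ g (a + 4) := by omega
    have h2 : T (g m + 2) ≤ a + 4 := (hT.monotone h1).trans (q3 (a + 4) (by omega))
    have h3 := hsq (g m)
    have h4 := qlt m
    have h5 : T 1 ≤ T (g m + 1) := hT.monotone (by omega)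
    have h6 := h9 1
    have h7 : 9 ≤ T 1 := by simpa using h6
    generalize T (g m + 1) = x at *
    nlinarith

theorem gfun : ∃ g : ℕ → ℕ, Monotone g ∧
    (∀ a K : ℕ, 2 ^ (2 ^ (20 * K ^ 10)) ≤ a → K ≤ g a) ∧
    (∀ a, 1 ≤ g a → 2 ^ (2 ^ (20 * (g a) ^ 10)) ≤ a) ∧ (∀ a, g (a + 4) ≤ g a + 1) ∧
    (∀ m a : ℕ, 1 ≤ g m → √(a : ℝ) - √(m : ℝ) ≤ ((3 * (g m) ^ 5 : ℕ) : ℝ) →
      g (a + 4) ≤ g m + 1) := by
  have hlt : ∀ n : ℕ, n < 2 ^ n := fun n => Nat.lt_two_pow_self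
  have hbig : ∀ K : ℕ, 20 * K ^ 10 ≤ 2 ^ (2 ^ (20 * K ^ 10)) := by
    intro K
    generalize 20 * K ^ 10 = e
    exact (hlt e).le.trans (hlt (2 ^ e)).le
  apply gfun_abs (fun K => 2 ^ (2 ^ (20 * K ^ 10)))
  · intro K K' h
    have h1 : K ^ 10 < K' ^ 10 := Nat.pow_lt_pow_left h (by omega)
    have h2 : 20 * K ^ 10 < 20 * K' ^ 10 := by omega
    show 2 ^ (2 ^ (20 * K ^ 10)) < 2 ^ (2 ^ (20 * K' ^ 10))
    generalize 20 * K ^ 10 = e at *
    generalize 20 * K' ^ 10 = e' at *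
    exact Nat.pow_lt_pow_right (by omega) (Nat.pow_lt_pow_right (by omega) h2)
  · show 2 ≤ 2 ^ (2 ^ (20 * 0 ^ 10))
    generalize (20 * 0 ^ 10 : ℕ) = e
    have h1 : 1 ≤ 2 ^ e := Nat.one_le_two_pow
    calc 2 = 2 ^ 1 := rfl
      _ ≤ 2 ^ (2 ^ e) := Nat.pow_le_pow_right (by omega) h1
  · intro K
    have h1 : K ≤ K ^ 10 := Nat.le_self_pow (by omega) K
    have h2 := hbig K
    show K ≤ 2 ^ (2 ^ (20 * K ^ 10))
    omega
  · intro K
    show (2 ^ (2 ^ (20 * (K + 1) ^ 10))) ^ 2 ≤ 2 ^ (2 ^ (20 * (K + 2) ^ 10))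
    have h1 : (K + 1) ^ 10 < (K + 2) ^ 10 := Nat.pow_lt_pow_left (by omega) (by omega)
    have h2 : 20 * (K + 1) ^ 10 + 1 ≤ 20 * (K + 2) ^ 10 := by omega
    generalize 20 * (K + 1) ^ 10 = e at *
    generalize 20 * (K + 2) ^ 10 = e' at *
    rw [← pow_mul, ← pow_succ]
    exact Nat.pow_le_pow_right (by omega) (Nat.pow_le_pow_right (by omega) h2)
  · intro k
    have h2 := hbig k
    show 9 * k ^ 10 ≤ 2 ^ (2 ^ (20 * k ^ 10))
    omega

theorem Marked.mono {L L' v : ℕ} (h : Marked L v) (hL : L ≤ L') : Marked L' v := by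
  obtain ⟨s, h1, h2, h3⟩ := h
  exact ⟨s, h1, h2.trans hL, h3⟩

theorem Bad.mono {L L' v : ℕ} (h : Bad L v) (hL : L ≤ L') : Bad L' v := by
  rcases h with ⟨s, t, h1, h2, h3, h4⟩ | ⟨h1, h2⟩ | ⟨h1, h2⟩
  · exact Or.inl ⟨s, t, h1, h2, h3.trans hL, h4⟩
  · exact Or.inr (Or.inl ⟨h1.mono hL, h2.mono hL⟩)
  · exact Or.inr (Or.inr ⟨h1.mono hL, h2.mono hL⟩)

/-- far windows are 3-colourable -/
theorem window_good (k : ℕ) (hk : 1 ≤ k) (S : Finset ℕ)
    (hS : ∀ a ∈ S, 2 ^ (2 ^ (20 * k ^ 10)) ≤ a)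
    (hwin : ∀ a ∈ S, ∀ b ∈ S, √(b : ℝ) - √(a : ℝ) ≤ ((3 * k ^ 5 : ℕ) : ℝ)) : Good 3 S := by
  obtain ⟨N, hN⟩ : ∃ N, N = 2 ^ (2 ^ (20 * k ^ 10)) := ⟨_, rfl⟩
  obtain ⟨D, hD⟩ : ∃ D, D = 3 * k ^ 5 := ⟨_, rfl⟩
  obtain ⟨L, hL⟩ : ∃ L, L = D ^ 2 := ⟨_, rfl⟩
  obtain ⟨B, hB⟩ : ∃ B, B = 2 * (((L + 1) ^ 2 + 1) * (L + 2)) + 1 := ⟨_, rfl⟩
  have hnum := num k L _ B hk (by rw [hL, hD]; ring) rfl hB
  rw [← hN] at hnum hS
  rw [← hD] at hwin
  refine good_of_colorable (by norm_num) (Pool.Agent.Lib.MP_d91fe8_nt.Windows.window D L B hL hB S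
    (fun a ha => ?_) hwin)
  have := hS a ha
  omega

/-- far windows in the classes `0, 3 mod 4` are 2-colourable -/
theorem window_good2 (k : ℕ) (hk : 1 ≤ k) (S : Finset ℕ)
    (hS : ∀ a ∈ S, 2 ^ (2 ^ (20 * k ^ 10)) ≤ a) (h4 : ∀ a ∈ S, a % 4 = 0 ∨ a % 4 = 3)
    (hwin : ∀ a ∈ S, ∀ b ∈ S, √(b : ℝ) - √(a : ℝ) ≤ ((3 * k ^ 5 : ℕ) : ℝ)) : Good 2 S := by
  obtain ⟨N, hN⟩ : ∃ N, N = 2 ^ (2 ^ (20 * k ^ 10)) := ⟨_, rfl⟩
  obtain ⟨D, hD⟩ : ∃ D, D = 3 * k ^ 5 := ⟨_, rfl⟩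
  obtain ⟨L, hL⟩ : ∃ L, L = D ^ 2 := ⟨_, rfl⟩
  obtain ⟨B, hB⟩ : ∃ B, B = 2 * (((L + 1) ^ 2 + 1) * (L + 2)) + 1 := ⟨_, rfl⟩
  have hnum := num k L _ B hk (by rw [hL, hD]; ring) rfl hB
  rw [← hN] at hnum hS
  rw [← hD] at hwin
  refine good_of_colorable (by norm_num) (Pool.Agent.Lib.MP_d91fe8_nt.Windows.bip D L B hL hB S
    (fun a ha => ?_) h4 hwin)
  have := hS a ha
  omega

/-- there are few bad numbers in a far window -/
theorem window_count (k : ℕ) (hk : 1 ≤ k) (T : Finset ℕ)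
    (hT : ∀ v ∈ T, 2 ^ (2 ^ (20 * k ^ 10)) ≤ v ∧ Bad (k ^ 2) v)
    (hwin : ∀ a ∈ T, ∀ b ∈ T, √(b : ℝ) - √(a : ℝ) ≤ ((3 * k ^ 5 : ℕ) : ℝ)) :
    T.card ≤ 3 * k ^ 4 := by
  obtain ⟨N, hN⟩ : ∃ N, N = 2 ^ (2 ^ (20 * k ^ 10)) := ⟨_, rfl⟩
  obtain ⟨D, hD⟩ : ∃ D, D = 3 * k ^ 5 := ⟨_, rfl⟩
  obtain ⟨P, hP⟩ : ∃ P, P = k ^ 2 + 2 * D := ⟨_, rfl⟩
  have hnum := num k _ P _ hk rfl (by rw [hP, hD]; ring) rfl
  rw [← hN] at hnum hT
  rw [← hD] at hwin
  obtain ⟨N₁, hN₁⟩ : ∃ N₁, N₁ = P ^ 5 * (2 * P ^ 2 + P) + 1 := ⟨_, rfl⟩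
  rw [← hN₁] at hnum
  have h := count (k ^ 2) P N₁ (by omega) (by omega) (turnG P N₁ (by omega)) T
    (fun v hv => ⟨by have := (hT v hv).1; omega, (hT v hv).2⟩) D (by omega) hwin
  calc T.card ≤ 3 * (k ^ 2) ^ 2 := h
    _ = 3 * k ^ 4 := by ring

/-- sets of bad numbers are good -/
theorem bad_good (g : ℕ → ℕ) (hmono : Monotone g)
    (hT : ∀ a, 1 ≤ g a → 2 ^ (2 ^ (20 * (g a) ^ 10)) ≤ a)
    (hgw : ∀ m a : ℕ, 1 ≤ g m → √(a : ℝ) - √(m : ℝ) ≤ ((3 * (g m) ^ 5 : ℕ) : ℝ) →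
      g (a + 4) ≤ g m + 1) (c : ℕ) (hc : 0 < c) (S : Finset ℕ)
    (hS : ∀ a ∈ S, 1 ≤ g a ∧ Bad ((g (a + 4) - 1) ^ 2) a)
    (hedge : ∀ a ∈ S, ∀ b ∈ S, a < b → IsSquare (a * b + 1) →
      √(b : ℝ) - √(a : ℝ) + 1 ≤ g a)
    (hwg : ∀ k : ℕ, 1 ≤ k → ∀ A ⊆ S, (∀ a ∈ A, 2 ^ (2 ^ (20 * k ^ 10)) ≤ a) →
      (∀ a ∈ A, ∀ b ∈ A, √(b : ℝ) - √(a : ℝ) ≤ ((3 * k ^ 5 : ℕ) : ℝ)) → Good c A) :
    Good c S := by
  classical
  induction hn : S.card using Nat.strong_induction_on generalizing S with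
  | _ n ih =>
    rcases S.eq_empty_or_nonempty with he | hne
    · subst he
      exact ⟨fun _ => ⟨0, hc⟩, fun a ha => absurd ha (Finset.notMem_empty a)⟩
    · have hm := S.min'_mem hne
      have hmin : ∀ a ∈ S, S.min' hne ≤ a := fun a ha => S.min'_le a ha
      generalize S.min' hne = m at hm hmin
      obtain ⟨k, hk⟩ : ∃ k, k = g m := ⟨_, rfl⟩
      have hk1 : 1 ≤ k := by rw [hk]; exact (hS m hm).1
      have hTk : 2 ^ (2 ^ (20 * k ^ 10)) ≤ m := by rw [hk]; exact hT m (hS m hm).1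
      have hsm : ∀ a ∈ S, √(m : ℝ) ≤ √(a : ℝ) := fun a ha =>
        Real.sqrt_le_sqrt (by exact_mod_cast hmin a ha)
      have hg : ∀ a : ℕ, √(a : ℝ) - √(m : ℝ) ≤ ((3 * k ^ 5 : ℕ) : ℝ) → g (a + 4) ≤ k + 1 := by
        intro a ha
        rw [hk] at ha ⊢
        exact hgw m a (hk ▸ hk1) ha
      set S' : Finset ℕ := S.filter fun a : ℕ => √(a : ℝ) - √(m : ℝ) ≤ ((3 * k ^ 5 : ℕ) : ℝ)
        with hS'
      have hSm : ∀ {a : ℕ}, a ∈ S' ↔ a ∈ S ∧ √(a : ℝ) - √(m : ℝ) ≤ ((3 * k ^ 5 : ℕ) : ℝ) := by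
        intro a; rw [hS', Finset.mem_filter]
      have hm' : m ∈ S' := hSm.2 ⟨hm, by rw [sub_self]; exact Nat.cast_nonneg _⟩
      obtain ⟨i, hiC, hi⟩ := chain_gap k (3 * k ^ 4) S' m hm' (fun a ha => hmin a (hSm.1 ha).1)
        (fun T hTS hwin => by
          refine window_count k hk1 T (fun v hv => ?_) (fun a ha b hb => ?_)
          · have h1 := hSm.1 (hTS hv)
            refine ⟨hTk.trans (hmin v h1.1), (hS v h1.1).2.mono ?_⟩
            have h2 := hg v h1.2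
            exact Nat.pow_le_pow_left (by omega) 2
          · have h1 := hwin a ha b hb
            have h2 : 3 * k ^ 4 * k = 3 * k ^ 5 := by ring
            rwa [h2] at h1)
      have K0 : (1 : ℝ) ≤ k := by exact_mod_cast hk1
      have hi1 : ((i : ℝ) + 1) * k ≤ ((3 * k ^ 5 : ℕ) : ℝ) := by
        have h1 : (i + 1) * k ≤ 3 * k ^ 5 := by
          calc (i + 1) * k ≤ (3 * k ^ 4) * k := Nat.mul_le_mul_right _ hiC
            _ = 3 * k ^ 5 := by ring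
        exact_mod_cast h1
      have hik : (i : ℝ) * k ≤ ((3 * k ^ 5 : ℕ) : ℝ) := by
        have : (i : ℝ) * k ≤ ((i : ℝ) + 1) * k := by linarith
        exact this.trans hi1
      set A : Finset ℕ := S.filter fun a : ℕ => √(a : ℝ) - √(m : ℝ) ≤ (i : ℝ) * k with hA
      set B : Finset ℕ := S.filter fun a : ℕ => ¬ √(a : ℝ) - √(m : ℝ) ≤ (i : ℝ) * k with hB
      have hAm : ∀ {a : ℕ}, a ∈ A ↔ a ∈ S ∧ √(a : ℝ) - √(m : ℝ) ≤ (i : ℝ) * k := by
        intro a; rw [hA, Finset.mem_filter]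
      have hBm : ∀ {a : ℕ}, a ∈ B ↔ a ∈ S ∧ ¬ √(a : ℝ) - √(m : ℝ) ≤ (i : ℝ) * k := by
        intro a; rw [hB, Finset.mem_filter]
      have gA : Good c A := by
        refine hwg k hk1 A (fun a ha => (hAm.1 ha).1)
          (fun a ha => hTk.trans (hmin a (hAm.1 ha).1)) ?_
        intro a ha b hb
        have h1 := hsm a (hAm.1 ha).1
        have h2 := (hAm.1 hb).2
        linarith
      have hBS : B ⊆ S := fun a ha => (hBm.1 ha).1
      have hmB : m ∉ B := by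
        intro h
        apply (hBm.1 h).2
        rw [sub_self]
        exact mul_nonneg (Nat.cast_nonneg i) (by linarith)
      have hlt : B.card < n := by
        rw [← hn]
        exact Finset.card_lt_card ⟨hBS, fun h => hmB (h hm)⟩
      have gB : Good c B := ih B.card hlt B (fun a ha => hS a (hBS ha))
        (fun a ha b hb => hedge a (hBS ha) b (hBS hb))
        (fun k hk A hA => hwg k hk A (hA.trans hBS)) rfl
      obtain ⟨fA, hfA⟩ := gA
      obtain ⟨fB, hfB⟩ := gB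
      have cross : ∀ a ∈ A, ∀ b ∈ B, IsSquare (a * b + 1) → False := by
        intro a ha b hb hsq
        have h1 := (hAm.1 ha).2
        have h2 := lt_of_not_ge (hBm.1 hb).2
        have hab : a < b := by
          have h3 : √(a : ℝ) < √(b : ℝ) := by linarith
          rw [Real.sqrt_lt_sqrt_iff (Nat.cast_nonneg _)] at h3
          exact_mod_cast h3
        have h4 := hedge a (hAm.1 ha).1 b (hBS hb) hab hsq
        have h5 : g a ≤ k + 1 := (hmono (by omega)).trans (hg a (h1.trans hik))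
        have h6 : (g a : ℝ) ≤ k + 1 := by exact_mod_cast h5
        have h7 : ((i : ℝ) + 1) * k < √(b : ℝ) - √(m : ℝ) := by
          by_cases h8 : b ∈ S'
          · exact hi b h8 h2
          · have h9 : ¬ √(b : ℝ) - √(m : ℝ) ≤ ((3 * k ^ 5 : ℕ) : ℝ) := fun h =>
              h8 (hSm.2 ⟨hBS hb, h⟩)
            linarith [lt_of_not_ge h9]
        have h10 : ((i : ℝ) + 1) * k = i * k + k := by ring
        linarith
      refine ⟨fun a : ℕ => if √(a : ℝ) - √(m : ℝ) ≤ (i : ℝ) * k then fA a else fB a, ?_⟩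
      intro a ha b hb hab hsq
      by_cases h1 : √(a : ℝ) - √(m : ℝ) ≤ (i : ℝ) * k
      · by_cases h2 : √(b : ℝ) - √(m : ℝ) ≤ (i : ℝ) * k
        · simp only [if_pos h1, if_pos h2]
          exact hfA a (hAm.2 ⟨ha, h1⟩) b (hAm.2 ⟨hb, h2⟩) hab hsq
        · exact (cross a (hAm.2 ⟨ha, h1⟩) b (hBm.2 ⟨hb, h2⟩) hsq).elim
      · by_cases h2 : √(b : ℝ) - √(m : ℝ) ≤ (i : ℝ) * k
        · exact (cross b (hAm.2 ⟨hb, h2⟩) a (hBm.2 ⟨ha, h1⟩)
            (by rw [mul_comm]; exact hsq)).elim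
        · simp only [if_neg h1, if_neg h2]
          exact hfB a (hBm.2 ⟨ha, h1⟩) b (hBm.2 ⟨hb, h2⟩) hab hsq

/-- a class of numbers in which a number has at most one neighbour of a given label -/
structure Thin (p : ℕ → Prop) : Prop where
  mod : ∀ a, p a → a % 4 = 0 ∨ a % 4 = 3
  two : ∀ a, p a → p (a + 2) → False
  one : ∀ v s q y z, p v → p y → p z → s * v + 1 = q ^ 2 → y = v + s + 2 * q →
    v + s = z + 2 * q → False

theorem thin_eight (r : ℕ) (hr : r % 4 = 0) : Thin fun a => a % 8 = r % 8 := by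
  refine ⟨fun a ha => by omega, fun a h1 h2 => by omega, ?_⟩
  intro v s q y z hv hy hz h1 h2 h3
  have hodd : q % 2 = 1 := by
    rcases Nat.mod_two_eq_zero_or_one q with h | h
    · exfalso
      obtain ⟨j, rfl⟩ : 2 ∣ q := Nat.dvd_of_mod_eq_zero h
      obtain ⟨w, rfl⟩ : 4 ∣ v := Nat.dvd_of_mod_eq_zero (by omega)
      have e1 : s * (4 * w) = 4 * (s * w) := by ring
      have e2 : (2 * j) ^ 2 = 4 * j ^ 2 := by ring
      omega
    · exact h
  omega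

theorem thin_twelve : Thin fun a => a % 12 = 0 ∨ a % 12 = 3 := by
  refine ⟨fun a ha => by omega, fun a h1 h2 => by omega, ?_⟩
  intro v s q y z hv hy hz h1 h2 h3
  have hq : q % 3 ≠ 0 := by
    intro h
    obtain ⟨j, rfl⟩ : 3 ∣ q := Nat.dvd_of_mod_eq_zero h
    obtain ⟨w, rfl⟩ : 3 ∣ v := Nat.dvd_of_mod_eq_zero (by omega)
    have e1 : s * (3 * w) = 3 * (s * w) := by ring
    have e2 : (3 * j) ^ 2 = 3 * (3 * j ^ 2) := by ring
    omega
  omega

/-- numbers that are not bad have at most one neighbour in their thin class -/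
theorem deg_class {p : ℕ → Prop} (hp : Thin p) {K L v : ℕ} (hKL : K ^ 2 ≤ L) (hv : 0 < v)
    (hpv : p v) (hb : ¬ Bad L v)
    (N : Finset ℕ) (hN : ∀ y ∈ N, 0 < y ∧ y ≠ v ∧ IsSquare (v * y + 1) ∧
      √(v : ℝ) - √(y : ℝ) ≤ K ∧ √(y : ℝ) - √(v : ℝ) ≤ K) (hpN : ∀ y ∈ N, p y) :
    N.card < 2 := by
  refine Nat.lt_succ_of_le (Finset.card_le_one.2 fun y hy z hz => ?_)
  obtain ⟨g1, g2, g3, g4, g5⟩ := hN y hy
  obtain ⟨s, q, h1, h2, h3⟩ := neighbour hKL hv g1 g2 g3 g4 g5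
  obtain ⟨k1, k2, k3, k4, k5⟩ := hN z hz
  obtain ⟨t, r, l1, l2, l3⟩ := neighbour hKL hv k1 k2 k3 k4 k5
  have hy8 := hpN y hy
  have hz8 := hpN z hz
  have hzero : ∀ w q : ℕ, p w → 0 * v + 1 = q ^ 2 → (w = v + 0 + 2 * q ∨ v + 0 = w + 2 * q) →
      False := by
    intro w q hw hq h
    have hq1 : q = 1 := by
      have : q ^ 2 = 1 := by omega
      nlinarith
    subst hq1
    rcases h with h | h
    · have : w = v + 2 := by omega
      subst this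
      exact hp.two v hpv hw
    · have : v = w + 2 := by omega
      subst this
      exact hp.two w hw hpv
  have hs0 : s ≠ 0 := by
    rintro rfl
    exact hzero y q hy8 h2 h3
  have ht0 : t ≠ 0 := by
    rintro rfl
    exact hzero z r hz8 l2 l3
  have hst : s = t := by
    by_contra hne
    apply hb
    refine Or.inl ?_
    rcases lt_or_gt_of_ne hne with h | h
    · exact ⟨s, t, by omega, h, l1, ⟨q, by rw [h2, sq]⟩, ⟨r, by rw [l2, sq]⟩⟩
    · exact ⟨t, s, by omega, h, h1, ⟨r, by rw [l2, sq]⟩, ⟨q, by rw [h2, sq]⟩⟩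
  subst hst
  have hqr : q = r := by
    have h5 : q ^ 2 = r ^ 2 := by rw [← h2, l2]
    exact Nat.pow_left_injective (n := 2) (by norm_num) h5
  subst hqr
  rcases h3 with h3 | h3 <;> rcases l3 with l3 | l3
  · omega
  · exact (hp.one v s q y z hpv hy8 hz8 h2 h3 l3).elim
  · exact (hp.one v s q z y hpv hz8 hy8 h2 l3 h3).elim
  · omega

/-- the shortness of the edges from `a`, and what it gives at both ends -/
theorem both_ends (g : ℕ → ℕ) (hmono : Monotone g)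
    (hg2 : ∀ a, 1 ≤ g a → 2 ^ (2 ^ (20 * (g a) ^ 10)) ≤ a) (V : Finset ℕ)
    (hedge : ∀ a ∈ V, ∀ b ∈ V, a < b → IsSquare (a * b + 1) →
      √(b : ℝ) - √(a : ℝ) + 1 ≤ g a) :
    ∀ x ∈ V, ∀ y ∈ V, y ≠ x → IsSquare (x * y + 1) → 0 < x ∧ 0 < y ∧
      √(x : ℝ) - √(y : ℝ) ≤ ((g (x + 2) - 1 : ℕ) : ℝ) ∧
      √(y : ℝ) - √(x : ℝ) ≤ ((g (x + 2) - 1 : ℕ) : ℝ) := by
  have hcast : ∀ (n : ℕ) (x : ℝ), 0 ≤ x → x + 1 ≤ n → x ≤ ((n - 1 : ℕ) : ℝ) := by
    intro n x hx h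
    have h1 : 1 ≤ n := by
      have : (1 : ℝ) ≤ n := by linarith
      exact_mod_cast this
    rw [Nat.cast_sub h1]
    push_cast
    linarith
  have hpos : ∀ a : ℕ, 1 ≤ g a → 0 < a := fun a ha =>
    lt_of_lt_of_le (by positivity) (hg2 a ha)
  have hone : ∀ {a b : ℕ}, a < b → √(b : ℝ) - √(a : ℝ) + 1 ≤ g a → 1 ≤ g a := by
    intro a b hab h
    have h1 : √(a : ℝ) ≤ √(b : ℝ) := Real.sqrt_le_sqrt (by exact_mod_cast hab.le)
    have : (1 : ℝ) ≤ g a := by linarith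
    exact_mod_cast this
  intro x hx y hy hne hsq
  have h0 : (0 : ℝ) ≤ ((g (x + 2) - 1 : ℕ) : ℝ) := Nat.cast_nonneg _
  rcases lt_or_gt_of_ne hne with h | h
  · have h1 := hedge y hy x hx h (by rw [mul_comm]; exact hsq)
    have h2 := hpos y (hone h h1)
    have h3 : √(y : ℝ) ≤ √(x : ℝ) := Real.sqrt_le_sqrt (by exact_mod_cast h.le)
    have h4 : (g y : ℝ) ≤ g (x + 2) := by exact_mod_cast hmono (by omega : y ≤ x + 2)
    exact ⟨by omega, h2, hcast _ _ (by linarith) (by linarith), by linarith⟩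
  · have h1 := hedge x hx y hy h hsq
    have h2 := hpos x (hone h h1)
    have h3 : √(x : ℝ) ≤ √(y : ℝ) := Real.sqrt_le_sqrt (by exact_mod_cast h.le)
    have h4 : (g x : ℝ) ≤ g (x + 2) := by exact_mod_cast hmono (by omega : x ≤ x + 2)
    exact ⟨h2, by omega, by linarith, hcast _ _ (by linarith) (by linarith)⟩

/-- bad numbers with a neighbour are far -/
theorem bad_far (g : ℕ → ℕ) (hg3 : ∀ a, g (a + 4) ≤ g a + 1) {a : ℕ}
    (h : Bad ((g (a + 4) - 1) ^ 2) a) : 1 ≤ g a := by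
  have h3 : g (a + 4) - 1 ≠ 0 := by
    intro h0
    rw [h0] at h
    rcases h with ⟨s, t, h1, h2, h3, -⟩ | ⟨⟨s, h1, h2, -⟩, -⟩ | ⟨⟨s, h1, h2, -⟩, -⟩ <;> omega
  have h5 := hg3 a
  omega

/-- sets in a thin class with short edges are 2-colourable -/
theorem class_good {p : ℕ → Prop} (hp : Thin p) (V : Finset ℕ) (hVr : ∀ a ∈ V, p a)
    (hV : ∀ a ∈ V, ∀ b ∈ V, a < b → IsSquare (a * b + 1) →
      ∃ K : ℕ, 2 ^ (2 ^ (20 * K ^ 10)) ≤ a ∧ √(b : ℝ) - √(a : ℝ) + 1 ≤ K) : Good 2 V := by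
  classical
  obtain ⟨g, hmono, hg1, hg2, hg3, hg4⟩ := gfun
  have hedge : ∀ a ∈ V, ∀ b ∈ V, a < b → IsSquare (a * b + 1) →
      √(b : ℝ) - √(a : ℝ) + 1 ≤ g a := by
    intro a ha b hb hab hsq
    obtain ⟨K, h1, h2⟩ := hV a ha b hb hab hsq
    have h3 : (K : ℝ) ≤ g a := by exact_mod_cast hg1 a K h1
    exact h2.trans h3
  have hab := both_ends g hmono hg2 V hedge
  obtain ⟨B, hB⟩ : ∃ B, B = V.filter fun v => Bad ((g (v + 4) - 1) ^ 2) v := ⟨_, rfl⟩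
  have hBV : ∀ {a}, a ∈ B ↔ a ∈ V ∧ Bad ((g (a + 4) - 1) ^ 2) a := by
    intro a
    rw [hB, Finset.mem_filter]
  have h24 : ∀ {a b : ℕ}, a ≤ b → (g a - 1) ^ 2 ≤ (g b - 1) ^ 2 := by
    intro a b h
    have := hmono h
    exact Nat.pow_le_pow_left (by omega) 2
  have hgood : Good 2 B := by
    refine bad_good g hmono hg2 hg4 2 (by norm_num) B
      (fun a ha => ⟨bad_far g hg3 (hBV.1 ha).2, (hBV.1 ha).2⟩)
      (fun a ha b hb => hedge a (hBV.1 ha).1 b (hBV.1 hb).1)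
      (fun k hk A hA h1 h2 => window_good2 k hk A h1
        (fun a ha => hp.mod a (hVr a (hBV.1 (hA ha)).1)) h2)
  have h1 : V = B ∪ (V \ B) := by
    rw [Finset.union_sdiff_of_subset]
    intro a ha
    exact (hBV.1 ha).1
  rw [h1]
  refine ext 2 B (V \ B) hgood fun x hx N hN => ?_
  rw [← h1] at hN
  obtain ⟨hxV, hxB⟩ := Finset.mem_sdiff.1 hx
  rcases N.eq_empty_or_nonempty with he | ⟨y₀, hy₀⟩
  · rw [he]
    simp
  have hx0 : 0 < x := (hab x hxV y₀ (hN y₀ hy₀).1 (hN y₀ hy₀).2.1 (hN y₀ hy₀).2.2).1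
  refine deg_class hp (K := g (x + 2) - 1) (L := (g (x + 4) - 1) ^ 2) (h24 (by omega)) hx0
    (hVr x hxV) (fun hb => hxB (hBV.2 ⟨hxV, hb⟩)) N (fun y hy => ?_)
    (fun y hy => hVr y (hN y hy).1)
  obtain ⟨h3, h4, h5⟩ := hN y hy
  obtain ⟨-, h6, h7, h8⟩ := hab x hxV y h3 h4 h5
  exact ⟨h6, h4, h5, h7, h8⟩

/-- sets with short edges are 3-colourable -/
theorem all_good (V : Finset ℕ) (hV : ∀ a ∈ V, ∀ b ∈ V, a < b → IsSquare (a * b + 1) →
      ∃ K : ℕ, 2 ^ (2 ^ (20 * K ^ 10)) ≤ a ∧ √(b : ℝ) - √(a : ℝ) + 1 ≤ K) : Good 3 V := by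
  classical
  obtain ⟨g, hmono, hg1, hg2, hg3, hg4⟩ := gfun
  have hedge : ∀ a ∈ V, ∀ b ∈ V, a < b → IsSquare (a * b + 1) →
      √(b : ℝ) - √(a : ℝ) + 1 ≤ g a := by
    intro a ha b hb hab hsq
    obtain ⟨K, h1, h2⟩ := hV a ha b hb hab hsq
    have h3 : (K : ℝ) ≤ g a := by exact_mod_cast hg1 a K h1
    exact h2.trans h3
  have hab := both_ends g hmono hg2 V hedge
  -- the marked and the bad elements
  obtain ⟨M, hM⟩ : ∃ M, M = V.filter fun v => Marked ((g (v + 2) - 1) ^ 2) v := ⟨_, rfl⟩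
  obtain ⟨B, hB⟩ : ∃ B, B = M.filter fun v => Bad ((g (v + 4) - 1) ^ 2) v := ⟨_, rfl⟩
  have hMV : ∀ {a}, a ∈ M ↔ a ∈ V ∧ Marked ((g (a + 2) - 1) ^ 2) a := by
    intro a
    rw [hM, Finset.mem_filter]
  have hBM : ∀ {a}, a ∈ B ↔ a ∈ M ∧ Bad ((g (a + 4) - 1) ^ 2) a := by
    intro a
    rw [hB, Finset.mem_filter]
  have h24 : ∀ {a b : ℕ}, a ≤ b → (g a - 1) ^ 2 ≤ (g b - 1) ^ 2 := by
    intro a b h
    have := hmono h
    exact Nat.pow_le_pow_left (by omega) 2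
  have hgood : Good 3 B := bad_good g hmono hg2 hg4 3 (by norm_num) B
    (fun a ha => ⟨bad_far g hg3 (hBM.1 ha).2, (hBM.1 ha).2⟩)
    (fun a ha b hb => hedge a (hMV.1 (hBM.1 ha).1).1 b (hMV.1 (hBM.1 hb).1).1)
    (fun k hk A _ h1 h2 => window_good k hk A h1 h2)
  have hgoodM : Good 3 M := by
    have h1 : M = B ∪ (M \ B) := by
      rw [Finset.union_sdiff_of_subset]
      intro a ha
      exact (hBM.1 ha).1
    rw [h1]
    refine ext 3 B (M \ B) hgood fun x hx N hN => Nat.lt_succ_of_le ?_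
    rw [← h1] at hN
    obtain ⟨hxM, hxB⟩ := Finset.mem_sdiff.1 hx
    have hxV := (hMV.1 hxM).1
    rcases N.eq_empty_or_nonempty with he | ⟨y₀, hy₀⟩
    · rw [he]
      simp
    have hx0 : 0 < x :=
      (hab x hxV y₀ (hMV.1 (hN y₀ hy₀).1).1 (hN y₀ hy₀).2.1 (hN y₀ hy₀).2.2).1
    refine deg_marked (K := g (x + 2) - 1) (L := (g (x + 4) - 1) ^ 2) (h24 (by omega)) hx0
      ((hMV.1 hxM).2.mono (h24 (by omega))) (fun hb => hxB (hBM.2 ⟨hxM, hb⟩)) N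
      (fun y hy => ?_) (fun y hy hyx => (hMV.1 (hN y hy).1).2.mono (h24 (by omega)))
    obtain ⟨h3, h4, h5⟩ := hN y hy
    obtain ⟨-, h6, h7, h8⟩ := hab x hxV y (hMV.1 h3).1 h4 h5
    exact ⟨h6, h4, h5, h7, h8⟩
  have h1 : V = M ∪ (V \ M) := by
    rw [Finset.union_sdiff_of_subset]
    intro a ha
    exact (hMV.1 ha).1
  rw [h1]
  refine ext 3 M (V \ M) hgoodM fun x hx N hN => Nat.lt_succ_of_le ?_
  rw [← h1] at hN
  obtain ⟨hxV, hxM⟩ := Finset.mem_sdiff.1 hx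
  rcases N.eq_empty_or_nonempty with he | ⟨y₀, hy₀⟩
  · rw [he]
    simp
  have hx0 : 0 < x := (hab x hxV y₀ (hN y₀ hy₀).1 (hN y₀ hy₀).2.1 (hN y₀ hy₀).2.2).1
  refine deg_unmarked (K := g (x + 2) - 1) (L := (g (x + 2) - 1) ^ 2) le_rfl hx0
    (fun hm => hxM (hMV.2 ⟨hxV, hm⟩)) N (fun y hy => ?_)
  obtain ⟨h3, h4, h5⟩ := hN y hy
  obtain ⟨-, h6, h7, h8⟩ := hab x hxV y h3 h4 h5
  exact ⟨h6, h4, h5, h7, h8⟩

/-- five colours, when the edges inside the classes `0` and `4` modulo 8 are short -/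
theorem five_good (V : Finset ℕ) (hV : ∀ a ∈ V, ∀ b ∈ V, a < b → 4 ∣ a → a % 8 = b % 8 →
      IsSquare (a * b + 1) →
      ∃ K : ℕ, 2 ^ (2 ^ (20 * K ^ 10)) ≤ a ∧ √(b : ℝ) - √(a : ℝ) + 1 ≤ K) : Good 5 V := by
  classical
  have hcl : ∀ r : ℕ, r % 4 = 0 → Good 2 (V.filter fun a => a % 8 = r % 8) := by
    intro r hr
    refine class_good (thin_eight r hr) _ (fun a ha => (Finset.mem_filter.1 ha).2) ?_
    intro a ha b hb hab hsq
    obtain ⟨ha1, ha2⟩ := Finset.mem_filter.1 ha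
    obtain ⟨hb1, hb2⟩ := Finset.mem_filter.1 hb
    exact hV a ha1 b hb1 hab (by omega) (by omega) hsq
  obtain ⟨f, hf⟩ := hcl 4 (by norm_num)
  obtain ⟨h, hh⟩ := hcl 0 (by norm_num)
  let c : ℕ → ℕ := fun a =>
    if a % 4 = 1 ∨ a % 4 = 2 then 0 else if a % 4 = 3 then 1 else if a % 8 = 4 then 1 + (f a).val
    else 3 + (h a).val
  have hcv : ∀ a, (c a = 0 ∧ (a % 4 = 1 ∨ a % 4 = 2)) ∨ (c a = 1 ∧ a % 4 = 3) ∨
      (c a = 1 + (f a).val ∧ a % 8 = 4) ∨ (c a = 3 + (h a).val ∧ a % 8 = 0) := by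
    intro a
    simp only [c]
    split_ifs <;> omega
  have hlt : ∀ a, c a < 5 := by
    intro a
    have h1 := (f a).isLt
    have h2 := (h a).isLt
    rcases hcv a with ⟨h3, -⟩ | ⟨h3, -⟩ | ⟨h3, -⟩ | ⟨h3, -⟩ <;> omega
  refine ⟨fun a => ⟨c a, hlt a⟩, fun a ha b hb hab hsq he => ?_⟩
  have he' : c a = c b := Fin.mk.inj_iff.1 he
  have f1 := (f a).isLt
  have f2 := (h a).isLt
  have f3 := (f b).isLt
  have f4 := (h b).isLt
  rcases hcv a with ⟨a1, a2⟩ | ⟨a1, a2⟩ | ⟨a1, a2⟩ | ⟨a1, a2⟩ <;>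
    rcases hcv b with ⟨b1, b2⟩ | ⟨b1, b2⟩ | ⟨b1, b2⟩ | ⟨b1, b2⟩ <;>
    rw [a1, b1] at he'
  · exact Pool.Agent.Lib.MP_d91fe8_nt.Windows.not_adj_one_two a2 b2 hsq
  · omega
  · omega
  · omega
  · omega
  · exact Pool.Agent.Lib.MP_d91fe8_nt.Windows.not_sq_four
      (by simp [Nat.add_mod, Nat.mul_mod, a2, b2]) hsq
  · refine Pool.Agent.Lib.MP_d91fe8_nt.Windows.not_sq_eight ?_ hsq
    have h8 : a % 8 = 3 ∨ a % 8 = 7 := by omega
    rcases h8 with h8 | h8 <;> simp [Nat.add_mod, Nat.mul_mod, h8, b2]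
  · omega
  · omega
  · refine Pool.Agent.Lib.MP_d91fe8_nt.Windows.not_sq_eight ?_ hsq
    have h8 : b % 8 = 3 ∨ b % 8 = 7 := by omega
    rcases h8 with h8 | h8 <;> simp [Nat.add_mod, Nat.mul_mod, h8, a2]
  · exact hf a (Finset.mem_filter.2 ⟨ha, a2⟩) b (Finset.mem_filter.2 ⟨hb, b2⟩) hab hsq
      (Fin.ext (by omega))
  · omega
  · omega
  · omega
  · omega
  · exact hh a (Finset.mem_filter.2 ⟨ha, a2⟩) b (Finset.mem_filter.2 ⟨hb, b2⟩) hab hsq
      (Fin.ext (by omega))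

/-- a square is not `2` modulo three -/
theorem not_sq_three {n : ℕ} (h : n % 3 = 2) : ¬ IsSquare n := by
  rintro ⟨r, rfl⟩
  have h1 : r % 3 = 0 ∨ r % 3 = 1 ∨ r % 3 = 2 := by omega
  rcases h1 with h1 | h1 | h1 <;> simp [Nat.mul_mod, h1] at h

/-- five colours, when the edges inside the classes `0` and `3` modulo 12 are short -/
theorem five_good' (V : Finset ℕ) (hV : ∀ a ∈ V, ∀ b ∈ V, a < b → (a % 12 = 0 ∨ a % 12 = 3) →
      (b % 12 = 0 ∨ b % 12 = 3) → IsSquare (a * b + 1) →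
      ∃ K : ℕ, 2 ^ (2 ^ (20 * K ^ 10)) ≤ a ∧ √(b : ℝ) - √(a : ℝ) + 1 ≤ K) : Good 5 V := by
  classical
  have hcl : Good 2 (V.filter fun a => a % 12 = 0 ∨ a % 12 = 3) := by
    refine class_good thin_twelve _ (fun a ha => (Finset.mem_filter.1 ha).2) ?_
    intro a ha b hb hab hsq
    obtain ⟨ha1, ha2⟩ := Finset.mem_filter.1 ha
    obtain ⟨hb1, hb2⟩ := Finset.mem_filter.1 hb
    exact hV a ha1 b hb1 hab ha2 hb2 hsq
  obtain ⟨f, hf⟩ := hcl
  let c : ℕ → ℕ := fun a =>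
    if a % 3 = 1 then 0 else if a % 3 = 2 then 1 else if a % 4 = 1 ∨ a % 4 = 2 then 2
    else 3 + (f a).val
  have hcv : ∀ a, (c a = 0 ∧ a % 3 = 1) ∨ (c a = 1 ∧ a % 3 = 2) ∨
      (c a = 2 ∧ (a % 4 = 1 ∨ a % 4 = 2)) ∨
      (c a = 3 + (f a).val ∧ (a % 12 = 0 ∨ a % 12 = 3)) := by
    intro a
    simp only [c]
    split_ifs <;> omega
  have hlt : ∀ a, c a < 5 := by
    intro a
    have h1 := (f a).isLt
    rcases hcv a with ⟨h3, -⟩ | ⟨h3, -⟩ | ⟨h3, -⟩ | ⟨h3, -⟩ <;> omega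
  refine ⟨fun a => ⟨c a, hlt a⟩, fun a ha b hb hab hsq he => ?_⟩
  have he' : c a = c b := Fin.mk.inj_iff.1 he
  rcases hcv a with ⟨a1, a2⟩ | ⟨a1, a2⟩ | ⟨a1, a2⟩ | ⟨a1, a2⟩ <;>
    rcases hcv b with ⟨b1, b2⟩ | ⟨b1, b2⟩ | ⟨b1, b2⟩ | ⟨b1, b2⟩ <;>
    rw [a1, b1] at he'
  · exact not_sq_three (by simp [Nat.add_mod, Nat.mul_mod, a2, b2]) hsq
  · omega
  · omega
  · omega
  · omega
  · exact not_sq_three (by simp [Nat.add_mod, Nat.mul_mod, a2, b2]) hsq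
  · omega
  · omega
  · omega
  · omega
  · exact Pool.Agent.Lib.MP_d91fe8_nt.Windows.not_adj_one_two a2 b2 hsq
  · omega
  · omega
  · omega
  · omega
  · exact hf a (Finset.mem_filter.2 ⟨ha, a2⟩) b (Finset.mem_filter.2 ⟨hb, b2⟩) hab hsq
      (Fin.ext (by omega))

end Pool.Agent.Lib.MP_d91fe8_nt.Short
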