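import Pool.Agent.Lib.MP_d91fe8_nt.Short

/-!
# MP_d91fe8_nt: short edges, for a relation

The 2-colourings of thin classes, when only the short edges have to be coloured.
-/

namespace Pool.Agent.Lib.MP_d91fe8_nt.ShortR

open Pool.Agent.Lib.MP_d91fe8_nt.Short

/-- `k` colours suffice for the pairs in `R` -/
def GoodR (R : ℕ → ℕ → Prop) (k : ℕ) (S : Finset ℕ) : Prop :=
  ∃ f : ℕ → Fin k, ∀ a ∈ S, ∀ b ∈ S, a ≠ b → R a b → f a ≠ f b

theorem toR {k : ℕ} {S : Finset ℕ} (h : Good k S) (R : ℕ → ℕ → Prop)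
    (hR : ∀ a b, R a b → IsSquare (a * b + 1)) : GoodR R k S := by
  obtain ⟨f, hf⟩ := h
  exact ⟨f, fun a ha b hb hab h => hf a ha b hb hab (hR a b h)⟩

/-- vertices with fewer than `k` neighbours do not matter -/
theorem extR (R : ℕ → ℕ → Prop) (hsym : ∀ a b, R a b → R b a) (k : ℕ) (S X : Finset ℕ)
    (hS : GoodR R k S)
    (hX : ∀ x ∈ X, ∀ N : Finset ℕ,
      (∀ y ∈ N, y ∈ S ∪ X ∧ y ≠ x ∧ R x y) → N.card < k) :
    GoodR R k (S ∪ X) := by
  classical
  induction X using Finset.induction_on with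
  | empty => simpa using hS
  | insert x X hxX ih =>
    have hsub : ∀ y, y ∈ S ∪ X → y ∈ S ∪ insert x X := by
      intro y hy
      rcases Finset.mem_union.1 hy with h | h
      · exact Finset.mem_union_left _ h
      · exact Finset.mem_union_right _ (Finset.mem_insert_of_mem h)
    obtain ⟨f, hf⟩ := ih (fun y hy N hN =>
      hX y (Finset.mem_insert_of_mem hy) N
        (fun z hz => ⟨hsub z (hN z hz).1, (hN z hz).2⟩))
    have hcard : ((S ∪ X).filter (fun y => y ≠ x ∧ R x y)).card < k := by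
      apply hX x (Finset.mem_insert_self _ _)
      intro y hy
      rw [Finset.mem_filter] at hy
      exact ⟨hsub y hy.1, hy.2⟩
    have hc : ∃ c : Fin k,
        c ∉ ((S ∪ X).filter (fun y => y ≠ x ∧ R x y)).image f := by
      by_contra hcon
      push Not at hcon
      have h3 : (Finset.univ : Finset (Fin k)) ⊆
          ((S ∪ X).filter (fun y => y ≠ x ∧ R x y)).image f :=
        fun c _ => hcon c
      have h4 := Finset.card_le_card h3
      have h5 := h4.trans Finset.card_image_le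
      rw [Finset.card_univ, Fintype.card_fin] at h5
      omega
    obtain ⟨c, hc⟩ := hc
    have key : ∀ y ∈ S ∪ insert x X, y ≠ x → R x y → f y ≠ c := by
      intro y hy hyx hsq hyc
      apply hc
      rw [Finset.mem_image]
      refine ⟨y, ?_, hyc⟩
      rw [Finset.mem_filter]
      refine ⟨?_, hyx, hsq⟩
      rcases Finset.mem_union.1 hy with h | h
      · exact Finset.mem_union_left _ h
      · rcases Finset.mem_insert.1 h with h | h
        · exact absurd h hyx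
        · exact Finset.mem_union_right _ h
    have hmem : ∀ y ∈ S ∪ insert x X, y ≠ x → y ∈ S ∪ X := by
      intro y hy hyx
      rcases Finset.mem_union.1 hy with h | h
      · exact Finset.mem_union_left _ h
      · rcases Finset.mem_insert.1 h with h | h
        · exact absurd h hyx
        · exact Finset.mem_union_right _ h
    refine ⟨Function.update f x c, ?_⟩
    intro a ha b hb hab hsq
    by_cases hax : a = x
    · subst hax
      have hbx : b ≠ a := fun h => hab h.symm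
      rw [Function.update_self, Function.update_of_ne hbx]
      exact (key b hb hbx hsq).symm
    · by_cases hbx : b = x
      · subst hbx
        rw [Function.update_self, Function.update_of_ne hax]
        exact key a ha hax (hsym _ _ hsq)
      · rw [Function.update_of_ne hax, Function.update_of_ne hbx]
        exact hf a (hmem a ha hax) b (hmem b hb hbx) hab hsq

/-- sets of bad numbers are good -/
theorem bad_goodR (R : ℕ → ℕ → Prop) (hsym : ∀ a b, R a b → R b a) (g : ℕ → ℕ) (hmono : Monotone g)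
    (hT : ∀ a, 1 ≤ g a → 2 ^ (2 ^ (20 * (g a) ^ 10)) ≤ a)
    (hgw : ∀ m a : ℕ, 1 ≤ g m → √(a : ℝ) - √(m : ℝ) ≤ ((3 * (g m) ^ 5 : ℕ) : ℝ) →
      g (a + 4) ≤ g m + 1) (c : ℕ) (hc : 0 < c) (S : Finset ℕ)
    (hS : ∀ a ∈ S, 1 ≤ g a ∧ Bad ((g (a + 4) - 1) ^ 2) a)
    (hedge : ∀ a ∈ S, ∀ b ∈ S, a < b → R a b →
      √(b : ℝ) - √(a : ℝ) + 1 ≤ g a)
    (hwg : ∀ k : ℕ, 1 ≤ k → ∀ A ⊆ S, (∀ a ∈ A, 2 ^ (2 ^ (20 * k ^ 10)) ≤ a) →
      (∀ a ∈ A, ∀ b ∈ A, √(b : ℝ) - √(a : ℝ) ≤ ((3 * k ^ 5 : ℕ) : ℝ)) → GoodR R c A) :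
    GoodR R c S := by
  classical
  induction hn : S.card using Nat.strong_induction_on generalizing S with
  | _ n ih =>
    rcases S.eq_empty_or_nonempty with he | hne
    · subst he
      exact ⟨fun _ => ⟨0, hc⟩, fun a ha => absurd ha (Finset.notMem_empty a)⟩
    · have hm := S.min'_mem hne
      have hmin : ∀ a ∈ S, S.min' hne ≤ a := fun a ha => S.min'_le a ha
      generalize S.min' hne = m at hm hmin
      obtain ⟨k, hk⟩ : ∃ k, k = g m := ⟨_, rfl⟩
      have hk1 : 1 ≤ k := by rw [hk]; exact (hS m hm).1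
      have hTk : 2 ^ (2 ^ (20 * k ^ 10)) ≤ m := by rw [hk]; exact hT m (hS m hm).1
      have hsm : ∀ a ∈ S, √(m : ℝ) ≤ √(a : ℝ) := fun a ha =>
        Real.sqrt_le_sqrt (by exact_mod_cast hmin a ha)
      have hg : ∀ a : ℕ, √(a : ℝ) - √(m : ℝ) ≤ ((3 * k ^ 5 : ℕ) : ℝ) → g (a + 4) ≤ k + 1 := by
        intro a ha
        rw [hk] at ha ⊢
        exact hgw m a (hk ▸ hk1) ha
      set S' : Finset ℕ := S.filter fun a : ℕ => √(a : ℝ) - √(m : ℝ) ≤ ((3 * k ^ 5 : ℕ) : ℝ)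
        with hS'
      have hSm : ∀ {a : ℕ}, a ∈ S' ↔ a ∈ S ∧ √(a : ℝ) - √(m : ℝ) ≤ ((3 * k ^ 5 : ℕ) : ℝ) := by
        intro a; rw [hS', Finset.mem_filter]
      have hm' : m ∈ S' := hSm.2 ⟨hm, by rw [sub_self]; exact Nat.cast_nonneg _⟩
      obtain ⟨i, hiC, hi⟩ := chain_gap k (3 * k ^ 4) S' m hm' (fun a ha => hmin a (hSm.1 ha).1)
        (fun T hTS hwin => by
          refine window_count k hk1 T (fun v hv => ?_) (fun a ha b hb => ?_)
          · have h1 := hSm.1 (hTS hv)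
            refine ⟨hTk.trans (hmin v h1.1), (hS v h1.1).2.mono ?_⟩
            have h2 := hg v h1.2
            exact Nat.pow_le_pow_left (by omega) 2
          · have h1 := hwin a ha b hb
            have h2 : 3 * k ^ 4 * k = 3 * k ^ 5 := by ring
            rwa [h2] at h1)
      have K0 : (1 : ℝ) ≤ k := by exact_mod_cast hk1
      have hi1 : ((i : ℝ) + 1) * k ≤ ((3 * k ^ 5 : ℕ) : ℝ) := by
        have h1 : (i + 1) * k ≤ 3 * k ^ 5 := by
          calc (i + 1) * k ≤ (3 * k ^ 4) * k := Nat.mul_le_mul_right _ hiC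
            _ = 3 * k ^ 5 := by ring
        exact_mod_cast h1
      have hik : (i : ℝ) * k ≤ ((3 * k ^ 5 : ℕ) : ℝ) := by
        have : (i : ℝ) * k ≤ ((i : ℝ) + 1) * k := by linarith
        exact this.trans hi1
      set A : Finset ℕ := S.filter fun a : ℕ => √(a : ℝ) - √(m : ℝ) ≤ (i : ℝ) * k with hA
      set B : Finset ℕ := S.filter fun a : ℕ => ¬ √(a : ℝ) - √(m : ℝ) ≤ (i : ℝ) * k with hB
      have hAm : ∀ {a : ℕ}, a ∈ A ↔ a ∈ S ∧ √(a : ℝ) - √(m : ℝ) ≤ (i : ℝ) * k := by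
        intro a; rw [hA, Finset.mem_filter]
      have hBm : ∀ {a : ℕ}, a ∈ B ↔ a ∈ S ∧ ¬ √(a : ℝ) - √(m : ℝ) ≤ (i : ℝ) * k := by
        intro a; rw [hB, Finset.mem_filter]
      have gA : GoodR R c A := by
        refine hwg k hk1 A (fun a ha => (hAm.1 ha).1)
          (fun a ha => hTk.trans (hmin a (hAm.1 ha).1)) ?_
        intro a ha b hb
        have h1 := hsm a (hAm.1 ha).1
        have h2 := (hAm.1 hb).2
        linarith
      have hBS : B ⊆ S := fun a ha => (hBm.1 ha).1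
      have hmB : m ∉ B := by
        intro h
        apply (hBm.1 h).2
        rw [sub_self]
        exact mul_nonneg (Nat.cast_nonneg i) (by linarith)
      have hlt : B.card < n := by
        rw [← hn]
        exact Finset.card_lt_card ⟨hBS, fun h => hmB (h hm)⟩
      have gB : GoodR R c B := ih B.card hlt B (fun a ha => hS a (hBS ha))
        (fun a ha b hb => hedge a (hBS ha) b (hBS hb))
        (fun k hk A hA => hwg k hk A (hA.trans hBS)) rfl
      obtain ⟨fA, hfA⟩ := gA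
      obtain ⟨fB, hfB⟩ := gB
      have cross : ∀ a ∈ A, ∀ b ∈ B, R a b → False := by
        intro a ha b hb hsq
        have h1 := (hAm.1 ha).2
        have h2 := lt_of_not_ge (hBm.1 hb).2
        have hab : a < b := by
          have h3 : √(a : ℝ) < √(b : ℝ) := by linarith
          rw [Real.sqrt_lt_sqrt_iff (Nat.cast_nonneg _)] at h3
          exact_mod_cast h3
        have h4 := hedge a (hAm.1 ha).1 b (hBS hb) hab hsq
        have h5 : g a ≤ k + 1 := (hmono (by omega)).trans (hg a (h1.trans hik))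
        have h6 : (g a : ℝ) ≤ k + 1 := by exact_mod_cast h5
        have h7 : ((i : ℝ) + 1) * k < √(b : ℝ) - √(m : ℝ) := by
          by_cases h8 : b ∈ S'
          · exact hi b h8 h2
          · have h9 : ¬ √(b : ℝ) - √(m : ℝ) ≤ ((3 * k ^ 5 : ℕ) : ℝ) := fun h =>
              h8 (hSm.2 ⟨hBS hb, h⟩)
            linarith [lt_of_not_ge h9]
        have h10 : ((i : ℝ) + 1) * k = i * k + k := by ring
        linarith
      refine ⟨fun a : ℕ => if √(a : ℝ) - √(m : ℝ) ≤ (i : ℝ) * k then fA a else fB a, ?_⟩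
      intro a ha b hb hab hsq
      by_cases h1 : √(a : ℝ) - √(m : ℝ) ≤ (i : ℝ) * k
      · by_cases h2 : √(b : ℝ) - √(m : ℝ) ≤ (i : ℝ) * k
        · simp only [if_pos h1, if_pos h2]
          exact hfA a (hAm.2 ⟨ha, h1⟩) b (hAm.2 ⟨hb, h2⟩) hab hsq
        · exact (cross a (hAm.2 ⟨ha, h1⟩) b (hBm.2 ⟨hb, h2⟩) hsq).elim
      · by_cases h2 : √(b : ℝ) - √(m : ℝ) ≤ (i : ℝ) * k
        · exact (cross b (hAm.2 ⟨hb, h2⟩) a (hBm.2 ⟨ha, h1⟩)
            (hsym _ _ hsq)).elim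
        · simp only [if_neg h1, if_neg h2]
          exact hfB a (hBm.2 ⟨ha, h1⟩) b (hBm.2 ⟨hb, h2⟩) hab hsq

/-- the shortness of the edges from `a`, and what it gives at both ends -/
theorem both_endsR (R : ℕ → ℕ → Prop) (hsym : ∀ a b, R a b → R b a) (g : ℕ → ℕ) (hmono : Monotone g)
    (hg2 : ∀ a, 1 ≤ g a → 2 ^ (2 ^ (20 * (g a) ^ 10)) ≤ a) (V : Finset ℕ)
    (hedge : ∀ a ∈ V, ∀ b ∈ V, a < b → R a b →
      √(b : ℝ) - √(a : ℝ) + 1 ≤ g a) :
    ∀ x ∈ V, ∀ y ∈ V, y ≠ x → R x y → 0 < x ∧ 0 < y ∧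
      √(x : ℝ) - √(y : ℝ) ≤ ((g (x + 2) - 1 : ℕ) : ℝ) ∧
      √(y : ℝ) - √(x : ℝ) ≤ ((g (x + 2) - 1 : ℕ) : ℝ) := by
  have hcast : ∀ (n : ℕ) (x : ℝ), 0 ≤ x → x + 1 ≤ n → x ≤ ((n - 1 : ℕ) : ℝ) := by
    intro n x hx h
    have h1 : 1 ≤ n := by
      have : (1 : ℝ) ≤ n := by linarith
      exact_mod_cast this
    rw [Nat.cast_sub h1]
    push_cast
    linarith
  have hpos : ∀ a : ℕ, 1 ≤ g a → 0 < a := fun a ha =>
    lt_of_lt_of_le (by positivity) (hg2 a ha)
  have hone : ∀ {a b : ℕ}, a < b → √(b : ℝ) - √(a : ℝ) + 1 ≤ g a → 1 ≤ g a := by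
    intro a b hab h
    have h1 : √(a : ℝ) ≤ √(b : ℝ) := Real.sqrt_le_sqrt (by exact_mod_cast hab.le)
    have : (1 : ℝ) ≤ g a := by linarith
    exact_mod_cast this
  intro x hx y hy hne hsq
  have h0 : (0 : ℝ) ≤ ((g (x + 2) - 1 : ℕ) : ℝ) := Nat.cast_nonneg _
  rcases lt_or_gt_of_ne hne with h | h
  · have h1 := hedge y hy x hx h (hsym _ _ hsq)
    have h2 := hpos y (hone h h1)
    have h3 : √(y : ℝ) ≤ √(x : ℝ) := Real.sqrt_le_sqrt (by exact_mod_cast h.le)
    have h4 : (g y : ℝ) ≤ g (x + 2) := by exact_mod_cast hmono (by omega : y ≤ x + 2)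
    exact ⟨by omega, h2, hcast _ _ (by linarith) (by linarith), by linarith⟩
  · have h1 := hedge x hx y hy h hsq
    have h2 := hpos x (hone h h1)
    have h3 : √(x : ℝ) ≤ √(y : ℝ) := Real.sqrt_le_sqrt (by exact_mod_cast h.le)
    have h4 : (g x : ℝ) ≤ g (x + 2) := by exact_mod_cast hmono (by omega : x ≤ x + 2)
    exact ⟨h2, by omega, by linarith, hcast _ _ (by linarith) (by linarith)⟩

/-- sets in a thin class with short edges are 2-colourable -/
theorem class_goodR (R : ℕ → ℕ → Prop) (hsym : ∀ a b, R a b → R b a)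
    (hR : ∀ a b, R a b → IsSquare (a * b + 1)) {p : ℕ → Prop} (hp : Thin p) (V : Finset ℕ)
    (hVr : ∀ a ∈ V, p a) (hV : ∀ a ∈ V, ∀ b ∈ V, a < b → R a b →
      ∃ K : ℕ, 2 ^ (2 ^ (20 * K ^ 10)) ≤ a ∧ √(b : ℝ) - √(a : ℝ) + 1 ≤ K) : GoodR R 2 V := by
  classical
  obtain ⟨g, hmono, hg1, hg2, hg3, hg4⟩ := gfun
  have hedge : ∀ a ∈ V, ∀ b ∈ V, a < b → R a b →
      √(b : ℝ) - √(a : ℝ) + 1 ≤ g a := by
    intro a ha b hb hab hsq
    obtain ⟨K, h1, h2⟩ := hV a ha b hb hab hsq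
    have h3 : (K : ℝ) ≤ g a := by exact_mod_cast hg1 a K h1
    exact h2.trans h3
  have hab := both_endsR R hsym g hmono hg2 V hedge
  obtain ⟨B, hB⟩ : ∃ B, B = V.filter fun v => Bad ((g (v + 4) - 1) ^ 2) v := ⟨_, rfl⟩
  have hBV : ∀ {a}, a ∈ B ↔ a ∈ V ∧ Bad ((g (a + 4) - 1) ^ 2) a := by
    intro a
    rw [hB, Finset.mem_filter]
  have h24 : ∀ {a b : ℕ}, a ≤ b → (g a - 1) ^ 2 ≤ (g b - 1) ^ 2 := by
    intro a b h
    have := hmono h
    exact Nat.pow_le_pow_left (by omega) 2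
  have hgood : GoodR R 2 B := by
    refine bad_goodR R hsym g hmono hg2 hg4 2 (by norm_num) B
      (fun a ha => ⟨bad_far g hg3 (hBV.1 ha).2, (hBV.1 ha).2⟩)
      (fun a ha b hb => hedge a (hBV.1 ha).1 b (hBV.1 hb).1)
      (fun k hk A hA h1 h2 => toR (window_good2 k hk A h1
        (fun a ha => hp.mod a (hVr a (hBV.1 (hA ha)).1)) h2) R hR)
  have h1 : V = B ∪ (V \ B) := by
    rw [Finset.union_sdiff_of_subset]
    intro a ha
    exact (hBV.1 ha).1
  rw [h1]
  refine extR R hsym 2 B (V \ B) hgood fun x hx N hN => ?_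
  rw [← h1] at hN
  obtain ⟨hxV, hxB⟩ := Finset.mem_sdiff.1 hx
  rcases N.eq_empty_or_nonempty with he | ⟨y₀, hy₀⟩
  · rw [he]
    simp
  have hx0 : 0 < x := (hab x hxV y₀ (hN y₀ hy₀).1 (hN y₀ hy₀).2.1 (hN y₀ hy₀).2.2).1
  refine deg_class hp (K := g (x + 2) - 1) (L := (g (x + 4) - 1) ^ 2) (h24 (by omega)) hx0
    (hVr x hxV) (fun hb => hxB (hBV.2 ⟨hxV, hb⟩)) N (fun y hy => ?_)
    (fun y hy => hVr y (hN y hy).1)
  obtain ⟨h3, h4, h5⟩ := hN y hy
  obtain ⟨-, h6, h7, h8⟩ := hab x hxV y h3 h4 h5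
  exact ⟨h6, h4, hR _ _ h5, h7, h8⟩


end Pool.Agent.Lib.MP_d91fe8_nt.ShortR
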