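import Mathlib

/-!
# MP_d91fe8_nt: colourings of Diophantine graphs by residue classes modulo 24

`dGraph V` is the graph on a finite set `V` of natural numbers in which `a ≠ b` are adjacent if and
only if `a b + 1` is a perfect square. Lemmas for the hand-ins `FiveColours` and `ManyPrimes`.
-/

namespace Pool.Agent.Lib.MP_d91fe8_nt.Twelve

/-- The graph on a finite set `V` of natural numbers in which `a ≠ b` are adjacent if and only if
`a b + 1` is a perfect square. -/
def dGraph (V : Finset ℕ) : SimpleGraph V where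
  Adj a b := a ≠ b ∧ IsSquare ((a : ℕ) * (b : ℕ) + 1)
  symm := ⟨fun a b h => ⟨h.1.symm, by rw [mul_comm]; exact h.2⟩⟩
  loopless := ⟨fun a h => h.1 rfl⟩

/-- `S` is a union of `N` classes without adjacent numbers. -/
def Col (S : Set ℕ) (N : ℕ) : Prop :=
  ∃ f : ℕ → ℕ, (∀ a ∈ S, f a < N) ∧ ∀ a ∈ S, ∀ b ∈ S, a ≠ b → IsSquare (a * b + 1) → f a ≠ f b

theorem Col.mono {S T : Set ℕ} {m n : ℕ} (h : Col S m) (hT : T ⊆ S) (hn : m ≤ n) : Col T n := by
  obtain ⟨f, h1, h2⟩ := h
  exact ⟨f, fun a ha => (h1 a (hT ha)).trans_le hn, fun a ha b hb => h2 a (hT ha) b (hT hb)⟩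

theorem Col.union {S T U : Set ℕ} {m n : ℕ} (hS : Col S m) (hT : Col T n) (hU : U ⊆ S ∪ T) :
    Col U (m + n) := by
  classical
  obtain ⟨f, f1, f2⟩ := hS
  obtain ⟨g, g1, g2⟩ := hT
  refine ⟨fun a => if a ∈ S then f a else m + g a, ?_, ?_⟩
  · intro a ha
    by_cases h : a ∈ S
    · simp only [h, if_true]
      exact (f1 a h).trans_le (Nat.le_add_right _ _)
    · simp only [h, if_false]
      have := g1 a ((hU ha).resolve_left h)
      omega
  · intro a ha b hb hab hsq
    by_cases h : a ∈ S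
    · by_cases h' : b ∈ S
      · simp only [h, h', if_true]
        exact f2 a h b h' hab hsq
      · simp only [h, h', if_true, if_false]
        have := f1 a h
        omega
    · by_cases h' : b ∈ S
      · simp only [h, h', if_true, if_false]
        have := f1 b h'
        omega
      · simp only [h, h', if_false]
        have := g2 a ((hU ha).resolve_left h) b ((hU hb).resolve_left h') hab hsq
        omega

/-- no squares that are `2 mod 3`, `2, 3 mod 4`, `5 mod 8` -/
theorem not_sq_three {n : ℕ} (h : n % 3 = 2) : ¬ IsSquare n := by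
  rintro ⟨r, rfl⟩
  have h1 : r % 3 = 0 ∨ r % 3 = 1 ∨ r % 3 = 2 := by omega
  rcases h1 with h1 | h1 | h1 <;> simp [Nat.mul_mod, h1] at h

theorem not_sq_four {n : ℕ} (h : n % 4 = 2 ∨ n % 4 = 3) : ¬ IsSquare n := by
  rintro ⟨r, rfl⟩
  have h1 : r % 4 = 0 ∨ r % 4 = 1 ∨ r % 4 = 2 ∨ r % 4 = 3 := by omega
  rcases h1 with h1 | h1 | h1 | h1 <;> simp [Nat.mul_mod, h1] at h

theorem not_sq_eight {n : ℕ} (h : n % 8 = 5) : ¬ IsSquare n := by
  rintro ⟨r, rfl⟩
  have h1 : r % 8 = 0 ∨ r % 8 = 1 ∨ r % 8 = 2 ∨ r % 8 = 3 ∨ r % 8 = 4 ∨ r % 8 = 5 ∨ r % 8 = 6 ∨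
    r % 8 = 7 := by omega
  rcases h1 with h1 | h1 | h1 | h1 | h1 | h1 | h1 | h1 <;> simp [Nat.mul_mod, h1] at h

/-- the colour of a multiple of three -/
def gcol (a : ℕ) : ℕ := if a % 4 = 3 ∨ a % 8 = 4 then 3 else if a % 8 = 0 then 4 else 2

theorem gcol_cases (a : ℕ) : (gcol a = 3 ∧ a % 4 = 3) ∨ (gcol a = 3 ∧ a % 8 = 4) ∨
    (gcol a = 4 ∧ a % 8 = 0) ∨ (gcol a = 2 ∧ a % 4 = 1) ∨ (gcol a = 2 ∧ a % 4 = 2) := by
  unfold gcol
  split_ifs <;> omega

/-- two adjacent multiples of three of the same colour are congruent modulo 24 and divisible by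
twelve -/
theorem gcol_ne {a b : ℕ} (a3 : 3 ∣ a) (b3 : 3 ∣ b) (hab : 12 ∣ a → a % 24 = b % 24 → False)
    (hsq : IsSquare (a * b + 1)) : gcol a ≠ gcol b := by
  intro hf
  rcases gcol_cases a with ⟨ga, h⟩ | ⟨ga, h⟩ | ⟨ga, h⟩ | ⟨ga, h⟩ | ⟨ga, h⟩ <;>
    rcases gcol_cases b with ⟨gb, h'⟩ | ⟨gb, h'⟩ | ⟨gb, h'⟩ | ⟨gb, h'⟩ | ⟨gb, h'⟩ <;>
    rw [ga, gb] at hf
  · exact not_sq_four (by simp [Nat.add_mod, Nat.mul_mod, h, h']) hsq
  · refine not_sq_eight ?_ hsq
    have ha8 : a % 8 = 3 ∨ a % 8 = 7 := by omega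
    rcases ha8 with h8 | h8 <;> simp [Nat.add_mod, Nat.mul_mod, h8, h']
  · omega
  · omega
  · omega
  · refine not_sq_eight ?_ hsq
    have hb8 : b % 8 = 3 ∨ b % 8 = 7 := by omega
    rcases hb8 with h8 | h8 <;> simp [Nat.add_mod, Nat.mul_mod, h8, h]
  · exact hab (by omega) (by omega)
  · omega
  · omega
  · omega
  · omega
  · omega
  · exact hab (by omega) (by omega)
  · omega
  · omega
  · omega
  · omega
  · omega
  · exact not_sq_four (by simp [Nat.add_mod, Nat.mul_mod, h, h']) hsq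
  · exact not_sq_four (by simp [Nat.add_mod, Nat.mul_mod, h, h']) hsq
  · omega
  · omega
  · omega
  · exact not_sq_four (by simp [Nat.add_mod, Nat.mul_mod, h, h']) hsq
  · have ha8 : a % 8 = 2 ∨ a % 8 = 6 := by omega
    have hb8 : b % 8 = 2 ∨ b % 8 = 6 := by omega
    rcases ha8 with h8 | h8 <;> rcases hb8 with h8' | h8' <;>
      exact not_sq_eight (by simp [Nat.add_mod, Nat.mul_mod, h8, h8']) hsq

/-- the colouring with five colours -/
def fcol (a : ℕ) : ℕ := if a % 3 = 1 then 0 else if a % 3 = 2 then 1 else gcol a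

theorem fcol_lt (a : ℕ) : fcol a < 5 := by
  have := gcol_cases a
  unfold fcol
  split_ifs <;> omega

theorem fcol_lt_four {a : ℕ} (h : ¬ 12 ∣ a) : fcol a < 4 := by
  have := gcol_cases a
  unfold fcol
  split_ifs <;> omega

/-- Two adjacent numbers of the same colour are congruent modulo 24 and divisible by twelve. -/
theorem fcol_ne {a b : ℕ} (hab : 12 ∣ a → a % 24 = b % 24 → False)
    (hsq : IsSquare (a * b + 1)) : fcol a ≠ fcol b := by
  intro hf
  have ga := gcol_cases a
  have gb := gcol_cases b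
  have ga2 : 2 ≤ gcol a := by omega
  have gb2 : 2 ≤ gcol b := by omega
  clear ga gb
  unfold fcol at hf
  by_cases a1 : a % 3 = 1
  · rw [if_pos a1] at hf
    have b1 : b % 3 = 1 := by
      by_contra b1
      rw [if_neg b1] at hf
      split_ifs at hf
      omega
    exact not_sq_three (by simp [Nat.add_mod, Nat.mul_mod, a1, b1]) hsq
  · rw [if_neg a1] at hf
    by_cases a2 : a % 3 = 2
    · rw [if_pos a2] at hf
      have b2 : b % 3 = 2 := by
        by_contra b2
        rw [if_neg b2] at hf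
        split_ifs at hf
        omega
      exact not_sq_three (by simp [Nat.add_mod, Nat.mul_mod, a2, b2]) hsq
    · rw [if_neg a2] at hf
      have b1 : ¬ b % 3 = 1 := by
        intro h
        rw [if_pos h] at hf
        omega
      have b2 : ¬ b % 3 = 2 := by
        intro h
        rw [if_neg b1, if_pos h] at hf
        omega
      rw [if_neg b1, if_neg b2] at hf
      exact gcol_ne (by omega) (by omega) hab hsq hf

/-- four colours outside the multiples of twelve -/
theorem off12 : Col {a : ℕ | ¬ 12 ∣ a} 4 :=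
  ⟨fcol, fun _ ha => fcol_lt_four ha, fun _ ha _ _ _ hsq => fcol_ne (fun h _ => ha h) hsq⟩

/-- `2 ^ m + 1` is a power of three only for `m ≤ 3`. -/
theorem two_pow_add_one {m B : ℕ} (hm : 4 ≤ m) : 2 ^ m + 1 ≠ 3 ^ B := by
  intro h
  -- modulo 16 the exponent is a multiple of 4
  have h16 : (3 : ℕ) ^ B % 16 = 1 := by
    rw [← h]
    obtain ⟨j, rfl⟩ := Nat.exists_eq_add_of_le hm
    rw [pow_add]
    omega
  have h4 : B % 4 = 0 := by
    have hB : B = 4 * (B / 4) + B % 4 := by omega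
    have : (3 : ℕ) ^ B % 16 = 3 ^ (B % 4) % 16 := by
      conv_lhs => rw [hB, pow_add, pow_mul]
      rw [Nat.mul_mod, Nat.pow_mod]
      norm_num
    rw [this] at h16
    have h5 : B % 4 = 0 ∨ B % 4 = 1 ∨ B % 4 = 2 ∨ B % 4 = 3 := by omega
    rcases h5 with h5 | h5 | h5 | h5 <;> simp [h5] at h16 ⊢
  obtain ⟨C, rfl⟩ : 4 ∣ B := Nat.dvd_of_mod_eq_zero h4
  -- modulo 5
  have h5 : (3 : ℕ) ^ (4 * C) % 5 = 1 := by
    rw [pow_mul, Nat.pow_mod]
    norm_num
  have h6 : (2 : ℕ) ^ m % 5 = 0 := by omega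
  have h7 : 5 ∣ 2 ^ m := Nat.dvd_of_mod_eq_zero h6
  have h8 := Nat.Prime.dvd_of_dvd_pow Nat.prime_five h7
  omega

theorem three_pow_add_one {m B : ℕ} (hB : 2 ≤ B) : 3 ^ B + 1 ≠ 2 ^ m := by
  intro h
  have h8 : (3 : ℕ) ^ B % 8 = 1 ∨ (3 : ℕ) ^ B % 8 = 3 := by
    have hB' : B = 2 * (B / 2) + B % 2 := by omega
    have : (3 : ℕ) ^ B % 8 = 3 ^ (B % 2) % 8 := by
      conv_lhs => rw [hB', pow_add, pow_mul]
      rw [Nat.mul_mod, Nat.pow_mod]
      norm_num
    rw [this]
    have h5 : B % 2 = 0 ∨ B % 2 = 1 := by omega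
    rcases h5 with h5 | h5 <;> simp [h5]
  have h9 : 9 ≤ 3 ^ B := by
    calc 9 = 3 ^ 2 := by norm_num
      _ ≤ 3 ^ B := Nat.pow_le_pow_right (by norm_num) hB
  have h3 : 3 ≤ m := by
    by_contra hcon
    have : 2 ^ m ≤ 2 ^ 2 := Nat.pow_le_pow_right (by norm_num) (by omega)
    omega
  obtain ⟨j, rfl⟩ := Nat.exists_eq_add_of_le h3
  rw [pow_add] at h
  omega

theorem lemX {A B : ℕ} (hA : 4 ≤ A) (hA5 : A ≠ 5) (hB : 2 ≤ B) : ¬ IsSquare (2 ^ A * 3 ^ B + 1) := by
  rintro ⟨x, hx⟩
  obtain ⟨m, rfl⟩ := Nat.exists_eq_add_of_le' (show 2 ≤ A by omega)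
  have hodd : x % 2 = 1 := by
    rcases Nat.mod_two_eq_zero_or_one x with h | h
    · exfalso
      obtain ⟨y, rfl⟩ : 2 ∣ x := Nat.dvd_of_mod_eq_zero h
      have e : 2 ^ (m + 2) * 3 ^ B + 1 = 4 * (y * y) := by rw [hx]; ring
      have e2 : 2 ^ (m + 2) * 3 ^ B = 4 * (2 ^ m * 3 ^ B) := by ring
      omega
    · exact h
  obtain ⟨u, rfl⟩ : ∃ u, x = 2 * u + 1 := ⟨x / 2, by omega⟩
  have e1 : 2 ^ m * 3 ^ B = u * (u + 1) := by
    have e : 2 ^ (m + 2) * 3 ^ B + 1 = 4 * (u * (u + 1)) + 1 := by rw [hx]; ring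
    have e2 : 2 ^ (m + 2) * 3 ^ B = 4 * (2 ^ m * 3 ^ B) := by ring
    omega
  have hcop : Nat.Coprime u (u + 1) := by simp
  have hcop2 : ∀ v : ℕ, v ∣ 2 ^ m * 3 ^ B → v % 2 = 1 → v ∣ 3 ^ B := by
    intro v hv h
    have : Nat.Coprime v (2 ^ m) := Nat.Coprime.pow_right _ (Nat.coprime_two_right.2 (Nat.odd_iff.2 h))
    exact this.dvd_of_dvd_mul_left hv
  have hcop3 : ∀ v : ℕ, v ∣ 2 ^ m * 3 ^ B → ¬ 3 ∣ v → v ∣ 2 ^ m := by
    intro v hv h
    have : Nat.Coprime v (3 ^ B) := Nat.Coprime.pow_right _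
      ((Nat.Prime.coprime_iff_not_dvd Nat.prime_three).2 h).symm
    exact this.dvd_of_dvd_mul_right hv
  have hu0 : 0 < u * (u + 1) := by rw [← e1]; positivity
  have hupos : 0 < u := Nat.pos_of_mul_pos_right hu0 |> fun h => by
    rcases Nat.eq_zero_or_pos u with h' | h'
    · simp [h'] at hu0
    · exact h'
  have hdu : u ∣ 2 ^ m * 3 ^ B := ⟨u + 1, e1⟩
  have hdu1 : u + 1 ∣ 2 ^ m * 3 ^ B := ⟨u, by rw [e1, mul_comm]⟩
  -- u or u+1 is odd, the other is a power of two times...
  have hmain : ∀ s t : ℕ, s * t = 2 ^ m * 3 ^ B → Nat.Coprime s t → s % 2 = 1 → 1 < s →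
      s = 3 ^ B ∧ t = 2 ^ m := by
    intro s t hst hc hs hs1
    have h1 : s ∣ 3 ^ B := hcop2 s ⟨t, hst.symm⟩ hs
    have h3s : 3 ∣ s := by
      obtain ⟨k, hk, rfl⟩ := (Nat.dvd_prime_pow Nat.prime_three).1 h1
      have : k ≠ 0 := by rintro rfl; simp at hs1
      exact dvd_pow_self 3 this
    have h3t : ¬ 3 ∣ t := fun h => by
      have := Nat.dvd_gcd h3s h
      rw [hc] at this
      omega
    have h2 : t ∣ 2 ^ m := hcop3 t ⟨s, by rw [← hst, mul_comm]⟩ h3t
    have h4 : 3 ^ B ∣ s := by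
      have : Nat.Coprime (3 ^ B) t := Nat.Coprime.pow_left _
        ((Nat.Prime.coprime_iff_not_dvd Nat.prime_three).2 h3t)
      exact this.dvd_of_dvd_mul_right ⟨2 ^ m, by rw [hst]; ring⟩
    have hs' : s = 3 ^ B := Nat.dvd_antisymm h1 h4
    refine ⟨hs', ?_⟩
    rw [hs', mul_comm] at hst
    exact Nat.eq_of_mul_eq_mul_right (by positivity) hst
  have h9 : 9 ≤ 3 ^ B := by
    calc 9 = 3 ^ 2 := by norm_num
      _ ≤ 3 ^ B := Nat.pow_le_pow_right (by norm_num) hB
  have hm2 : 2 ≤ m := by omega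
  have h4m : 4 ≤ 2 ^ m := by
    calc 4 = 2 ^ 2 := by norm_num
      _ ≤ 2 ^ m := Nat.pow_le_pow_right (by norm_num) hm2
  have hu1 : 1 < u := by
    by_contra hcon
    have : u = 1 := by omega
    subst this
    nlinarith
  rcases Nat.mod_two_eq_zero_or_one u with h | h
  · obtain ⟨h1, h2⟩ := hmain (u + 1) u (by rw [e1, mul_comm]) hcop.symm (by omega) (by omega)
    -- 2 ^ m + 1 = 3 ^ B
    rcases Nat.lt_or_ge m 4 with hm | hm
    · have hm' : m = 2 ∨ m = 3 := by omega
      rcases hm' with rfl | rfl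
      · omega
      · omega
    · exact two_pow_add_one hm (by rw [← h2, h1])
  · obtain ⟨h1, h2⟩ := hmain u (u + 1) e1.symm hcop h hu1
    exact three_pow_add_one hB (by rw [← h2, ← h1])

/-- multiples of twelve with two prime factors -/
theorem shape {a : ℕ} (h0 : 0 < a) (h12 : 12 ∣ a) (h : a.primeFactors.card ≤ 2) :
    ∃ A B : ℕ, 2 ≤ A ∧ 1 ≤ B ∧ a = 2 ^ A * 3 ^ B := by
  have h1 : ({2, 3} : Finset ℕ) ⊆ a.primeFactors := by
    intro q hq
    rw [Nat.mem_primeFactors]
    rcases Finset.mem_insert.1 hq with rfl | hq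
    · exact ⟨Nat.prime_two, by omega, h0.ne'⟩
    · rw [Finset.mem_singleton] at hq
      subst hq
      exact ⟨Nat.prime_three, by omega, h0.ne'⟩
  have h2 : ({2, 3} : Finset ℕ) = a.primeFactors :=
    Finset.eq_of_subset_of_card_le h1 (h.trans (by decide))
  refine ⟨a.factorization 2, a.factorization 3, ?_, ?_, ?_⟩
  · exact (Nat.prime_two.pow_dvd_iff_le_factorization h0.ne').1 (by
      norm_num
      omega)
  · exact (Nat.prime_three.pow_dvd_iff_le_factorization h0.ne').1 (by
      norm_num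
      omega)
  · conv_lhs => rw [← Nat.prod_factorization_pow_eq_self h0.ne']
    rw [Finsupp.prod, Nat.support_factorization, ← h2]
    rw [Finset.prod_insert (by decide), Finset.prod_singleton]

theorem mod_eight {A B : ℕ} (hA : 2 ≤ A) (h : (2 ^ A * 3 ^ B) % 8 = 4) : A = 2 := by
  by_contra hne
  obtain ⟨j, rfl⟩ := Nat.exists_eq_add_of_le (show 3 ≤ A by omega)
  have : 2 ^ (3 + j) * 3 ^ B = 8 * (2 ^ j * 3 ^ B) := by ring
  omega

theorem mod_eight' {A B : ℕ} (h : (2 ^ A * 3 ^ B) % 8 = 0) : 3 ≤ A := by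
  by_contra hne
  have h8 : 8 ∣ 2 ^ A * 3 ^ B := Nat.dvd_of_mod_eq_zero h
  have h9 : Nat.Coprime 8 (3 ^ B) := Nat.Coprime.pow_right _ (by decide)
  have := Nat.le_of_dvd (by positivity) (h9.dvd_of_dvd_mul_right h8)
  have : 2 ^ A ≤ 2 ^ 2 := Nat.pow_le_pow_right (by norm_num) (by omega)
  omega

/-- Two multiples of twelve that are congruent modulo 24 and have only the prime factors two and
three are not adjacent. -/
theorem two_primes {a b : ℕ} (a0 : 0 < a) (b0 : 0 < b) (h12 : 12 ∣ a) (h24 : a % 24 = b % 24)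
    (ha : a.primeFactors.card ≤ 2) (hb : b.primeFactors.card ≤ 2)
    (hsq : IsSquare (a * b + 1)) : False := by
  have hb12 : 12 ∣ b := by omega
  obtain ⟨A, B, hA, hB, h1⟩ := shape a0 h12 ha
  obtain ⟨C, D, hC, hD, h2⟩ := shape b0 hb12 hb
  have e : a * b + 1 = 2 ^ (A + C) * 3 ^ (B + D) + 1 := by
    rw [h1, h2]
    ring
  rw [e] at hsq
  rcases (by omega : (a % 8 = 4 ∧ b % 8 = 4) ∨ (a % 8 = 0 ∧ b % 8 = 0)) with ⟨h, h'⟩ | ⟨h, h'⟩
  · have h3 := mod_eight hA (by rw [← h1]; exact h)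
    have h4 := mod_eight hC (by rw [← h2]; exact h')
    exact lemX (by omega) (by omega) (by omega) hsq
  · have h3 := mod_eight' (A := A) (B := B) (by rw [← h1]; exact h)
    have h4 := mod_eight' (A := C) (B := D) (by rw [← h2]; exact h')
    exact lemX (by omega) (by omega) (by omega) hsq

/-- five colours when the multiples of twelve have only the prime factors two and three -/
theorem small : Col {a : ℕ | 0 < a ∧ (12 ∣ a → a.primeFactors.card ≤ 2)} 5 :=
  ⟨fcol, fun a _ => fcol_lt a, fun _ ha _ hb _ hsq => fcol_ne (fun h h' =>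
    two_primes ha.1 hb.1 h h' (ha.2 h) (hb.2 (by omega)) hsq) hsq⟩

/-- roots of `u (u + 1) = 0` modulo `M` are determined by the primes that divide them -/
theorem key {M : ℕ} {u v : ℤ} (hu : (M : ℤ) ∣ u * (u + 1)) (hv : (M : ℤ) ∣ v * (v + 1))
    (h : ∀ q : ℕ, q.Prime → q ∣ M → ((q : ℤ) ∣ u ↔ (q : ℤ) ∣ v)) : (M : ℤ) ∣ u - v := by
  have h1 : IsCoprime (M : ℤ) (u + v + 1) := by
    rw [Int.isCoprime_iff_gcd_eq_one]
    by_contra hne
    obtain ⟨q, hq, hqd⟩ := Nat.exists_prime_and_dvd hne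
    have hqM : (q : ℤ) ∣ M := (Int.natCast_dvd_natCast.2 hqd).trans (Int.gcd_dvd_left _ _)
    have hqs : (q : ℤ) ∣ u + v + 1 := (Int.natCast_dvd_natCast.2 hqd).trans (Int.gcd_dvd_right _ _)
    have hqp : Prime (q : ℤ) := Nat.prime_iff_prime_int.1 hq
    have hiff := h q hq (Int.natCast_dvd_natCast.1 hqM)
    have hno : ¬ (q : ℤ) ∣ 1 := fun h => hqp.not_isUnit (isUnit_of_dvd_one h)
    by_cases hqu : (q : ℤ) ∣ u
    · have hqv := hiff.1 hqu
      apply hno
      have := dvd_sub hqs (dvd_add hqu hqv)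
      rwa [add_sub_cancel_left] at this
    · have hqv : ¬ (q : ℤ) ∣ v := fun h => hqu (hiff.2 h)
      have h2 := (hqp.dvd_or_dvd (hqM.trans hu)).resolve_left hqu
      have h3 := (hqp.dvd_or_dvd (hqM.trans hv)).resolve_left hqv
      apply hno
      have := dvd_sub (dvd_add h2 h3) hqs
      have e : u + 1 + (v + 1) - (u + v + 1) = 1 := by ring
      rwa [e] at this
  have h2 : (M : ℤ) ∣ (u - v) * (u + v + 1) := by
    have e : (u - v) * (u + v + 1) = u * (u + 1) - v * (v + 1) := by ring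
    rw [e]
    exact dvd_sub hu hv
  exact h1.dvd_of_dvd_mul_right h2

/-- The half root of a smaller neighbour. -/
theorem half {a b : ℕ} (ha : 12 ∣ a) (hb : 12 ∣ b) (hb0 : 0 < b) (hba : b < a)
    (h : IsSquare (a * b + 1)) :
    ∃ u : ℕ, 0 < u ∧ 2 * u < a ∧ 3 * a ∣ u * (u + 1) ∧ a * b = 4 * (u * (u + 1)) := by
  obtain ⟨x, hx⟩ := h
  obtain ⟨b', rfl⟩ := hb
  obtain ⟨a', rfl⟩ := ha
  have hodd : x % 2 = 1 := by
    rcases Nat.mod_two_eq_zero_or_one x with h | h
    · exfalso
      obtain ⟨y, rfl⟩ : 2 ∣ x := Nat.dvd_of_mod_eq_zero h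
      have : 12 * a' * (12 * b') + 1 = 4 * (y * y) := by rw [hx]; ring
      have e : 12 * a' * (12 * b') = 4 * (36 * (a' * b')) := by ring
      omega
    · exact h
  obtain ⟨u, rfl⟩ : ∃ u, x = 2 * u + 1 := ⟨x / 2, by omega⟩
  have e1 : 12 * a' * (12 * b') = 4 * (u * (u + 1)) := by
    have : 12 * a' * (12 * b') + 1 = 4 * (u * (u + 1)) + 1 := by rw [hx]; ring
    omega
  refine ⟨u, ?_, ?_, ?_, e1⟩
  · rcases Nat.eq_zero_or_pos u with rfl | h
    · exfalso
      have : 0 < 12 * a' * (12 * b') := Nat.mul_pos (lt_trans hb0 hba) hb0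
      omega
    · exact h
  · by_contra hcon
    push Not at hcon
    nlinarith
  · refine ⟨b', ?_⟩
    nlinarith

/-- A multiple of twelve has few smaller neighbours among the multiples of twelve. -/
theorem card_lt {a : ℕ} (ha : 12 ∣ a) (ha0 : 0 < a) {N : Finset ℕ}
    (hN : ∀ b ∈ N, b < a ∧ 0 < b ∧ 12 ∣ b ∧ IsSquare (a * b + 1)) :
    N.card < 2 ^ (a.primeFactors.card - 1) := by
  classical
  have hex : ∀ b : ℕ, ∃ u : ℕ, b ∈ N →
      0 < u ∧ 2 * u < a ∧ 3 * a ∣ u * (u + 1) ∧ a * b = 4 * (u * (u + 1)) := by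
    intro b
    by_cases hb : b ∈ N
    · obtain ⟨h1, h2, h3, h4⟩ := hN b hb
      obtain ⟨u, hu⟩ := half ha h3 h2 h1 h4
      exact ⟨u, fun _ => hu⟩
    · exact ⟨0, fun h => absurd h hb⟩
  choose u hu using hex
  have h2a : 2 ∈ a.primeFactors := by
    rw [Nat.mem_primeFactors]
    exact ⟨Nat.prime_two, by omega, ha0.ne'⟩
  set T := a.primeFactors.erase 2 with hT
  have hTc : T.card = a.primeFactors.card - 1 := Finset.card_erase_of_mem h2a
  have hpr : ∀ q : ℕ, q.Prime → q ∣ 3 * a → q ∈ a.primeFactors := by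
    intro q hq hqa
    rw [Nat.mem_primeFactors]
    refine ⟨hq, ?_, ha0.ne'⟩
    rcases hq.dvd_mul.1 hqa with h | h
    · rw [(Nat.prime_dvd_prime_iff_eq hq Nat.prime_three).1 h]
      omega
    · exact h
  let φ : ℕ → Finset ℕ := fun b => T.filter fun q => (q ∣ u b ↔ 2 ∣ u b)
  have hφ : ∀ b ∈ N, φ b ∈ T.powerset.erase T := by
    intro b hb
    obtain ⟨h1, h2, h3, h4⟩ := hu b hb
    rw [Finset.mem_erase]
    refine ⟨fun he => ?_, Finset.mem_powerset.2 (Finset.filter_subset _ _)⟩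
    have hall : ∀ q ∈ a.primeFactors, (q ∣ u b ↔ 2 ∣ u b) := by
      intro q hq
      by_cases hq2 : q = 2
      · rw [hq2]
      · exact (Finset.mem_filter.1 (show q ∈ φ b by
          rw [he]; exact Finset.mem_erase.2 ⟨hq2, hq⟩)).2
    have h3' : ((3 * a : ℕ) : ℤ) ∣ (u b : ℤ) * ((u b : ℤ) + 1) := by exact_mod_cast h3
    by_cases hpar : 2 ∣ u b
    · have h5 := key (v := 0) h3' (by simp) (fun q hq hqa => by
        have := (hall q (hpr q hq hqa)).2 hpar
        simp only [dvd_zero, iff_true]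
        exact_mod_cast this)
      rw [sub_zero] at h5
      have h6 : 3 * a ∣ u b := by exact_mod_cast h5
      have := Nat.le_of_dvd h1 h6
      omega
    · have h5 := key (v := -1) h3' (by simp) (fun q hq hqa => by
        have h7 : ¬ q ∣ u b := fun h => hpar ((hall q (hpr q hq hqa)).1 h)
        constructor
        · intro h
          exact absurd (by exact_mod_cast h) h7
        · intro h
          exfalso
          have : (q : ℤ) ∣ 1 := by simpa using h
          exact hq.one_lt.ne' (by exact_mod_cast Int.eq_one_of_dvd_one (by positivity) this))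
      have h6 : 3 * a ∣ u b + 1 := by
        have : ((3 * a : ℕ) : ℤ) ∣ ((u b + 1 : ℕ) : ℤ) := by
          push_cast at h5 ⊢
          simpa using h5
        exact_mod_cast this
      have := Nat.le_of_dvd (Nat.succ_pos _) h6
      omega
  have hinj : Set.InjOn φ N := by
    intro b hb c hc he
    obtain ⟨h1, h2, h3, h4⟩ := hu b hb
    obtain ⟨g1, g2, g3, g4⟩ := hu c hc
    have h3' : ((3 * a : ℕ) : ℤ) ∣ (u b : ℤ) * ((u b : ℤ) + 1) := by exact_mod_cast h3
    have g3' : ((3 * a : ℕ) : ℤ) ∣ (u c : ℤ) * ((u c : ℤ) + 1) := by exact_mod_cast g3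
    have hall : ∀ q ∈ a.primeFactors, ((q ∣ u b ↔ 2 ∣ u b) ↔ (q ∣ u c ↔ 2 ∣ u c)) := by
      intro q hq
      by_cases hq2 : q = 2
      · rw [hq2]; simp
      · have hqT : q ∈ T := Finset.mem_erase.2 ⟨hq2, hq⟩
        have e1 : q ∈ φ b ↔ (q ∣ u b ↔ 2 ∣ u b) := by simp [φ, hqT]
        have e2 : q ∈ φ c ↔ (q ∣ u c ↔ 2 ∣ u c) := by simp [φ, hqT]
        rw [← e1, ← e2]
        have he' : φ b = φ c := he
        rw [he']
    have huc : u b = u c := by
      by_cases hpar : (2 ∣ u b ↔ 2 ∣ u c)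
      · have h5 := key h3' g3' (fun q hq hqa => by
          have := hall q (hpr q hq hqa)
          have h6 : q ∣ u b ↔ q ∣ u c := by tauto
          exact_mod_cast h6)
        have h7 : |(u b : ℤ) - u c| < ((3 * a : ℕ) : ℤ) := by
          rw [abs_lt]
          constructor <;> push_cast <;> omega
        have h8 := Int.eq_zero_of_abs_lt_dvd h5 h7
        omega
      · have g3'' : ((3 * a : ℕ) : ℤ) ∣ (-(u c : ℤ) - 1) * ((-(u c : ℤ) - 1) + 1) := by
          have e : (-(u c : ℤ) - 1) * ((-(u c : ℤ) - 1) + 1) = (u c : ℤ) * ((u c : ℤ) + 1) := by ring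
          rw [e]
          exact g3'
        have h5 := key h3' g3'' (fun q hq hqa => by
          have hq1 := hall q (hpr q hq hqa)
          have h6 : q ∣ u b ↔ ¬ q ∣ u c := by tauto
          have hqp : Prime (q : ℤ) := Nat.prime_iff_prime_int.1 hq
          have h9 : ((q : ℤ) ∣ (u c : ℤ)) ∨ (q : ℤ) ∣ (u c : ℤ) + 1 :=
            hqp.dvd_or_dvd ((Int.natCast_dvd_natCast.2 hqa).trans g3')
          have hno : ¬ (q : ℤ) ∣ 1 := fun h => hqp.not_isUnit (isUnit_of_dvd_one h)
          have e : (-(u c : ℤ) - 1) = -((u c : ℤ) + 1) := by ring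
          rw [e, dvd_neg]
          have h10 : (q : ℤ) ∣ (u b : ℤ) ↔ ¬ (q : ℤ) ∣ (u c : ℤ) := by exact_mod_cast h6
          rw [h10]
          constructor
          · intro h
            exact h9.resolve_left h
          · intro h h'
            apply hno
            have := dvd_sub h h'
            simpa using this)
        exfalso
        have h6 : 3 * a ∣ u b + u c + 1 := by
          have e : (u b : ℤ) - (-(u c : ℤ) - 1) = ((u b + u c + 1 : ℕ) : ℤ) := by push_cast; ring
          rw [e] at h5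
          exact_mod_cast h5
        have := Nat.le_of_dvd (Nat.succ_pos _) h6
        omega
    have : a * b = a * c := by rw [h4, g4, huc]
    exact Nat.eq_of_mul_eq_mul_left ha0 this
  have h1 := Finset.card_le_card_of_injOn φ hφ hinj
  rw [Finset.card_erase_of_mem (Finset.mem_powerset_self _), Finset.card_powerset, hTc] at h1
  have : 0 < 2 ^ (a.primeFactors.card - 1) := by positivity
  omega

theorem core (w : ℕ) (_hw : 1 ≤ w) (n : ℕ) :
    Col {a : ℕ | a < n ∧ 0 < a ∧ 12 ∣ a ∧ a.primeFactors.card ≤ w} (2 ^ (w - 1)) := by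
  classical
  induction n with
  | zero => exact ⟨fun _ => 0, fun a ha => absurd ha.1 (by omega), fun a ha => absurd ha.1 (by omega)⟩
  | succ n ih =>
    obtain ⟨f, f1, f2⟩ := ih
    by_cases hn : 0 < n ∧ 12 ∣ n ∧ n.primeFactors.card ≤ w
    · obtain ⟨hn0, hn12, hnw⟩ := hn
      set N := (Finset.range n).filter fun b => 0 < b ∧ 12 ∣ b ∧ IsSquare (n * b + 1) with hN
      have h1 : N.card < 2 ^ (w - 1) := by
        refine lt_of_lt_of_le (card_lt hn12 hn0 fun b hb => ?_) (Nat.pow_le_pow_right (by norm_num)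
          (Nat.sub_le_sub_right hnw 1))
        have hb' := Finset.mem_filter.1 hb
        exact ⟨Finset.mem_range.1 hb'.1, hb'.2⟩
      obtain ⟨c, hc, hcN⟩ : ∃ c ∈ Finset.range (2 ^ (w - 1)), c ∉ N.image f := by
        by_contra hcon
        push Not at hcon
        have h2 := Finset.card_le_card (fun c hc => hcon c hc : Finset.range (2 ^ (w - 1)) ⊆ N.image f)
        rw [Finset.card_range] at h2
        have := Finset.card_image_le (s := N) (f := f)
        omega
      refine ⟨fun a => if a = n then c else f a, ?_, ?_⟩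
      · intro a ha
        by_cases h : a = n
        · simp only [h, if_true]
          exact Finset.mem_range.1 hc
        · simp only [h, if_false]
          exact f1 a ⟨by have := ha.1; omega, ha.2⟩
      · intro a ha b hb hab hsq
        have key2 : ∀ b : ℕ, (b < n + 1 ∧ 0 < b ∧ 12 ∣ b ∧ b.primeFactors.card ≤ w) → b ≠ n →
            IsSquare (n * b + 1) → c ≠ f b := by
          intro b hb hbn hsq he
          apply hcN
          rw [he]
          refine Finset.mem_image_of_mem f (Finset.mem_filter.2 ⟨Finset.mem_range.2 ?_, hb.2.1,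
            hb.2.2.1, hsq⟩)
          have := hb.1
          omega
        by_cases h : a = n
        · have hbn : b ≠ n := fun hh => hab (h.trans hh.symm)
          simp only [h, hbn, if_true, if_false]
          rw [h] at hsq
          exact key2 b hb hbn hsq
        · by_cases h' : b = n
          · simp only [h, h', if_true, if_false]
            rw [h', mul_comm] at hsq
            exact (key2 a ha h hsq).symm
          · simp only [h, h', if_false]
            exact f2 a ⟨by have := ha.1; omega, ha.2⟩ b ⟨by have := hb.1; omega, hb.2⟩ hab hsq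
    · refine ⟨f, fun a ha => f1 a ?_, fun a ha b hb => f2 a ?_ b ?_⟩
      · refine ⟨lt_of_le_of_ne (Nat.lt_succ_iff.1 ha.1) fun h => hn (h ▸ ha.2), ha.2⟩
      · refine ⟨lt_of_le_of_ne (Nat.lt_succ_iff.1 ha.1) fun h => hn (h ▸ ha.2), ha.2⟩
      · refine ⟨lt_of_le_of_ne (Nat.lt_succ_iff.1 hb.1) fun h => hn (h ▸ hb.2), hb.2⟩

/-- (part by helper12) -/
theorem isSquare_zmod_two (x : ZMod 2) : IsSquare x := by
  have h0 : ∀ x : ZMod 2, x = x * x := by decide
  exact ⟨x, h0 x⟩

open Classical in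
/-- At most `(p + 1) / 2` residues `r` modulo the prime `p` have `r ^ 2 + 1` a non-square. -/
theorem nonSq_card (p : ℕ) [Fact p.Prime] :
    (Finset.univ.filter (fun r : ZMod p => ¬ IsSquare (r ^ 2 + 1))).card ≤ (p + 1) / 2 := by
  have hp : p.Prime := Fact.out
  by_cases h2 : p = 2
  · subst h2
    have : (Finset.univ.filter (fun r : ZMod 2 => ¬ IsSquare (r ^ 2 + 1))) = ∅ := by
      apply Finset.filter_eq_empty_iff.2
      intro r _
      exact not_not_intro (isSquare_zmod_two _)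
    rw [this]
    simp
  · have h2' : (2 : ZMod p) ≠ 0 := by
      intro h
      have : (p : ℕ) ∣ 2 := (ZMod.natCast_eq_zero_iff 2 p).1 (by exact_mod_cast h)
      exact h2 ((Nat.prime_dvd_prime_iff_eq hp Nat.prime_two).1 this)
    set s : Finset (ZMod p) := Finset.univ.erase 0 with hs
    set f : ZMod p → ZMod p := fun t => (t - t⁻¹) / 2 with hf
    have hcard : s.card ≤ 2 * (s.image f).card := by
      apply Finset.card_le_mul_card_image
      intro a ha
      obtain ⟨t, ht, rfl⟩ := Finset.mem_image.1 ha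
      have ht0 : t ≠ 0 := by
        rw [hs] at ht
        exact (Finset.mem_erase.1 ht).1
      have hsub : (s.filter fun x => f x = f t) ⊆ {t, -t⁻¹} := by
        intro x hx
        obtain ⟨hx1, hx2⟩ := Finset.mem_filter.1 hx
        have hx0 : x ≠ 0 := by
          rw [hs] at hx1
          exact (Finset.mem_erase.1 hx1).1
        have h3 : x - x⁻¹ = t - t⁻¹ := by
          have := hx2
          simp only [hf] at this
          field_simp at this
          field_simp
          linear_combination this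
        have h4 : (x - t) * (x * t + 1) = 0 := by
          have h5 : x * t * (x - x⁻¹) = x * t * (t - t⁻¹) := by rw [h3]
          have h6 : x * t * (x - x⁻¹) = x * x * t - t := by
            field_simp
          have h7 : x * t * (t - t⁻¹) = x * t * t - x := by
            field_simp
          rw [h6, h7] at h5
          linear_combination h5
        rcases mul_eq_zero.1 h4 with h | h
        · have : x = t := by linear_combination h
          simp [this]
        · have : x = -t⁻¹ := by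
            have h8 : x * t = -1 := by linear_combination h
            field_simp
            linear_combination h8
          simp [this]
      calc (s.filter fun x => f x = f t).card ≤ ({t, -t⁻¹} : Finset (ZMod p)).card :=
            Finset.card_le_card hsub
        _ ≤ 2 := Finset.card_le_two
    have hscard : s.card = p - 1 := by
      rw [hs, Finset.card_erase_of_mem (Finset.mem_univ _), Finset.card_univ, ZMod.card]
    have hdisj : Disjoint (Finset.univ.filter (fun r : ZMod p => ¬ IsSquare (r ^ 2 + 1)))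
        (s.image f) := by
      rw [Finset.disjoint_left]
      intro r hr hr'
      obtain ⟨t, ht, rfl⟩ := Finset.mem_image.1 hr'
      have ht0 : t ≠ 0 := by
        rw [hs] at ht
        exact (Finset.mem_erase.1 ht).1
      apply (Finset.mem_filter.1 hr).2
      refine ⟨(t + t⁻¹) / 2, ?_⟩
      simp only [hf]
      field_simp
      ring
    have htot : (Finset.univ.filter (fun r : ZMod p => ¬ IsSquare (r ^ 2 + 1))).card
        + (s.image f).card ≤ p := by
      rw [← Finset.card_union_of_disjoint hdisj]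
      calc _ ≤ (Finset.univ : Finset (ZMod p)).card := Finset.card_le_univ _
        _ = p := by rw [Finset.card_univ, ZMod.card]
    have hpp : 1 ≤ p := hp.one_le
    omega

open Classical in
/-- Colour `a` by the index of its residue among the bad residues. -/
theorem colP (p : ℕ) (hp : p.Prime) :
    Col {a : ℕ | ¬ IsSquare ((a : ZMod p) ^ 2 + 1)} ((p + 1) / 2) := by
  have : Fact p.Prime := ⟨hp⟩
  set B : Finset (ZMod p) := Finset.univ.filter (fun r : ZMod p => ¬ IsSquare (r ^ 2 + 1))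
    with hB
  have hBc : B.card ≤ (p + 1) / 2 := nonSq_card p
  refine ⟨fun a => if h : (a : ZMod p) ∈ B then (B.equivFin ⟨(a : ZMod p), h⟩ : ℕ) else 0,
    ?_, ?_⟩
  · intro a ha
    have hm : (a : ZMod p) ∈ B := by
      rw [hB, Finset.mem_filter]
      exact ⟨Finset.mem_univ _, ha⟩
    simp only [hm, dif_pos]
    exact lt_of_lt_of_le (Fin.is_lt _) hBc
  · intro a ha b hb hab hsq hcol
    have hma : (a : ZMod p) ∈ B := by
      rw [hB, Finset.mem_filter]
      exact ⟨Finset.mem_univ _, ha⟩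
    have hmb : (b : ZMod p) ∈ B := by
      rw [hB, Finset.mem_filter]
      exact ⟨Finset.mem_univ _, hb⟩
    simp only [hma, hmb, dif_pos] at hcol
    have h1 := B.equivFin.injective (Fin.ext hcol)
    have h2 : (a : ZMod p) = (b : ZMod p) := by
      exact congrArg Subtype.val h1
    obtain ⟨t, ht⟩ := hsq
    apply ha
    refine ⟨(t : ZMod p), ?_⟩
    have h3 : ((a * b + 1 : ℕ) : ZMod p) = ((t * t : ℕ) : ZMod p) := by rw [ht]
    push_cast at h3
    rw [← h2] at h3
    linear_combination h3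

/-- the residue classes of the primes of `P` -/
theorem colPs (P : Finset ℕ) (hP : ∀ p ∈ P, p.Prime) :
    Col {a : ℕ | ∃ p ∈ P, ¬ IsSquare ((a : ZMod p) ^ 2 + 1)} (∑ p ∈ P, (p + 1) / 2) := by
  classical
  induction P using Finset.induction_on with
  | empty => exact ⟨fun _ => 0, fun a ha => by simp at ha, fun a ha => by simp at ha⟩
  | insert p P hp ih =>
    rw [Finset.sum_insert hp]
    refine (colP p (hP p (Finset.mem_insert_self _ _))).union
      (ih fun q hq => hP q (Finset.mem_insert_of_mem hq)) ?_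
    rintro a ⟨q, hq, h⟩
    rcases Finset.mem_insert.1 hq with rfl | hq
    · exact Or.inl h
    · exact Or.inr ⟨q, hq, h⟩

/-- A multiple of twelve has at least two prime factors. -/
theorem two_le {a : ℕ} (h0 : 0 < a) (h : 12 ∣ a) : 2 ≤ a.primeFactors.card := by
  have h1 : ({2, 3} : Finset ℕ) ⊆ a.primeFactors := by
    intro q hq
    rw [Nat.mem_primeFactors]
    rcases Finset.mem_insert.1 hq with rfl | hq
    · exact ⟨Nat.prime_two, by omega, h0.ne'⟩
    · rw [Finset.mem_singleton] at hq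
      subst hq
      exact ⟨Nat.prime_three, by omega, h0.ne'⟩
  exact (by decide : 2 ≤ ({2, 3} : Finset ℕ).card).trans (Finset.card_le_card h1)

/-- all numbers that are not multiples of twelve with more than `w` prime factors -/
theorem few (w : ℕ) (hw : 1 ≤ w) (n : ℕ) :
    Col {a : ℕ | a < n ∧ 0 < a ∧ (12 ∣ a → a.primeFactors.card ≤ w)}
      (if w ≤ 2 then w + 3 else 2 ^ (w - 1) + 4) := by
  by_cases h2 : w ≤ 2
  · rw [if_pos h2]
    rcases Nat.lt_or_ge w 2 with h1 | h1
    · refine off12.mono ?_ (by omega)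
      rintro a ⟨_, h0, h⟩ h12
      have := h h12
      have := two_le h0 h12
      omega
    · refine small.mono ?_ (by omega)
      rintro a ⟨_, h0, h⟩
      exact ⟨h0, fun h12 => (h h12).trans h2⟩
  · rw [if_neg h2]
    refine (core w hw n).union off12 ?_
    rintro a ⟨hn, h0, h⟩
    by_cases h12 : 12 ∣ a
    · exact Or.inl ⟨hn, h0, h12, h h12⟩
    · exact Or.inr h12

/-- a colouring of the graph `D(V)` -/
theorem Col.colorable {V : Finset ℕ} {n : ℕ} (h : Col {a : ℕ | a ∈ V} n) :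
    (dGraph V).Colorable n := by
  obtain ⟨f, f1, f2⟩ := h
  refine ⟨SimpleGraph.Coloring.mk (fun v : V => (⟨f v, f1 v v.2⟩ : Fin _)) ?_⟩
  intro u v huv he
  exact f2 u u.2 v v.2 (fun h => huv.1 (Subtype.ext h)) huv.2 (Fin.mk.inj_iff.1 he)

/-- Only multiples of twelve with many prime factors, in few residue classes, matter. -/
theorem general (V W P : Finset ℕ) (w k : ℕ) (hV : ∀ a ∈ V, 0 < a) (hP : ∀ p ∈ P, p.Prime)
    (hw : 1 ≤ w)
    (hW : ∀ a ∈ V, 12 ∣ a → w < a.primeFactors.card →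
      (∀ p ∈ P, IsSquare ((a : ZMod p) ^ 2 + 1)) → a ∈ W)
    (hk : (dGraph W).Colorable k) :
    (dGraph V).Colorable
      (k + (if w ≤ 2 then w + 3 else 2 ^ (w - 1) + 4) + ∑ p ∈ P, (p + 1) / 2) := by
  classical
  have h1 : Col {a : ℕ | a ∈ W} k := by
    obtain ⟨C⟩ := hk
    refine ⟨fun a => if h : a ∈ W then (C ⟨a, h⟩ : ℕ) else 0, fun a ha => ?_,
      fun a ha b hb hab hsq => ?_⟩
    · have ha' : a ∈ W := ha
      simp only [ha', dif_pos]
      exact (C ⟨a, ha'⟩).isLt
    · have ha' : a ∈ W := ha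
      have hb' : b ∈ W := hb
      simp only [ha', hb', dif_pos]
      intro he
      refine C.valid (v := ⟨a, ha'⟩) (w := ⟨b, hb'⟩) ⟨fun h => hab (congrArg Subtype.val h), hsq⟩
        (Fin.ext he)
  obtain ⟨n, hn⟩ : ∃ n, ∀ a ∈ V, a < n := ⟨V.sup id + 1, fun a ha =>
    Nat.lt_succ_of_le (Finset.le_sup (f := id) ha)⟩
  have h2 : Col {a : ℕ | a ∈ V}
      (k + (if w ≤ 2 then w + 3 else 2 ^ (w - 1) + 4) + ∑ p ∈ P, (p + 1) / 2) := by
    refine (h1.union (U := {a : ℕ | a ∈ W} ∪
      {a : ℕ | a < n ∧ 0 < a ∧ (12 ∣ a → a.primeFactors.card ≤ w)}) (few w hw n) subset_rfl).union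
      (colPs P hP) ?_
    intro a ha
    have ha' : a ∈ V := ha
    by_cases h3 : ∃ p ∈ P, ¬ IsSquare ((a : ZMod p) ^ 2 + 1)
    · exact Or.inr h3
    · refine Or.inl ?_
      by_cases h4 : 12 ∣ a ∧ w < a.primeFactors.card
      · refine Or.inl (hW a ha' h4.1 h4.2 fun p hp => ?_)
        by_contra h5
        exact h3 ⟨p, hp, h5⟩
      · refine Or.inr ⟨hn a ha', hV a ha', fun h12 => ?_⟩
        by_contra h5
        exact h4 ⟨h12, by omega⟩
  exact h2.colorable

end Pool.Agent.Lib.MP_d91fe8_nt.Twelve
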