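import Mathlib

/-!
# MP_d91fe8_nt: Diophantine graphs in far windows

`dGraph V` is the graph on a finite set `V` of natural numbers in which `a ≠ b` are adjacent if and
only if `a b + 1` is a perfect square. For every `K` it is 3-colourable for every finite set `V` of
numbers beyond an explicit bound with `√(max V) - √(min V) ≤ K` (`window`); for `K = 2` two colours
do not suffice (`sharp`). Written by helpers 76, 85, 57, 28.
-/

namespace Pool.Agent.Lib.MP_d91fe8_nt.Windows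

/-- The graph on a finite set `V` of natural numbers in which `a ≠ b` are adjacent if and only if
`a b + 1` is a perfect square. -/
def dGraph (V : Finset ℕ) : SimpleGraph V where
  Adj a b := a ≠ b ∧ IsSquare ((a : ℕ) * (b : ℕ) + 1)
  symm := ⟨fun a b h => ⟨h.1.symm, by rw [mul_comm]; exact h.2⟩⟩
  loopless := ⟨fun a h => h.1 rfl⟩

theorem alg_int {x : ℝ} (hx : IsIntegral ℤ x) {m : ℤ} (h : 4 * x = m) : (4 : ℤ) ∣ m := by
  have h1 : x = algebraMap ℚ ℝ ((m : ℚ) / 4) := by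
    rw [eq_ratCast]; push_cast; linarith
  rw [h1] at hx
  have h2 : IsIntegral ℤ ((m : ℚ) / 4) :=
    (isIntegral_algebraMap_iff (algebraMap ℚ ℝ).injective).1 hx
  obtain ⟨y, hy⟩ := IsIntegrallyClosed.isIntegral_iff.1 h2
  refine ⟨y, ?_⟩
  have h3 : (m : ℚ) = 4 * y := by
    rw [eq_intCast] at hy; linarith
  exact_mod_cast h3

theorem alg_icast (n : ℤ) : IsIntegral ℤ (n : ℝ) := by
  have h : IsIntegral ℤ (algebraMap ℤ ℝ n) := isIntegral_algebraMap
  rwa [eq_intCast] at h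

theorem alg_ncast (n : ℕ) : IsIntegral ℤ (n : ℝ) := by
  have h := alg_icast (n : ℤ)
  rwa [Int.cast_natCast] at h

theorem alg_theta {s : ℕ} (hs : s % 4 = 1) : IsIntegral ℤ ((1 + √(s : ℝ)) / 2) := by
  obtain ⟨q, hq⟩ : ∃ q : ℕ, s = 4 * q + 1 := ⟨s / 4, by omega⟩
  have hd : (Polynomial.X + Polynomial.C (q : ℤ)).degree < ((2 : ℕ) : WithBot ℕ) := by
    rw [Polynomial.degree_X_add_C]; norm_num
  refine ⟨Polynomial.X ^ 2 - (Polynomial.X + Polynomial.C (q : ℤ)),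
    Polynomial.monic_X_pow_sub hd, ?_⟩
  have h1 : √(s : ℝ) * √(s : ℝ) = (s : ℝ) := Real.mul_self_sqrt (Nat.cast_nonneg _)
  have h2 : (s : ℝ) = 4 * q + 1 := by rw [hq]; push_cast; ring
  rw [Polynomial.eval₂_sub, Polynomial.eval₂_add, Polynomial.eval₂_pow,
    Polynomial.eval₂_X, Polynomial.eval₂_C, eq_intCast, Int.cast_natCast]
  linear_combination (1 / 4 : ℝ) * h1 + (1 / 4 : ℝ) * h2

theorem alg_sqrt (t : ℕ) : IsIntegral ℤ (√(t : ℝ)) := by
  refine IsIntegral.of_pow (n := 2) (by norm_num) ?_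
  rw [Real.sq_sqrt (Nat.cast_nonneg _)]
  exact alg_ncast t

theorem alg_even {n : ℕ} (e : Fin n → ℤ) (s : Fin n → ℕ) (he : ∀ i, e i = 1 ∨ e i = -1)
    (T : Finset (Fin n)) (hT : ∀ i ∈ T, s i % 4 = 2) :
    ∃ F : ℝ, IsIntegral ℤ F ∧
      (∑ i ∈ T, (e i : ℝ) * √(s i : ℝ)) ^ 2 = 2 * (T.card : ℝ) + 4 * F := by
  classical
  induction T using Finset.induction_on with
  | empty => exact ⟨0, isIntegral_zero, by simp⟩
  | insert a T ha ih =>
    obtain ⟨F, hF, hF2⟩ := ih fun i hi => hT i (Finset.mem_insert_of_mem hi)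
    have hsa := hT a (Finset.mem_insert_self _ _)
    have hG : (∑ i ∈ T, (e i : ℝ) * √(s i : ℝ)) * √(s a : ℝ) =
        2 * ∑ i ∈ T, (e i : ℝ) * (√((s i / 2 : ℕ) : ℝ) * √((s a / 2 : ℕ) : ℝ)) := by
      rw [Finset.sum_mul, Finset.mul_sum]
      refine Finset.sum_congr rfl fun i hi => ?_
      have hsi := hT i (Finset.mem_insert_of_mem hi)
      have h1 : (s i : ℝ) = 2 * ((s i / 2 : ℕ) : ℝ) := by
        have : s i = 2 * (s i / 2) := by omega
        exact_mod_cast this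
      have h2 : (s a : ℝ) = 2 * ((s a / 2 : ℕ) : ℝ) := by
        have : s a = 2 * (s a / 2) := by omega
        exact_mod_cast this
      have h3 : √(2 : ℝ) * √(2 : ℝ) = 2 := Real.mul_self_sqrt (by norm_num)
      rw [h1, h2, Real.sqrt_mul (by norm_num), Real.sqrt_mul (by norm_num)]
      linear_combination (e i : ℝ) * √((s i / 2 : ℕ) : ℝ) * √((s a / 2 : ℕ) : ℝ) * h3
    have hGi : IsIntegral ℤ
        (∑ i ∈ T, (e i : ℝ) * (√((s i / 2 : ℕ) : ℝ) * √((s a / 2 : ℕ) : ℝ))) :=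
      IsIntegral.sum _ fun i _ => (alg_icast _).mul ((alg_sqrt _).mul (alg_sqrt _))
    refine ⟨F + (e a : ℝ) *
      (∑ i ∈ T, (e i : ℝ) * (√((s i / 2 : ℕ) : ℝ) * √((s a / 2 : ℕ) : ℝ))) + ((s a / 4 : ℕ) : ℝ),
      (hF.add ((alg_icast _).mul hGi)).add (alg_ncast _), ?_⟩
    rw [Finset.sum_insert ha, Finset.card_insert_of_notMem ha]
    have h4 : (s a : ℝ) = 4 * ((s a / 4 : ℕ) : ℝ) + 2 := by
      have : s a = 4 * (s a / 4) + 2 := by omega
      exact_mod_cast this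
    have h5 : √(s a : ℝ) * √(s a : ℝ) = (s a : ℝ) := Real.mul_self_sqrt (Nat.cast_nonneg _)
    have h6 : (e a : ℝ) * (e a : ℝ) = 1 := by
      rcases he a with h | h <;> rw [h] <;> norm_num
    push_cast
    linear_combination hF2 + 2 * (e a : ℝ) * hG + (e a : ℝ) * (e a : ℝ) * h5 + (s a : ℝ) * h6 + h4

/-- a vanishing sum of `n` terms `± √s`, `s = 1, 2 mod 4`, has `n` even -/
theorem alg {n : ℕ} (e : Fin n → ℤ) (s : Fin n → ℕ) (he : ∀ i, e i = 1 ∨ e i = -1)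
    (hs : ∀ i, s i % 4 = 1 ∨ s i % 4 = 2) (h : ∑ i, (e i : ℝ) * √(s i : ℝ) = 0) : Even n := by
  classical
  have hcard := Finset.card_filter_add_card_filter_not (s := (Finset.univ : Finset (Fin n)))
    (fun i => s i % 4 = 1)
  rw [Finset.card_univ, Fintype.card_fin] at hcard
  rw [← Finset.sum_filter_add_sum_filter_not _ (fun i => s i % 4 = 1)] at h
  set O := Finset.univ.filter (fun i : Fin n => s i % 4 = 1) with hO
  set V := Finset.univ.filter (fun i : Fin n => ¬ s i % 4 = 1) with hV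
  obtain ⟨F, hF, hF2⟩ := alg_even e s he V fun i hi => by
    have h1 : ¬ s i % 4 = 1 := (Finset.mem_filter.1 hi).2
    rcases hs i with h2 | h2
    · exact absurd h2 h1
    · exact h2
  have hα : IsIntegral ℤ (∑ i ∈ O, (e i : ℝ) * ((1 + √(s i : ℝ)) / 2)) :=
    IsIntegral.sum _ fun i hi => (alg_icast _).mul (alg_theta (Finset.mem_filter.1 hi).2)
  have hA : ∑ i ∈ O, (e i : ℝ) * √(s i : ℝ) =
      2 * (∑ i ∈ O, (e i : ℝ) * ((1 + √(s i : ℝ)) / 2)) - ((∑ i ∈ O, e i : ℤ) : ℝ) := by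
    push_cast
    rw [Finset.mul_sum, ← Finset.sum_sub_distrib]
    exact Finset.sum_congr rfl fun i _ => by ring
  have hE : ∃ f : ℤ, ∑ i ∈ O, e i = 2 * f + (O.card : ℤ) := by
    refine ⟨∑ i ∈ O, (e i - 1) / 2, ?_⟩
    rw [Finset.mul_sum, Finset.card_eq_sum_ones]
    push_cast
    rw [← Finset.sum_add_distrib]
    refine Finset.sum_congr rfl fun i _ => ?_
    rcases he i with h | h <;> rw [h] <;> norm_num
  obtain ⟨f, hf⟩ := hE
  set E : ℤ := ∑ i ∈ O, e i with hEdef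
  set α : ℝ := ∑ i ∈ O, (e i : ℝ) * ((1 + √(s i : ℝ)) / 2) with hαdef
  have hkey : 4 * (α ^ 2 - α * (E : ℝ) - F) = ((2 * (V.card : ℤ) - E ^ 2 : ℤ) : ℝ) := by
    have hB : ∑ i ∈ V, (e i : ℝ) * √(s i : ℝ) = -(2 * α - (E : ℝ)) := by
      rw [← hA]; linarith
    rw [hB] at hF2
    push_cast
    linear_combination hF2
  have hint : IsIntegral ℤ (α ^ 2 - α * (E : ℝ) - F) :=
    ((hα.pow 2).sub (hα.mul (alg_icast _))).sub hF
  have hdiv := alg_int hint hkey
  have hEeven : Even E := by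
    have h1 : (2 : ℤ) ∣ E ^ 2 := by
      have h2 : (2 : ℤ) ∣ 2 * (V.card : ℤ) - E ^ 2 := dvd_trans (by norm_num) hdiv
      have h3 : (2 : ℤ) ∣ 2 * (V.card : ℤ) := dvd_mul_right _ _
      have h4 := dvd_sub h3 h2
      simpa using h4
    exact even_iff_two_dvd.2 (Int.prime_two.dvd_of_dvd_pow h1)
  obtain ⟨g, hg⟩ := hEeven
  have hl : Even (V.card : ℤ) := by
    obtain ⟨c, hc⟩ := hdiv
    refine ⟨c + g ^ 2, ?_⟩
    rw [hg] at hc
    linarith [hc, sq g]
  have hk : Even (O.card : ℤ) := ⟨g - f, by omega⟩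
  have hn : Even ((O.card + V.card : ℕ) : ℤ) := by
    push_cast; exact hk.add hl
  rw [hcard] at hn
  exact_mod_cast hn

open Polynomial in
theorem split_poly (m : ℤ) (f : Polynomial ℤ) : ∃ A B : Polynomial ℤ, ∀ x r : ℝ, r ^ 2 = m →
    aeval (x + r) f = aeval x A + r * aeval x B := by
  induction f using Polynomial.induction_on with
  | C a => exact ⟨C a, 0, fun x r _ => by simp⟩
  | add p q hp hq =>
    obtain ⟨A1, B1, h1⟩ := hp
    obtain ⟨A2, B2, h2⟩ := hq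
    refine ⟨A1 + A2, B1 + B2, fun x r hr => ?_⟩
    rw [map_add, h1 x r hr, h2 x r hr, map_add, map_add]
    ring
  | monomial n a ih =>
    obtain ⟨A, B, h⟩ := ih
    refine ⟨A * X + C m * B, B * X + A, fun x r hr => ?_⟩
    have e : (C a * X ^ (n + 1) : Polynomial ℤ) = C a * X ^ n * X := by ring
    rw [e, map_mul, h x r hr, map_add, map_add, map_mul, map_mul, map_mul, aeval_X, aeval_X]
    have e2 : aeval x (C m : Polynomial ℤ) = (m : ℝ) := by simp
    rw [e2, ← hr]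
    ring

open Polynomial in
theorem conj_exists (r : ℕ → ℝ) (m : ℕ → ℤ) (hr : ∀ t, r t ^ 2 = m t) (k : ℕ) :
    ∃ (M : Multiset ℝ) (P : Polynomial ℤ), Multiset.card M = 2 ^ k ∧
      (∑ t ∈ Finset.range k, r t) ∈ M ∧
      (∀ y ∈ M, |y| ≤ ∑ t ∈ Finset.range k, |r t|) ∧
      ∀ x : ℝ, aeval x P = (M.map fun y => x - y).prod := by
  induction k with
  | zero => exact ⟨{0}, X, by simp, by simp, by simp, fun x => by simp⟩
  | succ k ih =>
    obtain ⟨M, P, h1, h2, h3, h4⟩ := ih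
    obtain ⟨A, B, hAB⟩ := split_poly (m k) P
    refine ⟨M.map (fun y => y + r k) + M.map (fun y => y - r k), A ^ 2 - C (m k) * B ^ 2,
      ?_, ?_, ?_, ?_⟩
    · rw [Multiset.card_add, Multiset.card_map, Multiset.card_map, h1]
      ring
    · rw [Multiset.mem_add]
      left
      rw [Finset.sum_range_succ]
      exact Multiset.mem_map_of_mem (fun y => y + r k) h2
    · intro y hy
      rw [Finset.sum_range_succ]
      rw [Multiset.mem_add, Multiset.mem_map, Multiset.mem_map] at hy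
      rcases hy with ⟨z, hz, rfl⟩ | ⟨z, hz, rfl⟩
      · exact (abs_add_le z (r k)).trans (add_le_add (h3 z hz) le_rfl)
      · exact (abs_sub z (r k)).trans (add_le_add (h3 z hz) le_rfl)
    · intro x
      have p1 := hAB x (r k) (hr k)
      have p2 := hAB x (-(r k)) (by rw [neg_sq, hr k])
      rw [h4] at p1 p2
      rw [Multiset.map_add, Multiset.prod_add, Multiset.map_map, Multiset.map_map]
      have q1 : (M.map ((fun y => x - y) ∘ fun y => y + r k)).prod =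
          (M.map fun y => x + -(r k) - y).prod := by
        congr 1
        apply Multiset.map_congr rfl
        intro y _
        simp only [Function.comp_apply]
        ring
      have q2 : (M.map ((fun y => x - y) ∘ fun y => y - r k)).prod =
          (M.map fun y => x + r k - y).prod := by
        congr 1
        apply Multiset.map_congr rfl
        intro y _
        simp only [Function.comp_apply]
        ring
      rw [q1, q2, p1, p2, map_sub, map_mul, map_pow, map_pow]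
      have e2 : aeval x (C (m k) : Polynomial ℤ) = ((m k : ℤ) : ℝ) := by simp
      rw [e2, ← hr k]
      ring

open Polynomial in
theorem prod_ge (M : Multiset ℝ) (P : Polynomial ℤ)
    (h : ∀ x : ℝ, aeval x P = (M.map fun y => x - y).prod) :
    1 ≤ |((M.filter fun y => y ≠ 0).map fun y => -y).prod| := by
  classical
  set M1 := M.filter fun y => y ≠ 0 with hM1
  have hsplit : M = Multiset.replicate (M.count 0) 0 + M1 := by
    have h1 := Multiset.filter_add_not (fun y : ℝ => y = 0) M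
    have h2 : M.filter (fun y : ℝ => y = 0) = Multiset.replicate (M.count 0) 0 :=
      Multiset.filter_eq' M 0
    rw [h2] at h1
    exact h1.symm
  have hpoly : P.map (Int.castRingHom ℝ) =
      X ^ (M.count 0) * (M1.map fun y => X - C y).prod := by
    apply Polynomial.funext
    intro x
    have h1 := h x
    have e1 : eval x (P.map (Int.castRingHom ℝ)) = aeval x P := by
      rw [aeval_def, eval_map]
      rfl
    rw [e1, h1, eval_mul, eval_pow, eval_X]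
    conv_lhs => rw [hsplit]
    rw [Multiset.map_add, Multiset.prod_add, Multiset.map_replicate, Multiset.prod_replicate,
      sub_zero, Polynomial.eval_multiset_prod, Multiset.map_map]
    congr 2
    apply Multiset.map_congr rfl
    intro y _
    simp
  have hc := congrArg (fun p : Polynomial ℝ => p.coeff (0 + M.count 0)) hpoly
  simp only [coeff_map] at hc
  rw [Polynomial.coeff_X_pow_mul, Polynomial.coeff_zero_eq_eval_zero,
    Polynomial.eval_multiset_prod, Multiset.map_map] at hc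
  have e3 : (M1.map ((eval 0) ∘ fun y => (X - C y : Polynomial ℝ))).prod =
      (M1.map fun y => -y).prod := by
    congr 1
    apply Multiset.map_congr rfl
    intro y _
    simp
  rw [e3] at hc
  rw [← hc]
  have hne : (M1.map fun y => -y).prod ≠ 0 := by
    rw [Ne, Multiset.prod_eq_zero_iff, Multiset.mem_map]
    rintro ⟨y, hy, hy0⟩
    rw [hM1, Multiset.mem_filter] at hy
    exact hy.2 (by linarith)
  rw [← hc] at hne
  have hz : P.coeff (0 + M.count 0) ≠ 0 := by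
    intro h0
    apply hne
    rw [h0]
    simp
  have h5 : (1 : ℤ) ≤ |P.coeff (0 + M.count 0)| := Int.one_le_abs hz
  have h6 : ((1 : ℤ) : ℝ) ≤ ((|P.coeff (0 + M.count 0)| : ℤ) : ℝ) := by exact_mod_cast h5
  simpa using h6

theorem prod_le (M : Multiset ℝ) (H : ℝ) (hH : 1 ≤ H) (hM : ∀ y ∈ M, |y| ≤ H) :
    |(M.map fun y => -y).prod| ≤ H ^ (Multiset.card M) := by
  induction M using Multiset.induction_on with
  | empty => simp
  | cons a s ih =>
    rw [Multiset.map_cons, Multiset.prod_cons, abs_mul, abs_neg, Multiset.card_cons, pow_succ,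
      mul_comm (H ^ _)]
    exact mul_le_mul (hM a (Multiset.mem_cons_self a s))
      (ih fun y hy => hM y (Multiset.mem_cons_of_mem hy)) (abs_nonneg _) (by linarith)

theorem conj_bound (M : Multiset ℝ) (P : Polynomial ℤ)
    (h : ∀ x : ℝ, Polynomial.aeval x P = (M.map fun y => x - y).prod) (H : ℝ) (hH : 1 ≤ H)
    (hM : ∀ y ∈ M, |y| ≤ H) (x : ℝ) (hx : x ∈ M) (hx0 : x ≠ 0) :
    1 ≤ |x| * H ^ (Multiset.card M) := by
  classical
  have h1 := prod_ge M P h
  have hx1 : x ∈ M.filter fun y => y ≠ 0 := Multiset.mem_filter.2 ⟨hx, hx0⟩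
  obtain ⟨M2, hM2⟩ := Multiset.exists_cons_of_mem hx1
  have hle : M.filter (fun y => y ≠ 0) ≤ M := Multiset.filter_le _ M
  rw [hM2, Multiset.map_cons, Multiset.prod_cons, abs_mul, abs_neg] at h1
  have h2 : |(M2.map fun y => -y).prod| ≤ H ^ (Multiset.card M2) := by
    apply prod_le M2 H hH
    intro y hy
    apply hM y
    apply Multiset.mem_of_le hle
    rw [hM2]
    exact Multiset.mem_cons_of_mem hy
  have h3 : Multiset.card M2 ≤ Multiset.card M := by
    have := Multiset.card_le_card hle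
    rw [hM2, Multiset.card_cons] at this
    omega
  have h4 : H ^ (Multiset.card M2) ≤ H ^ (Multiset.card M) := pow_le_pow_right₀ hH h3
  calc 1 ≤ |x| * |(M2.map fun y => -y).prod| := h1
    _ ≤ |x| * H ^ (Multiset.card M) :=
      mul_le_mul_of_nonneg_left (h2.trans h4) (abs_nonneg x)

/-- the signed sums of at most `B` square roots of numbers `≤ L` stay away from zero, or vanish -/
theorem discE (L B : ℕ) (hB : 1 ≤ B) (n : ℕ) (hn : n ≤ B) (e : Fin n → ℤ) (s : Fin n → ℕ)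
    (he : ∀ i, e i = 1 ∨ e i = -1) (hs : ∀ i, s i ≤ L)
    (h : |∑ i, (e i : ℝ) * √(s i : ℝ)| * ((B * (L + 1) : ℕ) : ℝ) ^ (2 ^ (L + 1)) < 1) :
    ∑ i, (e i : ℝ) * √(s i : ℝ) = 0 := by
  classical
  set c : ℕ → ℤ := fun t => ∑ i ∈ Finset.univ.filter (fun i : Fin n => s i = t), e i with hc
  have hsum : ∑ i, (e i : ℝ) * √(s i : ℝ) = ∑ t ∈ Finset.range (L + 1), (c t : ℝ) * √(t : ℝ) := by
    have h1 : ∀ i ∈ (Finset.univ : Finset (Fin n)), s i ∈ Finset.range (L + 1) := fun i _ =>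
      Finset.mem_range.2 (Nat.lt_succ_of_le (hs i))
    rw [← Finset.sum_fiberwise_of_maps_to h1]
    apply Finset.sum_congr rfl
    intro t _
    rw [hc]
    push_cast
    rw [Finset.sum_mul]
    apply Finset.sum_congr rfl
    intro i hi
    rw [(Finset.mem_filter.1 hi).2]
  have habs : ∑ t ∈ Finset.range (L + 1), |(c t : ℝ) * √(t : ℝ)| ≤ ((B * (L + 1) : ℕ) : ℝ) := by
    have h2 : ∀ t ∈ Finset.range (L + 1), |(c t : ℝ) * √(t : ℝ)| ≤
        ∑ i ∈ Finset.univ.filter (fun i : Fin n => s i = t), (L + 1 : ℝ) := by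
      intro t ht
      rw [abs_mul, abs_of_nonneg (Real.sqrt_nonneg _)]
      have h3 : |(c t : ℝ)| ≤ ∑ i ∈ Finset.univ.filter (fun i : Fin n => s i = t), (1 : ℝ) := by
        rw [hc]
        push_cast
        refine (Finset.abs_sum_le_sum_abs _ _).trans (Finset.sum_le_sum fun i _ => ?_)
        rcases he i with h4 | h4 <;> rw [h4] <;> norm_num
      have h5 : √(t : ℝ) ≤ L + 1 := by
        rw [Real.sqrt_le_left (by positivity)]
        have h6 : (t : ℝ) ≤ L := by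
          exact_mod_cast Nat.lt_succ_iff.1 (Finset.mem_range.1 ht)
        have h7 : (0 : ℝ) ≤ L := Nat.cast_nonneg L
        nlinarith
      calc |(c t : ℝ)| * √(t : ℝ) ≤
          (∑ i ∈ Finset.univ.filter (fun i : Fin n => s i = t), (1 : ℝ)) * (L + 1) :=
            mul_le_mul h3 h5 (Real.sqrt_nonneg _) (Finset.sum_nonneg fun i _ => zero_le_one)
        _ = _ := by rw [Finset.sum_mul]; simp
    refine (Finset.sum_le_sum h2).trans ?_
    have h1 : ∀ i ∈ (Finset.univ : Finset (Fin n)), s i ∈ Finset.range (L + 1) := fun i _ =>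
      Finset.mem_range.2 (Nat.lt_succ_of_le (hs i))
    rw [Finset.sum_fiberwise_of_maps_to h1, Finset.sum_const, Finset.card_univ, Fintype.card_fin,
      nsmul_eq_mul]
    push_cast
    have h8 : (n : ℝ) ≤ B := by exact_mod_cast hn
    exact mul_le_mul_of_nonneg_right h8 (by positivity)
  obtain ⟨M, P, m1, m2, m3, m4⟩ := conj_exists (fun t => (c t : ℝ) * √(t : ℝ))
    (fun t => c t ^ 2 * t) (fun t => by
      rw [mul_pow, Real.sq_sqrt (Nat.cast_nonneg t)]
      push_cast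
      ring) (L + 1)
  by_contra hne
  rw [hsum] at h hne
  have hH : (1 : ℝ) ≤ ((B * (L + 1) : ℕ) : ℝ) := by
    have : 1 ≤ B * (L + 1) := Nat.one_le_iff_ne_zero.2 (by positivity)
    exact_mod_cast this
  have hfin := conj_bound M P m4 _ hH (fun y hy => (m3 y hy).trans habs) _ m2 hne
  rw [m1] at hfin
  linarith

theorem turn_step (L s v w y y' : ℕ) (hs : 1 ≤ s) (hsL : s ≤ L) (hvw : v < w)
    (h1 : s * v + 1 = y ^ 2) (h2 : s * w + 1 = y' ^ 2)
    (h : √(w : ℝ) - √(v : ℝ) ≤ L) : (y : ℤ) < y' ∧ (y' : ℤ) - y ≤ L * L := by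
  have hlt : y < y' := by
    have h3 : y ^ 2 < y' ^ 2 := by
      rw [← h1, ← h2]
      have : s * v < s * w := Nat.mul_lt_mul_of_pos_left hvw (by omega)
      omega
    exact lt_of_pow_lt_pow_left₀ 2 (Nat.zero_le _) h3
  refine ⟨by exact_mod_cast hlt, ?_⟩
  have hs' : (1 : ℝ) ≤ s := by exact_mod_cast hs
  have hsL' : (s : ℝ) ≤ L := by exact_mod_cast hsL
  have hv0 : (0 : ℝ) ≤ v := Nat.cast_nonneg v
  have hw0 : (0 : ℝ) < w := by exact_mod_cast (lt_of_le_of_lt (Nat.zero_le v) hvw)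
  have e1 : (s : ℝ) * v + 1 = (y : ℝ) ^ 2 := by exact_mod_cast h1
  have e2 : (s : ℝ) * w + 1 = (y' : ℝ) ^ 2 := by exact_mod_cast h2
  have sv : √(v : ℝ) ^ 2 = v := Real.sq_sqrt hv0
  have sw : √(w : ℝ) ^ 2 = w := Real.sq_sqrt hw0.le
  have hy : √(v : ℝ) ≤ y := by
    apply Real.sqrt_le_iff.mpr
    refine ⟨Nat.cast_nonneg y, ?_⟩
    nlinarith
  have hy' : √(w : ℝ) ≤ y' := by
    apply Real.sqrt_le_iff.mpr
    refine ⟨Nat.cast_nonneg y', ?_⟩
    nlinarith
  have swp : 0 < √(w : ℝ) := Real.sqrt_pos.mpr hw0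
  have svp : 0 ≤ √(v : ℝ) := Real.sqrt_nonneg _
  have hd : (0 : ℝ) ≤ (y' : ℝ) - y := by
    have : (y : ℝ) ≤ y' := by exact_mod_cast hlt.le
    linarith
  set a := √(v : ℝ) with ha
  set b := √(w : ℝ) with hb
  have hL0 : (0 : ℝ) ≤ L := Nat.cast_nonneg L
  have key : ((y' : ℝ) - y) * (a + b) ≤ (L * L) * (a + b) := by
    have k1 : ((y' : ℝ) - y) * (a + b) ≤ ((y' : ℝ) - y) * (y + y') :=
      mul_le_mul_of_nonneg_left (by linarith) hd
    have k2 : ((y' : ℝ) - y) * (y + y') = s * ((b - a) * (a + b)) := by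
      have : ((y' : ℝ) - y) * (y + y') = (y' : ℝ) ^ 2 - (y : ℝ) ^ 2 := by ring
      rw [this, ← e1, ← e2, ← sv, ← sw]; ring
    have k3 : (b - a) * (a + b) ≤ L * (a + b) := mul_le_mul_of_nonneg_right h (by linarith)
    have k4 : (s : ℝ) * ((b - a) * (a + b)) ≤ L * (L * (a + b)) := by
      have : (s : ℝ) * ((b - a) * (a + b)) ≤ s * (L * (a + b)) :=
        mul_le_mul_of_nonneg_left k3 (by linarith)
      have h5 : (s : ℝ) * (L * (a + b)) ≤ L * (L * (a + b)) :=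
        mul_le_mul_of_nonneg_right hsL' (mul_nonneg hL0 (by linarith))
      linarith
    rw [k2] at k1
    calc _ ≤ _ := k1
      _ ≤ _ := k4
      _ = _ := by ring
  have hab : 0 < a + b := by linarith
  have fin : ((y' : ℝ) - y) ≤ L * L := le_of_mul_le_mul_right key hab
  exact_mod_cast fin

theorem turn_int (L s t v w y z i j : ℤ) (s1 : 1 ≤ s) (t1 : 1 ≤ t) (sL : s ≤ L) (tL : t ≤ L)
    (hst : t - s ≠ 0) (v0 : 0 ≤ v) (vL : L ^ 6 ≤ v) (y0 : 0 ≤ y) (z0 : 0 ≤ z) (i1 : 1 ≤ i)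
    (j1 : 1 ≤ j) (hile : i ≤ L * L) (g1 : s * v + 1 = y ^ 2) (g2 : t * v + 1 = z ^ 2)
    (g3 : s * w + 1 = (y + i) ^ 2) (g4 : t * w + 1 = (z + j) ^ 2) : False := by
  have e1 : 2 * (t * i * y - s * j * z) = s * j ^ 2 - t * i ^ 2 := by
    linear_combination t * g1 - t * g3 - s * g2 + s * g4
  have e2 : t * y ^ 2 - s * z ^ 2 = t - s := by
    linear_combination s * g2 - t * g1
  have e3 : (s * j ^ 2 - t * i ^ 2) * (t * i * y + s * j * z + 2 * s * z ^ 2)
      = (2 * (t * i ^ 2)) * (t - s) := by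
    linear_combination (-(t * i * y + s * j * z)) * e1 + 2 * t * i ^ 2 * e2
  have i0 : (0 : ℤ) ≤ i := by linarith
  have j0 : (0 : ℤ) ≤ j := by linarith
  have s0 : (0 : ℤ) ≤ s := by linarith
  have t0 : (0 : ℤ) ≤ t := by linarith
  have L0 : (0 : ℤ) ≤ L := by linarith
  have hne : t * i ^ 2 ≠ 0 := by
    have : 0 < t * i ^ 2 := by positivity
    exact ne_of_gt this
  have L6 : (0 : ℤ) ≤ L ^ 6 := pow_nonneg L0 6
  have zsq : L ^ 6 + 1 ≤ z ^ 2 := by
    rw [← g2]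
    have : v ≤ t * v := le_mul_of_one_le_left v0 t1
    linarith
  have a1 : 0 ≤ t * i * y := mul_nonneg (mul_nonneg t0 i0) y0
  have a2 : 0 ≤ s * j * z := mul_nonneg (mul_nonneg s0 j0) z0
  have a3 : z ^ 2 ≤ s * z ^ 2 := le_mul_of_one_le_left (sq_nonneg z) s1
  have isq : i ^ 2 ≤ L ^ 4 := by
    have h1 : i ^ 2 ≤ (L * L) ^ 2 := pow_le_pow_left₀ i0 hile 2
    have h2 : (L * L) ^ 2 = L ^ 4 := by ring
    rw [h2] at h1
    exact h1
  have q1 : t * i ^ 2 ≤ L * L ^ 4 := mul_le_mul tL isq (sq_nonneg i) L0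
  generalize hc : s * j ^ 2 - t * i ^ 2 = c at e3
  generalize hT : t * i * y + s * j * z + 2 * s * z ^ 2 = T at e3
  generalize hB : t * i ^ 2 = B at e3 hne q1
  generalize hd : t - s = d at e3 hst
  have hTbig : 2 * (L ^ 6 + 1) ≤ T := by
    rw [← hT]
    have : 2 * s * z ^ 2 = 2 * (s * z ^ 2) := by ring
    rw [this]
    linarith
  have hT0 : 0 ≤ T := by linarith
  have hB0 : 0 ≤ B := by rw [← hB]; exact mul_nonneg t0 (sq_nonneg i)
  have c0 : c ≠ 0 := by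
    intro h0
    rw [h0, zero_mul] at e3
    rcases mul_eq_zero.mp e3.symm with h5 | h5
    · exact hne (by linarith)
    · exact hst h5
  have c1 : 1 ≤ |c| := Int.one_le_abs c0
  have d1 : |d| ≤ L := by
    rw [← hd, abs_le]; constructor <;> linarith
  have babs : |c| * T = (2 * B) * |d| := by
    have h5 := congrArg abs e3
    rw [abs_mul, abs_mul, abs_of_nonneg hT0, abs_of_nonneg (by linarith : (0:ℤ) ≤ 2 * B)] at h5
    exact h5
  have l1 : T ≤ |c| * T := le_mul_of_one_le_left hT0 c1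
  have r1 : (2 * B) * |d| ≤ (2 * (L * L ^ 4)) * L :=
    mul_le_mul (by linarith) d1 (abs_nonneg _) (by positivity)
  have r2 : (2 * (L * L ^ 4)) * L = 2 * L ^ 6 := by ring
  rw [r2] at r1
  linarith

theorem turn_aux (L : ℕ) (s t v w y z y' z' : ℕ) (hs : 1 ≤ s) (ht : 1 ≤ t) (hsL : s ≤ L)
    (htL : t ≤ L) (hst : s ≠ t) (hv : L ^ 6 ≤ v) (hvw : v < w) (h1 : s * v + 1 = y ^ 2)
    (h2 : t * v + 1 = z ^ 2) (h3 : s * w + 1 = y' ^ 2) (h4 : t * w + 1 = z' ^ 2)
    (h : √(w : ℝ) - √(v : ℝ) ≤ L) : False := by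
  obtain ⟨hi0, hi1⟩ := turn_step L s v w y y' hs hsL hvw h1 h3 h
  obtain ⟨hj0, hj1⟩ := turn_step L t v w z z' ht htL hvw h2 h4 h
  have g1 : (s : ℤ) * v + 1 = (y : ℤ) ^ 2 := by exact_mod_cast h1
  have g2 : (t : ℤ) * v + 1 = (z : ℤ) ^ 2 := by exact_mod_cast h2
  have g3 : (s : ℤ) * w + 1 = ((y : ℤ) + ((y' : ℤ) - y)) ^ 2 := by
    have e : ((y : ℤ) + ((y' : ℤ) - y)) = y' := by ring
    rw [e]; exact_mod_cast h3
  have g4 : (t : ℤ) * w + 1 = ((z : ℤ) + ((z' : ℤ) - z)) ^ 2 := by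
    have e : ((z : ℤ) + ((z' : ℤ) - z)) = z' := by ring
    rw [e]; exact_mod_cast h4
  exact turn_int L s t v w y z (y' - y) (z' - z) (by exact_mod_cast hs) (by exact_mod_cast ht)
    (by exact_mod_cast hsL) (by exact_mod_cast htL) (by omega) (Int.natCast_nonneg v)
    (by exact_mod_cast hv) (Int.natCast_nonneg y) (Int.natCast_nonneg z) (by omega) (by omega)
    hi1 g1 g2 g3 g4

theorem turn (L : ℕ) : ∀ s t v w y z y' z' : ℕ, 1 ≤ s → 1 ≤ t → s ≤ L → t ≤ L →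
    s ≠ t → L ^ 6 ≤ v → L ^ 6 ≤ w → s * v + 1 = y ^ 2 → t * v + 1 = z ^ 2 → s * w + 1 = y' ^ 2 →
    t * w + 1 = z' ^ 2 → |√(v : ℝ) - √(w : ℝ)| ≤ L → v = w := by
  intro s t v w y z y' z' hs ht hsL htL hst hv hw h1 h2 h3 h4 h
  rw [abs_le] at h
  rcases lt_trichotomy v w with hlt | heq | hgt
  · exact (turn_aux L s t v w y z y' z' hs ht hsL htL hst hv hlt h1 h2 h3 h4
      (by linarith [h.1])).elim
  · exact heq
  · exact (turn_aux L s t w v y' z' y z hs ht hsL htL hst hw hgt h3 h4 h1 h2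
      (by linarith [h.2])).elim

/-- A stretch of steps of length at least one without a turn is monotone, so it moves by its
length. -/
theorem run_block (n : ℕ) (r : ℕ → ℝ) (s : ℕ → ℕ)
    (hstep : ∀ i < n, 1 ≤ |r (i+1) - r i|)
    (hmono : ∀ i, i + 1 < n → s i = s (i+1) → (r i < r (i+1) ↔ r (i+1) < r (i+2)))
    (k m : ℕ) (hkm : k + m < n) (hno : ∀ i, k ≤ i → i < k + m → s i = s (i+1)) :
    ((m : ℝ) + 1 ≤ r (k + m + 1) - r k ∧ r (k + m) < r (k + m + 1)) ∨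
    ((m : ℝ) + 1 ≤ r k - r (k + m + 1) ∧ ¬ r (k + m) < r (k + m + 1)) := by
  induction m with
  | zero =>
    have h1 := hstep k (by simpa using hkm)
    rw [Nat.add_zero] 
    by_cases h : r k < r (k + 1)
    · left
      rw [abs_of_pos (by linarith)] at h1
      exact ⟨by push_cast; linarith, h⟩
    · right
      rw [abs_of_nonpos (by linarith [not_lt.1 h])] at h1
      exact ⟨by push_cast; linarith, h⟩
  | succ m ih =>
    have ih' := ih (by omega) (fun i h1 h2 => hno i h1 (by omega))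
    have h1 := hstep (k + m + 1) (by omega)
    have h2 := hmono (k + m) (by omega) (hno (k + m) (by omega) (by omega))
    have e1 : k + (m + 1) = k + m + 1 := rfl
    have e2 : k + m + 1 + 1 = k + m + 2 := rfl
    rw [e1]
    rw [e2] at h1 ⊢
    rcases ih' with ⟨h3, h4⟩ | ⟨h3, h4⟩
    · left
      have h5 := h2.1 h4
      rw [abs_of_pos (by linarith)] at h1
      exact ⟨by push_cast; linarith, h5⟩
    · right
      have h5 : ¬ r (k + m + 1) < r (k + m + 2) := fun h => h4 (h2.2 h)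
      rw [abs_of_nonpos (by linarith [not_lt.1 h5])] at h1
      exact ⟨by push_cast; linarith, h5⟩

theorem run (L n : ℕ) (r : ℕ → ℝ) (s : ℕ → ℕ) (hs : ∀ i < n, s i ≤ L)
    (hstep : ∀ i < n, 1 ≤ |r (i+1) - r i|)
    (hmono : ∀ i, i + 1 < n → s i = s (i+1) → (r i < r (i+1) ↔ r (i+1) < r (i+2)))
    (hturn : ∀ i j, i + 1 < n → j + 1 < n → s i ≠ s (i+1) → s i = s j → s (i+1) = s (j+1) → i = j)
    (hK : ∀ i j, i ≤ n → j ≤ n → |r i - r j| ≤ L) : n ≤ ((L+1)^2+1) * (L+2) := by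
  by_contra hcon
  have hn : ((L+1)^2+1) * (L+2) < n := not_le.1 hcon
  -- every block contains a turn
  have hex : ∀ t : Fin ((L+1)^2+1), ∃ i, (t : ℕ) * (L + 2) ≤ i ∧ i < (t : ℕ) * (L + 2) + (L + 1) ∧
      s i ≠ s (i + 1) := by
    intro t
    by_contra hno
    push Not at hno
    have ht : (t : ℕ) * (L + 2) + (L + 2) ≤ ((L+1)^2+1) * (L+2) := by
      have h0 : (t : ℕ) + 1 ≤ (L+1)^2+1 := t.isLt
      have h00 := Nat.mul_le_mul_right (L + 2) h0
      rw [add_mul, one_mul] at h00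
      exact h00
    have hb := run_block n r s hstep hmono ((t : ℕ) * (L + 2)) (L + 1) (by omega)
      (fun i h1 h2 => hno i h1 h2)
    have hk := hK ((t : ℕ) * (L + 2) + (L + 1) + 1) ((t : ℕ) * (L + 2)) (by omega) (by omega)
    have hk' := abs_le.1 hk
    rcases hb with ⟨h3, -⟩ | ⟨h3, -⟩
    · push_cast at h3
      linarith [hk'.2]
    · push_cast at h3
      linarith [hk'.1]
  choose g g1 g2 g3 using hex
  have hgn : ∀ t, g t + 1 < n := by
    intro t
    have h0 : (t : ℕ) + 1 ≤ (L+1)^2+1 := t.isLt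
    have h00 := Nat.mul_le_mul_right (L + 2) h0
    rw [add_mul, one_mul] at h00
    have := g2 t
    omega
  have hinj : Function.Injective (fun t : Fin ((L+1)^2+1) =>
      ((⟨s (g t), Nat.lt_succ_of_le (hs _ (by have := hgn t; omega))⟩ : Fin (L + 1)),
       (⟨s (g t + 1), Nat.lt_succ_of_le (hs _ (hgn t))⟩ : Fin (L + 1)))) := by
    intro t u htu
    simp only [Prod.mk.injEq, Fin.mk.injEq] at htu
    have h := hturn (g t) (g u) (hgn t) (hgn u) (g3 t) htu.1 htu.2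
    have a1 := g1 t
    have a2 := g2 t
    have b1 := g1 u
    have b2 := g2 u
    rw [h] at a1 a2
    apply Fin.ext
    rcases lt_trichotomy (t : ℕ) (u : ℕ) with hlt | heq | hlt
    · exfalso
      have h00 := Nat.mul_le_mul_right (L + 2) (Nat.succ_le_of_lt hlt)
      rw [Nat.succ_mul] at h00
      omega
    · exact heq
    · exfalso
      have h00 := Nat.mul_le_mul_right (L + 2) (Nat.succ_le_of_lt hlt)
      rw [Nat.succ_mul] at h00
      omega
  have hcard := Fintype.card_le_of_injective _ hinj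
  rw [Fintype.card_fin, Fintype.card_prod, Fintype.card_fin] at hcard
  nlinarith

/-- arbitrarily far out there are sets in a window `√max - √min ≤ 2` which are not 2-colourable -/
theorem sharp (N : ℕ) : ∃ V : Finset ℕ, (∀ a ∈ V, N ≤ a) ∧
    (∀ a ∈ V, ∀ b ∈ V, √(b : ℝ) - √(a : ℝ) ≤ 2) ∧ ¬ (dGraph V).Colorable 2 := by
  classical
  -- y = 2 m + 1, v = 2 m (m + 1), w = v + 4 m + 4
  obtain ⟨m, hm⟩ : ∃ m : ℕ, m = N + 1 := ⟨_, rfl⟩
  obtain ⟨v, hv⟩ : ∃ v : ℕ, v = 2 * m * (m + 1) := ⟨_, rfl⟩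
  have hvN : N ≤ v := by rw [hv]; nlinarith
  refine ⟨(Finset.range (2 * m + 3)).image (fun i => v + 2 * i), ?_, ?_, ?_⟩
  · intro a ha
    obtain ⟨i, -, rfl⟩ := Finset.mem_image.1 ha
    omega
  · intro a ha b hb
    obtain ⟨i, -, rfl⟩ := Finset.mem_image.1 ha
    obtain ⟨j, hj, rfl⟩ := Finset.mem_image.1 hb
    have hj' : j ≤ 2 * m + 2 := by have := Finset.mem_range.1 hj; omega
    -- √(v + 2 j) ≤ √v + 2 as v + 2 j ≤ v + 4 √v + 4
    have h1 : √((v + 2 * i : ℕ) : ℝ) ≥ √(v : ℝ) := Real.sqrt_le_sqrt (by exact_mod_cast (by omega : v ≤ v + 2 * i))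
    have h0 : (0 : ℝ) ≤ √(v : ℝ) := Real.sqrt_nonneg _
    have hs : √(v : ℝ) * √(v : ℝ) = v := Real.mul_self_sqrt (Nat.cast_nonneg _)
    have hmv : (m : ℝ) ≤ √(v : ℝ) := by
      refine Real.le_sqrt_of_sq_le ?_
      have : m ^ 2 ≤ v := by rw [hv]; nlinarith
      exact_mod_cast this
    have h2 : √((v + 2 * j : ℕ) : ℝ) ≤ √(v : ℝ) + 2 := by
      refine Real.sqrt_le_iff.2 ⟨by linarith, ?_⟩
      have h3 : ((v + 2 * j : ℕ) : ℝ) ≤ v + (4 * m + 4) := by
        have : v + 2 * j ≤ v + (4 * m + 4) := by omega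
        exact_mod_cast this
      nlinarith
    linarith
  · rintro ⟨c⟩
    set V := (Finset.range (2 * m + 3)).image (fun i => v + 2 * i) with hV
    have hmem : ∀ i, i ≤ 2 * m + 2 → v + 2 * i ∈ V := fun i hi =>
      Finset.mem_image.2 ⟨i, Finset.mem_range.2 (by omega), rfl⟩
    have hstep : ∀ i (hi : i + 1 ≤ 2 * m + 2),
        c ⟨v + 2 * i, hmem i (by omega)⟩ ≠ c ⟨v + 2 * (i + 1), hmem (i + 1) hi⟩ := by
      intro i hi
      refine c.valid ⟨fun h => ?_, ⟨v + 2 * i + 1, by ring⟩⟩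
      have h' := congrArg Subtype.val h
      simp only at h'
      omega
    have halt : ∀ i (hi : 2 * i ≤ 2 * m + 2),
        c ⟨v + 2 * (2 * i), hmem (2 * i) hi⟩ = c ⟨v + 2 * 0, hmem 0 (by omega)⟩ := by
      intro i
      induction i with
      | zero => intro _; rfl
      | succ i ih =>
        intro hi
        have h1 := ih (by omega)
        have h2 := hstep (2 * i) (by omega)
        have h3 := hstep (2 * i + 1) (by omega)
        have e : (⟨v + 2 * (2 * i + 1 + 1), hmem (2 * i + 1 + 1) (by omega)⟩ : V) =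
            ⟨v + 2 * (2 * (i + 1)), hmem (2 * (i + 1)) hi⟩ := Subtype.ext (by ring_nf)
        rw [e] at h3
        rw [← h1]
        omega
    have hw := halt (m + 1) (by omega)
    have hadj : (dGraph V).Adj ⟨v + 2 * 0, hmem 0 (by omega)⟩
        ⟨v + 2 * (2 * (m + 1)), hmem (2 * (m + 1)) (by omega)⟩ := by
      refine ⟨fun h => ?_, ⟨v + 2 * m + 1, ?_⟩⟩
      · have h' := congrArg Subtype.val h
        simp only at h'
        omega
      · simp only
        rw [hv]; ring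
    exact c.valid hadj hw.symm

/-- the real estimates for an edge -/
theorem real_part {a b s x : ℕ} (ha0 : 0 < a) (hab : a < b) (hs : a + b = 2 * x + s)
    (hx : a * b + 1 = x * x) (hx0 : 0 < x) (hspos : 1 ≤ s) :
    √(s : ℝ) ≤ √(b : ℝ) - √(a : ℝ) ∧ √(b : ℝ) - √(a : ℝ) ≤ √(s : ℝ) + 1 / a := by
  have ra : (0 : ℝ) < a := by exact_mod_cast ha0
  have rb : (a : ℝ) < b := by exact_mod_cast hab
  have rb0 : (0 : ℝ) < b := ra.trans rb
  have sa := Real.sq_sqrt ra.le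
  have sb := Real.sq_sqrt rb0.le
  have hsa : 0 < √(a : ℝ) := Real.sqrt_pos.2 ra
  have hsb : 0 < √(b : ℝ) := Real.sqrt_pos.2 rb0
  have hlt : √(a : ℝ) < √(b : ℝ) := Real.sqrt_lt_sqrt ra.le rb
  obtain ⟨p, hp⟩ : ∃ p, p = √(a : ℝ) * √(b : ℝ) := ⟨_, rfl⟩
  have hp2 : p ^ 2 = a * b := by rw [hp, mul_pow, sa, sb]
  have hx2 : (x : ℝ) ^ 2 = a * b + 1 := by
    have : ((a * b + 1 : ℕ) : ℝ) = ((x * x : ℕ) : ℝ) := by rw [hx]
    push_cast at this
    rw [this]
    ring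
  have hp0 : 0 < p := by rw [hp]; exact mul_pos hsa hsb
  have hxr : (0 : ℝ) < x := by exact_mod_cast hx0
  have hmul : ((x : ℝ) - p) * (x + p) = 1 := by
    have : ((x : ℝ) - p) * (x + p) = x ^ 2 - p ^ 2 := by ring
    rw [this, hx2, hp2]
    ring
  have hpx : 0 < (x : ℝ) - p := by
    by_contra hcon
    push Not at hcon
    have : ((x : ℝ) - p) * (x + p) ≤ 0 := mul_nonpos_of_nonpos_of_nonneg hcon (by linarith)
    linarith
  have hap : (a : ℝ) ≤ p := by
    have h1 : (a : ℝ) = √(a : ℝ) * √(a : ℝ) := (Real.mul_self_sqrt ra.le).symm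
    rw [hp]
    calc (a : ℝ) = √(a : ℝ) * √(a : ℝ) := h1
      _ ≤ √(a : ℝ) * √(b : ℝ) := mul_le_mul_of_nonneg_left hlt.le hsa.le
  have hs' : (s : ℝ) = a + b - 2 * x := by
    have : ((a + b : ℕ) : ℝ) = ((2 * x + s : ℕ) : ℝ) := by rw [hs]
    push_cast at this
    linarith
  have hdiff : (√(b : ℝ) - √(a : ℝ)) ^ 2 = s + 2 * (x - p) := by
    rw [hs', sub_sq, sa, sb, hp]
    ring
  have rs : (1 : ℝ) ≤ s := by exact_mod_cast hspos
  have hss := Real.sq_sqrt (show (0 : ℝ) ≤ s by linarith)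
  have hsroot : 1 ≤ √(s : ℝ) := Real.one_le_sqrt.2 rs
  have hlow : √(s : ℝ) ≤ √(b : ℝ) - √(a : ℝ) := by
    refine Real.sqrt_le_iff.2 ⟨by linarith, ?_⟩
    rw [hdiff]
    linarith
  refine ⟨hlow, ?_⟩
  have hxp : 2 * (x - p) ≤ 1 / a := by
    rw [le_div_iff₀ ra]
    have h2 : 2 * (a : ℝ) ≤ x + p := by linarith
    have h3 := mul_le_mul_of_nonneg_left h2 hpx.le
    linarith
  obtain ⟨q, hq⟩ : ∃ q, q = √(b : ℝ) - √(a : ℝ) := ⟨_, rfl⟩
  rw [← hq] at hdiff hlow ⊢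
  have h1 : (q - √(s : ℝ)) * (q + √(s : ℝ)) ≤ 1 / a := by
    have : (q - √(s : ℝ)) * (q + √(s : ℝ)) = q ^ 2 - (√(s : ℝ)) ^ 2 := by ring
    rw [this, hdiff, hss]
    linarith
  have h2 : q - √(s : ℝ) ≤ (q - √(s : ℝ)) * (q + √(s : ℝ)) :=
    le_mul_of_one_le_right (by linarith) (by linarith)
  linarith

/-- The label `s = a + b - 2 √(a b + 1)` of an edge and its properties. -/
theorem label {a b : ℕ} (ha : a % 4 = 0 ∨ a % 4 = 3) (hb : b % 4 = 0 ∨ b % 4 = 3) (ha0 : 0 < a)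
    (hab : a < b) (h : IsSquare (a * b + 1)) :
    ∃ s y z : ℕ, (s % 4 = 1 ∨ s % 4 = 2) ∧ s * a + 1 = y ^ 2 ∧ s * b + 1 = z ^ 2 ∧
      b = a + s + 2 * y ∧ b + s = a + 2 * z ∧
      √(s : ℝ) ≤ √(b : ℝ) - √(a : ℝ) ∧ √(b : ℝ) - √(a : ℝ) ≤ √(s : ℝ) + 1 / a := by
  obtain ⟨x, hx⟩ := h
  have hxa : a < x := by
    by_contra hcon
    push Not at hcon
    have : x * x ≤ a * a := Nat.mul_le_mul hcon hcon
    nlinarith
  have hxb : x ≤ b := by
    by_contra hcon
    push Not at hcon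
    have : (b + 1) * (b + 1) ≤ x * x := Nat.mul_le_mul hcon hcon
    nlinarith
  obtain ⟨d, rfl⟩ := Nat.exists_eq_add_of_lt hab
  -- `d ≠ 0`: the product of two consecutive numbers plus one is no square
  have hd : d ≠ 0 := by
    rintro rfl
    have h1 : a * a < x * x := by nlinarith
    have h2 : x * x < (a + 1) * (a + 1) := by nlinarith
    have h3 : a < x := by nlinarith
    have h4 : x < a + 1 := by nlinarith
    omega
  have h2x : 2 * x ≤ a + (a + d + 1) := by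
    by_contra hcon
    push Not at hcon
    have h1 : (a + (a + d + 1) + 1) * (a + (a + d + 1) + 1) ≤ (2 * x) * (2 * x) :=
      Nat.mul_le_mul hcon hcon
    have h2 : (2 * x) * (2 * x) = 4 * (a * (a + d + 1) + 1) := by rw [hx]; ring
    rw [h2] at h1
    have h3 : 1 ≤ d := Nat.one_le_iff_ne_zero.2 hd
    nlinarith
  set b := a + d + 1 with hbdef
  obtain ⟨s, hs⟩ : ∃ s, a + b = 2 * x + s := ⟨a + b - 2 * x, by omega⟩
  obtain ⟨y, hy⟩ : ∃ y, x = a + y := ⟨x - a, by omega⟩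
  obtain ⟨z, hz⟩ : ∃ z, b = x + z := ⟨b - x, by omega⟩
  have hmod : (a * b + 1) % 4 = (x * x) % 4 := by rw [hx]
  have hs4 : s % 4 = 1 ∨ s % 4 = 2 := by
    have hx4 : x % 4 = 0 ∨ x % 4 = 1 ∨ x % 4 = 2 ∨ x % 4 = 3 := by omega
    rcases ha with h1 | h1 <;> rcases hb with h2 | h2 <;> rcases hx4 with h3 | h3 | h3 | h3 <;>
      simp [Nat.add_mod, Nat.mul_mod, h1, h2, h3] at hmod <;> omega
  have hy2 : s * a + 1 = y ^ 2 := by
    have e1 : (s : ℤ) = a + b - 2 * x := by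
      have : ((a + b : ℕ) : ℤ) = ((2 * x + s : ℕ) : ℤ) := by rw [hs]
      push_cast at this
      linarith
    have e2 : (y : ℤ) = x - a := by
      have : (x : ℤ) = a + y := by exact_mod_cast hy
      linarith
    have e3 : (a : ℤ) * b + 1 = x * x := by exact_mod_cast hx
    have : ((s * a + 1 : ℕ) : ℤ) = ((y ^ 2 : ℕ) : ℤ) := by
      push_cast
      rw [e1, e2]
      linear_combination e3
    exact_mod_cast this
  have hz2 : s * b + 1 = z ^ 2 := by
    have e1 : (s : ℤ) = a + b - 2 * x := by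
      have : ((a + b : ℕ) : ℤ) = ((2 * x + s : ℕ) : ℤ) := by rw [hs]
      push_cast at this
      linarith
    have e2 : (z : ℤ) = b - x := by
      have : (b : ℤ) = x + z := by exact_mod_cast hz
      linarith
    have e3 : (a : ℤ) * b + 1 = x * x := by exact_mod_cast hx
    have : ((s * b + 1 : ℕ) : ℤ) = ((z ^ 2 : ℕ) : ℤ) := by
      push_cast
      rw [e1, e2]
      linear_combination e3
    exact_mod_cast this
  exact ⟨s, y, z, hs4, hy2, hz2, by omega, by omega,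
    real_part ha0 hab hs hx (by omega) (by omega)⟩

/-- `s` is the label of the pair `a`, `b`. -/
def Lab (s a b : ℕ) : Prop :=
  (s % 4 = 1 ∨ s % 4 = 2) ∧ ∃ y z, s * a + 1 = y ^ 2 ∧ s * b + 1 = z ^ 2 ∧
    ((a < b ∧ b = a + s + 2 * y ∧ b + s = a + 2 * z) ∨
      (b < a ∧ a = b + s + 2 * z ∧ a + s = b + 2 * y))

theorem Lab.symm {s a b : ℕ} (h : Lab s a b) : Lab s b a := by
  obtain ⟨h1, y, z, h2, h3, h4⟩ := h
  exact ⟨h1, z, y, h3, h2, h4.symm⟩

theorem sq_inj {y z : ℕ} (h : y ^ 2 = z ^ 2) : y = z := Nat.pow_left_injective (n := 2) (by norm_num) h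

/-- two edges with the same label at `b` go in opposite directions -/
theorem Lab.straight {s a b c : ℕ} (h1 : Lab s a b) (h2 : Lab s b c) (hac : a ≠ c) :
    a < b ↔ b < c := by
  obtain ⟨-, y, z, e1, e2, h⟩ := h1
  obtain ⟨-, y', z', e1', e2', h'⟩ := h2
  have hzy : z = y' := sq_inj (by rw [← e2, ← e1'])
  rcases h with ⟨h, h3, h4⟩ | ⟨h, h3, h4⟩ <;> rcases h' with ⟨h', h3', h4'⟩ | ⟨h', h3', h4'⟩
  · exact ⟨fun _ => h', fun _ => h⟩
  · exfalso
    apply hac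
    omega
  · exfalso
    apply hac
    omega
  · exact ⟨fun g => by omega, fun g => by omega⟩

/-- every edge has a label -/
theorem lab_exists {N a b : ℕ} (hN : 0 < N) (hNa : N ≤ a) (hNb : N ≤ b)
    (ha : a % 4 = 0 ∨ a % 4 = 3) (hb : b % 4 = 0 ∨ b % 4 = 3) (hab : a ≠ b)
    (h : IsSquare (a * b + 1)) :
    ∃ s, Lab s a b ∧ √(s : ℝ) ≤ |√(b : ℝ) - √(a : ℝ)| ∧
      |√(b : ℝ) - √(a : ℝ)| ≤ √(s : ℝ) + 1 / N := by
  have hNr : (0 : ℝ) < N := by exact_mod_cast hN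
  rcases lt_or_gt_of_ne hab with h1 | h1
  · obtain ⟨s, y, z, g1, g2, g3, g4, g5, g6, g7⟩ := label ha hb (by omega) h1 h
    have hnn : 0 ≤ √(b : ℝ) - √(a : ℝ) := le_trans (Real.sqrt_nonneg _) g6
    refine ⟨s, ⟨g1, y, z, g2, g3, Or.inl ⟨h1, g4, g5⟩⟩, ?_, ?_⟩
    · rw [abs_of_nonneg hnn]
      exact g6
    · rw [abs_of_nonneg hnn]
      refine g7.trans (add_le_add le_rfl (one_div_le_one_div_of_le hNr ?_))
      exact_mod_cast hNa
  · obtain ⟨s, y, z, g1, g2, g3, g4, g5, g6, g7⟩ := label hb ha (by omega) h1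
      (by rw [mul_comm]; exact h)
    have hnn : 0 ≤ √(a : ℝ) - √(b : ℝ) := le_trans (Real.sqrt_nonneg _) g6
    refine ⟨s, ⟨g1, z, y, g3, g2, Or.inr ⟨h1, g4, g5⟩⟩, ?_, ?_⟩
    · rw [abs_sub_comm, abs_of_nonneg hnn]
      exact g6
    · rw [abs_sub_comm, abs_of_nonneg hnn]
      refine g7.trans (add_le_add le_rfl (one_div_le_one_div_of_le hNr ?_))
      exact_mod_cast hNb

/-- the data of a window -/
structure Win (K : ℝ) (L N : ℕ) (W : Finset ℕ) : Prop where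
  pos : 0 < N
  le : ∀ a ∈ W, N ≤ a
  mod : ∀ a ∈ W, a % 4 = 0 ∨ a % 4 = 3
  win : ∀ a ∈ W, ∀ b ∈ W, √(b : ℝ) - √(a : ℝ) ≤ K
  KL : K ≤ L
  K2L : K ^ 2 ≤ L

theorem Win.absK {K : ℝ} {L N : ℕ} {W : Finset ℕ} (h : Win K L N W) {a b : ℕ} (ha : a ∈ W)
    (hb : b ∈ W) : |√(b : ℝ) - √(a : ℝ)| ≤ K := by
  rw [abs_le]
  have h1 := h.win a ha b hb
  have h2 := h.win b hb a ha
  constructor <;> linarith

theorem Win.edge {K : ℝ} {L N : ℕ} {W : Finset ℕ} (h : Win K L N W) {a b : W}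
    (hab : (dGraph W).Adj a b) :
    ∃ s : ℕ, Lab s a b ∧ s ≤ L ∧ 1 ≤ |√((b : ℕ) : ℝ) - √((a : ℕ) : ℝ)| ∧
      ∃ e : ℤ, (e = 1 ∨ e = -1) ∧
        |√((b : ℕ) : ℝ) - √((a : ℕ) : ℝ) - e * √(s : ℝ)| ≤ 1 / N := by
  obtain ⟨s, h1, h2, h3⟩ := lab_exists h.pos (h.le a a.2) (h.le b b.2) (h.mod a a.2)
    (h.mod b b.2) (fun he => hab.1 (Subtype.ext he)) hab.2
  have hK := h.absK a.2 b.2
  have hs0 : (0 : ℝ) ≤ s := Nat.cast_nonneg _
  have hsq := Real.sq_sqrt hs0
  have hsL : s ≤ L := by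
    have h4 : (s : ℝ) ≤ L := by
      have h5 : √(s : ℝ) ≤ K := h2.trans hK
      have h6 : √(s : ℝ) ^ 2 ≤ K ^ 2 := pow_le_pow_left₀ (Real.sqrt_nonneg _) h5 2
      have := h.K2L
      linarith
    exact_mod_cast h4
  have hs1 : 1 ≤ s := by
    have := h1.1
    omega
  have hroot : 1 ≤ √(s : ℝ) := Real.one_le_sqrt.2 (by exact_mod_cast hs1)
  refine ⟨s, h1, hsL, hroot.trans h2, ?_⟩
  rcases abs_cases (√((b : ℕ) : ℝ) - √((a : ℕ) : ℝ)) with ⟨h4, h5⟩ | ⟨h4, h5⟩
  · refine ⟨1, Or.inl rfl, ?_⟩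
    rw [h4] at h2 h3
    rw [abs_le]
    push_cast
    constructor
    · have : (0 : ℝ) ≤ 1 / N := by positivity
      linarith
    · linarith
  · refine ⟨-1, Or.inr rfl, ?_⟩
    rw [h4] at h2 h3
    rw [abs_le]
    push_cast
    constructor
    · linarith
    · have : (0 : ℝ) ≤ 1 / N := by positivity
      linarith

/-- the signed sum of a walk -/
theorem Win.walk {K : ℝ} {L N : ℕ} {W : Finset ℕ} (h : Win K L N W) {u v : W}
    (p : (dGraph W).Walk u v) :
    ∃ (e : Fin p.length → ℤ) (s : Fin p.length → ℕ), (∀ i, e i = 1 ∨ e i = -1) ∧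
      (∀ i, s i % 4 = 1 ∨ s i % 4 = 2) ∧ (∀ i, s i ≤ L) ∧
      |√((v : ℕ) : ℝ) - √((u : ℕ) : ℝ) - ∑ i, (e i : ℝ) * √(s i : ℝ)| ≤ p.length * (1 / N) := by
  induction p with
  | nil =>
    refine ⟨fun _ => 1, fun _ => 1, fun _ => Or.inl rfl, fun _ => Or.inl rfl,
      fun i => i.elim0, ?_⟩
    rw [sub_self, Finset.sum_eq_zero (fun i _ => (i.elim0 : _)), sub_zero, abs_zero]
    positivity
  | @cons u w v hadj p ih =>
    obtain ⟨e, s, h1, h2, h3, h4⟩ := ih
    obtain ⟨t, g1, g2, -, f, g3, g4⟩ := h.edge hadj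
    refine ⟨Fin.cons f e, Fin.cons t s, ?_, ?_, ?_, ?_⟩
    · intro i
      refine Fin.cases ?_ (fun j => ?_) i
      · simpa using g3
      · simpa using h1 j
    · intro i
      refine Fin.cases ?_ (fun j => ?_) i
      · simpa using g1.1
      · simpa using h2 j
    · intro i
      refine Fin.cases ?_ (fun j => ?_) i
      · simpa using g2
      · simpa using h3 j
    · have hsum : (∑ i : Fin (p.length + 1), ((Fin.cons f e : Fin (p.length + 1) → ℤ) i : ℝ) *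
          √(((Fin.cons t s : Fin (p.length + 1) → ℕ) i : ℕ) : ℝ)) =
          (f : ℝ) * √(t : ℝ) + ∑ i, (e i : ℝ) * √(s i : ℝ) := by
        rw [Fin.sum_univ_succ]
        simp
      have hgoal : |√((v : ℕ) : ℝ) - √((u : ℕ) : ℝ) -
          ((f : ℝ) * √(t : ℝ) + ∑ i, (e i : ℝ) * √(s i : ℝ))| ≤ ((p.length + 1 : ℕ) : ℝ) * (1 / N) := by
        have e1 : √((v : ℕ) : ℝ) - √((u : ℕ) : ℝ) -
            ((f : ℝ) * √(t : ℝ) + ∑ i, (e i : ℝ) * √(s i : ℝ)) =
            (√((w : ℕ) : ℝ) - √((u : ℕ) : ℝ) - f * √(t : ℝ)) +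
            (√((v : ℕ) : ℝ) - √((w : ℕ) : ℝ) - ∑ i, (e i : ℝ) * √(s i : ℝ)) := by ring
        rw [e1]
        refine (abs_add_le _ _).trans ?_
        push_cast
        linarith
      rw [← hsum] at hgoal
      exact hgoal

/-- paths are short -/
theorem Win.path {K : ℝ} {L N : ℕ} {W : Finset ℕ} (h : Win K L N W)
    (hturn : ∀ s t v w y z y' z' : ℕ, 1 ≤ s → 1 ≤ t → s ≤ L → t ≤ L →
      s ≠ t → N ≤ v → N ≤ w → s * v + 1 = y ^ 2 → t * v + 1 = z ^ 2 → s * w + 1 = y' ^ 2 →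
      t * w + 1 = z' ^ 2 → |√(v : ℝ) - √(w : ℝ)| ≤ L → v = w) {u v : W}
    (p : (dGraph W).Walk u v) (hp : p.IsPath) : p.length ≤ ((L + 1) ^ 2 + 1) * (L + 2) := by
  classical
  have hex : ∀ i : ℕ, ∃ s : ℕ, i < p.length → Lab s (p.getVert i) (p.getVert (i + 1)) ∧ s ≤ L ∧
      1 ≤ |√((p.getVert (i + 1) : ℕ) : ℝ) - √((p.getVert i : ℕ) : ℝ)| := by
    intro i
    by_cases hi : i < p.length
    · obtain ⟨s, h1, h2, h3, -⟩ := h.edge (p.adj_getVert_succ hi)
      exact ⟨s, fun _ => ⟨h1, h2, h3⟩⟩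
    · exact ⟨0, fun h => absurd h hi⟩
  choose s hs using hex
  have hinj : ∀ i j, i ≤ p.length → j ≤ p.length → (p.getVert i : ℕ) = p.getVert j → i = j := by
    intro i j hi hj he
    exact hp.getVert_injOn hi hj (Subtype.ext he)
  have hsq : ∀ a b : ℕ, (√(a : ℝ) < √(b : ℝ) ↔ a < b) := by
    intro a b
    rw [Real.sqrt_lt_sqrt_iff (Nat.cast_nonneg _)]
    exact Nat.cast_lt
  refine run L p.length (fun i => √((p.getVert i : ℕ) : ℝ)) s (fun i hi => (hs i hi).2.1)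
    (fun i hi => (hs i hi).2.2) ?_ ?_ ?_
  · intro i hi he
    have h1 := (hs i (by omega)).1
    have h2 := (hs (i + 1) hi).1
    rw [← he] at h2
    simp only [hsq]
    refine h1.straight h2 fun hc => ?_
    have := hinj i (i + 2) (by omega) (by omega) hc
    omega
  · intro i j hi hj hne e1 e2
    obtain ⟨m1, y1, z1, a1, b1, -⟩ := (hs i (by omega)).1
    obtain ⟨m2, y2, z2, a2, b2, -⟩ := (hs (i + 1) hi).1
    obtain ⟨m3, y3, z3, a3, b3, -⟩ := (hs j (by omega)).1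
    obtain ⟨m4, y4, z4, a4, b4, -⟩ := (hs (j + 1) hj).1
    have hm := hturn (s i) (s (i + 1)) (p.getVert (i + 1)) (p.getVert (j + 1)) z1 y2 z3 y4
      (by omega) (by omega) (hs i (by omega)).2.1 (hs (i + 1) hi).2.1 hne (h.le _ (p.getVert _).2)
      (h.le _ (p.getVert _).2) b1 a2 (by rw [e1]; exact b3) (by rw [e2]; exact a4)
      ((h.absK (p.getVert _).2 (p.getVert _).2).trans h.KL)
    have := hinj (i + 1) (j + 1) (by omega) (by omega) hm
    omega
  · intro i j _ _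
    exact (h.absK (p.getVert _).2 (p.getVert _).2).trans h.KL

theorem not_sq_four {n : ℕ} (h : n % 4 = 2 ∨ n % 4 = 3) : ¬ IsSquare n := by
  rintro ⟨r, rfl⟩
  have h1 : r % 4 = 0 ∨ r % 4 = 1 ∨ r % 4 = 2 ∨ r % 4 = 3 := by omega
  rcases h1 with h1 | h1 | h1 | h1 <;> simp [Nat.mul_mod, h1] at h

theorem not_sq_eight {n : ℕ} (h : n % 8 = 5) : ¬ IsSquare n := by
  rintro ⟨r, rfl⟩
  have h1 : r % 8 = 0 ∨ r % 8 = 1 ∨ r % 8 = 2 ∨ r % 8 = 3 ∨ r % 8 = 4 ∨ r % 8 = 5 ∨ r % 8 = 6 ∨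
    r % 8 = 7 := by omega
  rcases h1 with h1 | h1 | h1 | h1 | h1 | h1 | h1 | h1 <;> simp [Nat.mul_mod, h1] at h

/-- the classes `1, 2 mod 4` are independent -/
theorem not_adj_one_two {a b : ℕ} (ha : a % 4 = 1 ∨ a % 4 = 2) (hb : b % 4 = 1 ∨ b % 4 = 2) :
    ¬ IsSquare (a * b + 1) := by
  rcases ha with h | h <;> rcases hb with h' | h'
  · exact not_sq_four (by simp [Nat.add_mod, Nat.mul_mod, h, h'])
  · exact not_sq_four (by simp [Nat.add_mod, Nat.mul_mod, h, h'])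
  · exact not_sq_four (by simp [Nat.add_mod, Nat.mul_mod, h, h'])
  · have ha8 : a % 8 = 2 ∨ a % 8 = 6 := by omega
    have hb8 : b % 8 = 2 ∨ b % 8 = 6 := by omega
    rcases ha8 with h8 | h8 <;> rcases hb8 with h8' | h8' <;>
      exact not_sq_eight (by simp [Nat.add_mod, Nat.mul_mod, h8, h8'])

/-- far windows in the classes `0, 3 mod 4` are bipartite -/
theorem bip (D L B : ℕ) (hL : L = D ^ 2)
    (hB : B = 2 * (((L + 1) ^ 2 + 1) * (L + 2)) + 1) (W : Finset ℕ)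
    (h1 : ∀ a ∈ W, L ^ 6 + B * (B * (L + 1)) ^ (2 ^ (L + 1)) + 1 ≤ a)
    (h2 : ∀ a ∈ W, a % 4 = 0 ∨ a % 4 = 3) (h3 : ∀ a ∈ W, ∀ b ∈ W, √(b : ℝ) - √(a : ℝ) ≤ D) :
    (dGraph W).Colorable 2 := by
  classical
  obtain ⟨N₂, hN₂⟩ : ∃ N₂, N₂ = B * (B * (L + 1)) ^ (2 ^ (L + 1)) := ⟨_, rfl⟩
  rw [← hN₂] at h1
  have hDL : ((D : ℕ) : ℝ) ≤ L := by
    rw [hL]
    exact_mod_cast Nat.le_self_pow (by norm_num) D
  have hD2L : ((D : ℕ) : ℝ) ^ 2 ≤ L := by
    rw [hL]
    push_cast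
    exact le_rfl
  have hW : Win D L (L ^ 6 + N₂ + 1) W := ⟨by omega, h1, h2, h3, hDL, hD2L⟩
  have hturn : ∀ s t v w y z y' z' : ℕ, 1 ≤ s → 1 ≤ t → s ≤ L → t ≤ L →
      s ≠ t → L ^ 6 + N₂ + 1 ≤ v → L ^ 6 + N₂ + 1 ≤ w → s * v + 1 = y ^ 2 → t * v + 1 = z ^ 2 →
      s * w + 1 = y' ^ 2 → t * w + 1 = z' ^ 2 → |√(v : ℝ) - √(w : ℝ)| ≤ L → v = w := by
    intro s t v w y z y' z' g1 g2 g3 g4 g5 g6 g7
    exact turn L s t v w y z y' z' g1 g2 g3 g4 g5 (by omega) (by omega)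
  have hB1 : 1 ≤ B := by omega
  have hsmall : (B : ℝ) * (1 / ((L ^ 6 + N₂ + 1 : ℕ) : ℝ)) *
      ((B * (L + 1) : ℕ) : ℝ) ^ (2 ^ (L + 1)) < 1 := by
    have e0 : (N₂ : ℝ) = (B : ℝ) * ((B * (L + 1) : ℕ) : ℝ) ^ (2 ^ (L + 1)) := by
      rw [hN₂, Nat.cast_mul B ((B * (L + 1)) ^ (2 ^ (L + 1))), Nat.cast_pow]
    have e1 : (B : ℝ) * (1 / ((L ^ 6 + N₂ + 1 : ℕ) : ℝ)) *
        ((B * (L + 1) : ℕ) : ℝ) ^ (2 ^ (L + 1)) =
        (N₂ : ℝ) / ((L ^ 6 + N₂ + 1 : ℕ) : ℝ) := by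
      rw [e0, mul_one_div, div_mul_eq_mul_div]
    rw [e1, div_lt_one (by positivity)]
    exact_mod_cast (by omega : N₂ < L ^ 6 + N₂ + 1)
  -- short closed walks are even
  have heven : ∀ (u : W) (q : (dGraph W).Walk u u), q.length ≤ B → Even q.length := by
    intro u q hq
    obtain ⟨e, s, g1, g2, g3, g4⟩ := hW.walk q
    refine alg e s g1 g2 (discE L B hB1 _ hq e s g1 g3 ?_)
    rw [sub_self, zero_sub, abs_neg] at g4
    refine lt_of_le_of_lt ?_ hsmall
    refine mul_le_mul_of_nonneg_right (g4.trans ?_) (by positivity)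
    refine mul_le_mul_of_nonneg_right ?_ (by positivity)
    exact_mod_cast hq
  let rep : W → W := fun a => ((dGraph W).connectedComponentMk a).out
  have hrep : ∀ a, (dGraph W).Reachable (rep a) a := fun a =>
    SimpleGraph.ConnectedComponent.exact (Quot.out_eq _)
  refine ⟨SimpleGraph.Coloring.mk (fun a => (⟨(dGraph W).dist (rep a) a % 2,
    Nat.mod_lt _ (by norm_num)⟩ : Fin 2)) ?_⟩
  intro a b hab he
  have hr : rep a = rep b := by
    show ((dGraph W).connectedComponentMk a).out = ((dGraph W).connectedComponentMk b).out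
    rw [SimpleGraph.ConnectedComponent.sound hab.reachable]
  obtain ⟨pa, hpa, hla⟩ := (hrep a).exists_path_of_dist
  obtain ⟨pb, hpb, hlb⟩ := (hrep b).exists_path_of_dist
  have ba := hW.path hturn pa hpa
  have bb := hW.path hturn pb hpb
  obtain ⟨qb, hqb⟩ : ∃ q : (dGraph W).Walk (rep a) b, q.length = pb.length := by
    rw [hr]
    exact ⟨pb, rfl⟩
  have hev := heven _ ((pa.concat hab).append qb.reverse) (by
    rw [SimpleGraph.Walk.length_append, SimpleGraph.Walk.length_concat,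
      SimpleGraph.Walk.length_reverse, hqb]
    omega)
  rw [SimpleGraph.Walk.length_append, SimpleGraph.Walk.length_concat,
    SimpleGraph.Walk.length_reverse, hqb, hla, hlb] at hev
  have he' := Fin.mk.inj_iff.1 he
  rw [Nat.even_iff] at hev
  omega

/-- Diophantine graphs in far windows are 3-colourable. -/
theorem window (D L B : ℕ) (hL : L = D ^ 2)
    (hB : B = 2 * (((L + 1) ^ 2 + 1) * (L + 2)) + 1) (V : Finset ℕ)
    (h1 : ∀ a ∈ V, L ^ 6 + B * (B * (L + 1)) ^ (2 ^ (L + 1)) + 1 ≤ a)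
    (h2 : ∀ a ∈ V, ∀ b ∈ V, √(b : ℝ) - √(a : ℝ) ≤ D) : (dGraph V).Colorable 3 := by
  classical
  set W := V.filter fun a => a % 4 = 0 ∨ a % 4 = 3 with hW
  have hmem : ∀ {a : ℕ}, a ∈ W ↔ a ∈ V ∧ (a % 4 = 0 ∨ a % 4 = 3) := by
    intro a
    rw [hW, Finset.mem_filter]
  obtain ⟨C⟩ := bip D L B hL hB W (fun a ha => h1 a (hmem.1 ha).1) (fun a ha => (hmem.1 ha).2)
    (fun a ha b hb => h2 a (hmem.1 ha).1 b (hmem.1 hb).1)
  let f : V → Fin 3 := fun a => if h : (a : ℕ) ∈ W then (C ⟨a, h⟩).castSucc else Fin.last 2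
  refine ⟨SimpleGraph.Coloring.mk f ?_⟩
  intro a b hab he
  have hlast : ∀ x : Fin 2, x.castSucc ≠ Fin.last 2 := fun x => Fin.castSucc_ne_last x
  by_cases ha : (a : ℕ) ∈ W
  · by_cases hb : (b : ℕ) ∈ W
    · simp only [f, ha, hb, dif_pos] at he
      exact C.valid (v := ⟨a, ha⟩) (w := ⟨b, hb⟩)
        ⟨fun h => hab.1 (Subtype.ext (congrArg (fun x : W => (x : ℕ)) h)), hab.2⟩
        (Fin.castSucc_injective _ he)
    · simp only [f, ha, hb, dif_pos, dif_neg, not_false_iff] at he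
      exact hlast _ he
  · by_cases hb : (b : ℕ) ∈ W
    · simp only [f, ha, hb, dif_pos, dif_neg, not_false_iff] at he
      exact hlast _ he.symm
    · have ha4 : (a : ℕ) % 4 = 1 ∨ (a : ℕ) % 4 = 2 := by
        have : ¬ ((a : ℕ) % 4 = 0 ∨ (a : ℕ) % 4 = 3) := fun h => ha (hmem.2 ⟨a.2, h⟩)
        omega
      have hb4 : (b : ℕ) % 4 = 1 ∨ (b : ℕ) % 4 = 2 := by
        have : ¬ ((b : ℕ) % 4 = 0 ∨ (b : ℕ) % 4 = 3) := fun h => hb (hmem.2 ⟨b.2, h⟩)
        omega
      exact not_adj_one_two ha4 hb4 hab.2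

end Pool.Agent.Lib.MP_d91fe8_nt.Windows
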